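import Pool.Agent.U583.HC.Fin

set_option autoImplicit false

/-!
The criterion from the initial time on, with the helical part written as a Fourier series.
-/

open MeasureTheory Set Filter Topology
open scoped ContDiff ComplexConjugate RealInnerProductSpace ENNReal

namespace Pool.Agent.U583.HC

open H459R3.NS Pool.Agent.Q63.Win

theorem nrm_Lam {f : V → ℝ} (hf : SP f) : nrm (Lam f) = grd f := by
  have h : nrm (Lam f) ^ 2 = grd f ^ 2 := by
    rw [nrm_WS (Lam_sp hf), grd_WS hf]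
    unfold Lam
    rw [WS_Mlt sym_lam hf]
    congr 1
    funext k
    ring
  exact (pow_left_inj₀ (nrm_nonneg _) (grd_nonneg _) two_ne_zero).1 h

theorem WS_lam_eq {f : V → ℝ} (hf : SP f) : WS lam f = ∫ x in cube, f x * Lam f x := by
  have h := Complex.hasSum_re (hasSum_int hf (Lam_sp hf))
  rw [Complex.ofReal_re] at h
  rw [← h.tsum_eq]
  unfold WS
  refine tsum_congr fun k => ?_
  rw [fr_Lam hf, map_mul, Complex.conj_ofReal]
  have e : fr f k * ((lam k : ℂ) * conj (fr f k)) = (lam k : ℂ) * ((‖fr f k‖ ^ 2 : ℝ) : ℂ) := by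
    have : ((‖fr f k‖ ^ 2 : ℝ) : ℂ) = fr f k * conj (fr f k) := by
      rw [Complex.mul_conj, Complex.normSq_eq_norm_sq]
    rw [this]
    ring
  rw [e, ← Complex.ofReal_mul, Complex.ofReal_re]

theorem WS_lam_sub {f g : V → ℝ} (hf : SP f) (hg : SP g) :
    |WS lam f - WS lam g| ≤ nrm (fun x => f x - g x) * (grd f + grd g) := by
  have hLf := Lam_sp hf
  have hLg := Lam_sp hg
  have e : WS lam f - WS lam g = ∫ x in cube, (f x - g x) * (Lam f x + Lam g x) := by
    have h1 : ∫ x in cube, (f x - g x) * (Lam f x + Lam g x)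
        = ((∫ x in cube, f x * Lam f x) - ∫ x in cube, g x * Lam g x)
          + ((∫ x in cube, f x * Lam g x) - ∫ x in cube, g x * Lam f x) := by
      rw [← integral_sub (hf.mul hLf).int (hg.mul hLg).int,
        ← integral_sub (hf.mul hLg).int (hg.mul hLf).int,
        ← integral_add ((hf.mul hLf).sub (hg.mul hLg)).int ((hf.mul hLg).sub (hg.mul hLf)).int]
      congr 1
      funext x
      ring
    have h2 : ∫ x in cube, f x * Lam g x = ∫ x in cube, g x * Lam f x := by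
      rw [← Lam_self hf hg]
      congr 1
      funext x
      ring
    rw [h1, h2, sub_self, add_zero, WS_lam_eq hf, WS_lam_eq hg]
  rw [e]
  refine (abs_int_mul_le (hf.sub hg).cont (hLf.add hLg).cont).trans ?_
  refine mul_le_mul_of_nonneg_left ?_ (nrm_nonneg _)
  refine (nrm_add_le hLf.cont hLg.cont).trans ?_
  rw [nrm_Lam hf, nrm_Lam hg]

variable {ν T : ℝ} {u : ℝ → V → V} {P : ℝ → V → ℝ}

theorem Et_tendsto (h : IsSol ν T u P) (hT : 0 < T) :
    Tendsto (Et u) (𝓝[Ioo 0 T] 0) (𝓝 (Et u 0)) := by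
  have h0 : (0 : ℝ) ∈ Ico 0 T := ⟨le_rfl, hT⟩
  have hsub : 𝓝[Ioo 0 T] (0 : ℝ) ≤ 𝓝[Ico 0 T] 0 := nhdsWithin_mono _ Ioo_subset_Ico_self
  have hn : ∀ i, Tendsto (fun t => nrm (fun x => u t x i - u 0 x i)) (𝓝[Ioo 0 T] 0) (𝓝 0) := by
    intro i
    have h1 : ContinuousOn (fun t => ∫ x in cube, (u t x i - u 0 x i) ^ 2) (Ico 0 T) := by
      refine continuousOn_int (F := fun t x => (u t x i - u 0 x i) ^ 2) ?_
      refine ContinuousOn.pow ?_ 2
      refine (h.smooth_c i).continuousOn.sub ?_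
      have := (h.sp h0 i).cont
      exact (this.comp continuous_snd).continuousOn
    have h2 := (h1 0 h0).tendsto.mono_left hsub
    have e : ∫ x in cube, (u 0 x i - u 0 x i) ^ 2 = 0 := by simp
    rw [e] at h2
    have h3 := h2.sqrt
    rw [Real.sqrt_zero] at h3
    exact h3
  have hg : ∀ t ∈ Ico 0 T, ∀ i, grd (fun y => u t y i) ≤ Real.sqrt (enstrophy (u t)) := by
    intro t ht i
    unfold grd
    refine Real.sqrt_le_sqrt ?_
    exact Finset.single_le_sum (f := fun i => ∑ j, ∫ x in cube, pd j (fun y => u t y i) x ^ 2)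
      (fun _ _ => Finset.sum_nonneg fun _ _ => integral_nonneg fun _ => sq_nonneg _)
      (Finset.mem_univ i)
  have hy : Tendsto (fun t => Real.sqrt (enstrophy (u t)) + Real.sqrt (enstrophy (u 0)))
      (𝓝[Ioo 0 T] 0) (𝓝 (Real.sqrt (enstrophy (u 0)) + Real.sqrt (enstrophy (u 0)))) :=
    (((h.enstrophy_continuousOn 0 h0).tendsto.mono_left hsub).sqrt).add_const _
  have hlim : Tendsto (fun t => ∑ i, nrm (fun x => u t x i - u 0 x i)
      * (Real.sqrt (enstrophy (u t)) + Real.sqrt (enstrophy (u 0)))) (𝓝[Ioo 0 T] 0) (𝓝 0) := by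
    have h1 := tendsto_finsetSum Finset.univ fun i (_ : i ∈ Finset.univ) => (hn i).mul hy
    simpa using h1
  rw [tendsto_iff_norm_sub_tendsto_zero]
  refine squeeze_zero' (Eventually.of_forall fun _ => norm_nonneg _) ?_ hlim
  filter_upwards [self_mem_nhdsWithin] with t ht
  have ht' : t ∈ Ico 0 T := Ioo_subset_Ico_self ht
  unfold Et En
  rw [← Finset.sum_sub_distrib, Real.norm_eq_abs]
  refine (Finset.abs_sum_le_sum_abs _ _).trans (Finset.sum_le_sum fun i _ => ?_)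
  refine (WS_lam_sub (h.sp ht' i) (h.sp h0 i)).trans ?_
  refine mul_le_mul_of_nonneg_left (add_le_add (hg t ht' i) (hg 0 h0 i)) (nrm_nonneg _)

theorem Et_bound0 (h : IsSol ν T u P) (hν : 0 < ν) {g : ℝ → ℝ} (hg0 : ∀ t ∈ Ioo 0 T, 0 ≤ g t)
    (hgi : IntegrableOn g (Ioo 0 T))
    (hd : ∀ t ∈ Ioo 0 T, -(2 * ν * Dt u t) - 2 * Wt u t ≤ -(ν * Dt u t) + g t * Et u t)
    {t : ℝ} (ht : t ∈ Ico 0 T) : Et u t ≤ Et u 0 * Real.exp (∫ s in Ioo 0 t, g s) := by
  rcases eq_or_lt_of_le ht.1 with h0 | h0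
  · subst h0
    simp
  have hT : 0 < T := h0.trans ht.2
  have hlim := (Et_tendsto h hT).mul_const (Real.exp (∫ s in Ioo 0 t, g s))
  have hne : (𝓝[Ioo 0 T] (0 : ℝ)).NeBot := left_nhdsWithin_Ioo_neBot hT
  refine ge_of_tendsto hlim ?_
  have hev : ∀ᶠ a in 𝓝[Ioo 0 T] (0 : ℝ), a < t := nhdsWithin_le_nhds (Iio_mem_nhds h0)
  filter_upwards [hev, self_mem_nhdsWithin] with a ha1 ha2
  refine (Et_bound h hν hg0 hgi hd ha2.1 ha1.le ht.2).trans ?_
  refine mul_le_mul_of_nonneg_left (Real.exp_le_exp.2 ?_) (Et_nonneg u a)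
  rw [intervalIntegral.integral_of_le ha1.le, integral_Ioc_eq_integral_Ioo]
  refine setIntegral_mono_set (hgi.mono_set (Ioo_subset_Ioo_right ht.2.le)) ?_
    (Ioo_subset_Ioo_left ha2.1.le).eventuallyLE
  filter_upwards [ae_restrict_mem measurableSet_Ioo] with s hs
  exact hg0 s ⟨hs.1, hs.2.trans ht.2⟩

/-! ### Fourier series form -/

/-- The Fourier coefficients of the helical part of sign `σ` of the field `v`. -/
noncomputable def helC (σ : ℝ) (v : V → V) (k : K3) (i : Fin 3) : ℂ :=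
  if k = 0 then 0 else 1 / 2 * (fr (fun x => v x i) k + σ * Complex.I *
    ((k (i + 1) : ℂ) * fr (fun x => v x (i + 2)) k - (k (i + 2) : ℂ) * fr (fun x => v x (i + 1)) k)
      / (Real.sqrt (∑ j, (k j : ℝ) ^ 2) : ℂ))

/-- The helical part of sign `σ` of the field `v`. -/
noncomputable def hel (σ : ℝ) (v : V → V) (x : V) (i : Fin 3) : ℝ :=
  (∑' k : K3, helC σ v k i * ee k x).re

/-- The square of the homogeneous Sobolev norm of order `1/2`. -/
noncomputable def half (v : V → V) : ℝ :=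
  ∑' k : K3, 2 * Real.pi * Real.sqrt (∑ j, (k j : ℝ) ^ 2) * ∑ i, ‖fr (fun x => v x i) k‖ ^ 2

theorem half_eq {v : V → V} (hv : ∀ i, SP (fun y => v y i)) : half v = En fun i y => v y i := by
  unfold half En WS
  rw [← Summable.tsum_finsetSum fun i _ => WS_summable pol_lam (hv i)]
  refine tsum_congr fun k => ?_
  rw [Finset.mul_sum]
  rfl

theorem helC_eq {v : V → V} (hv : ∀ i, SP (fun y => v y i)) (σ : ℝ) (k : K3) (i : Fin 3) :
    fr (hp σ (fun i y => v y i) i) k = helC σ v k i := by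
  rw [fr_hp σ hv, fr_crl hv]
  unfold helC nz
  split_ifs with hk
  · subst hk
    have : il 0 = 0 := by unfold il; rw [lam_zero, inv_zero]
    rw [this]
    simp
  · have hl := lam_pos hk
    have hsq : 0 < Real.sqrt (∑ j, (k j : ℝ) ^ 2) := by
      unfold lam at hl
      by_contra hcon
      have h0 : Real.sqrt (∑ j, (k j : ℝ) ^ 2) = 0 :=
        le_antisymm (not_lt.1 hcon) (Real.sqrt_nonneg _)
      rw [h0, mul_zero] at hl
      exact lt_irrefl _ hl
    have hsq' : ((Real.sqrt (∑ j, (k j : ℝ) ^ 2) : ℝ) : ℂ) ≠ 0 := by exact_mod_cast hsq.ne'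
    have hpi : (Real.pi : ℂ) ≠ 0 := by exact_mod_cast Real.pi_ne_zero
    unfold il lam
    push_cast
    field_simp

theorem hel_eq {v : V → V} (hv : ∀ i, SP (fun y => v y i)) (σ : ℝ) (i : Fin 3) (x : V) :
    hel σ v x i = hp σ (fun i y => v y i) i x := by
  have h := S_fr (hp_sp σ (v := fun i y => v y i) hv i) x
  unfold hel
  have e : (∑' k : K3, helC σ v k i * ee k x) = S (fr (hp σ (fun i y => v y i) i)) x := by
    unfold S
    exact tsum_congr fun k => by rw [helC_eq hv]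
  rw [e, h, Complex.ofReal_re]

/-- `f` is a square integrable function with `‖f g‖₂ ≤ b ‖g‖₂^(1-θ) ‖∇g‖₂^θ` for all smooth
periodic `g` with mean value `0`. -/
def Mulp (θ b : ℝ) (f : V → ℝ) : Prop :=
  MemLp f 2 (volume.restrict cube) ∧ ∀ g : V → ℝ, SP g → ∫ x in cube, g x = 0 →
    eLpNorm (fun x => f x * g x) 2 (volume.restrict cube)
      ≤ ENNReal.ofReal (b * (nrm g ^ (1 - θ) * grd g ^ θ))

theorem Mulp.int {θ b : ℝ} {f : V → ℝ} (h : Mulp θ b f) : IntegrableOn f cube := by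
  have : IsFiniteMeasure (volume.restrict cube) := cube_finite
  exact h.1.integrable (by norm_num)

theorem Mulp.mul {θ b : ℝ} (hb : 0 ≤ b) {s : V → ℝ} (h : Mulp θ b s) : Mul θ b s := by
  intro f g hf hg hg0
  have hn := nrm_nonneg f
  have hn' := Real.rpow_nonneg (nrm_nonneg g) (1 - θ)
  have hg' := Real.rpow_nonneg (grd_nonneg g) θ
  have h1 : ENNReal.ofReal |∫ x in cube, s x * (f x * g x)|
      ≤ ∫⁻ x in cube, ‖f x‖ₑ * ‖s x * g x‖ₑ := by
    have h2 := enorm_integral_le_lintegral_enorm (μ := volume.restrict cube)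
      (fun x => s x * (f x * g x))
    rw [← ofReal_norm, Real.norm_eq_abs] at h2
    refine h2.trans (le_of_eq ?_)
    refine lintegral_congr fun x => ?_
    rw [enorm_mul, enorm_mul, enorm_mul]
    ring
  have hm : AEStronglyMeasurable (fun x => s x * g x) (volume.restrict cube) :=
    h.1.1.mul hg.cont.aestronglyMeasurable
  have h2 := ENNReal.lintegral_mul_le_Lp_mul_Lq (volume.restrict cube)
    (Real.HolderConjugate.two_two) (f := fun x => ‖f x‖ₑ) (g := fun x => ‖s x * g x‖ₑ)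
    hf.cont.enorm.aemeasurable hm.enorm
  have h3 := h.2 g hg hg0
  have h4 := eLpNorm_two hf.cont
  rw [eLpNorm_eq_lintegral_rpow_enorm_toReal (by norm_num) (by norm_num)] at h3 h4
  have e1 : (2 : ℝ≥0∞).toReal = 2 := by norm_num
  rw [e1] at h3 h4
  have h5 : ENNReal.ofReal |∫ x in cube, s x * (f x * g x)|
      ≤ ENNReal.ofReal (nrm f * (b * (nrm g ^ (1 - θ) * grd g ^ θ))) := by
    refine h1.trans (h2.trans ?_)
    rw [ENNReal.ofReal_mul hn, h4]
    gcongr
  have h6 := (ENNReal.ofReal_le_ofReal_iff (by positivity)).1 h5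
  refine h6.trans (le_of_eq ?_)
  ring

theorem mul_mono' {θ b b' : ℝ} (hb : b ≤ b') {s : V → ℝ} (h : Mul θ b s) : Mul θ b' s := by
  intro f g hf hg hg0
  have hn := nrm_nonneg f
  have hn' := Real.rpow_nonneg (nrm_nonneg g) (1 - θ)
  have hg' := Real.rpow_nonneg (grd_nonneg g) θ
  refine (h f g hf hg hg0).trans ?_
  gcongr

/-- The hypothesis on the helical part at one time. -/
def Good (θ b b' : ℝ) (v : V → V) : Prop :=
  ∃ (σ : ℝ) (y w : V → V), (σ = 1 ∨ σ = -1) ∧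
    (∀ᵐ x ∂(volume.restrict cube), hel σ v x = y x + w x) ∧
    (∀ i, IntegrableOn (fun x => y x i) cube) ∧ (∀ i, IntegrableOn (fun x => w x i) cube) ∧
    (∀ i, Mul 1 b (fun x => y x i)) ∧ ∀ i, Mul θ b' (fun x => w x i)

theorem mul_zero' {θ b : ℝ} (hb : 0 ≤ b) : Mul θ b (fun _ => 0) := by
  intro f g _ _ _
  have hn := nrm_nonneg f
  have hn' := Real.rpow_nonneg (nrm_nonneg g) (1 - θ)
  have hg' := Real.rpow_nonneg (grd_nonneg g) θ
  simp only [zero_mul, integral_zero, abs_zero]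
  positivity

theorem mul_bdd {θ : ℝ} (hθ0 : 0 ≤ θ) {f : V → ℝ} (hf : SP f) :
    ∃ b, 0 ≤ b ∧ Mul θ b f := by
  obtain ⟨b, hb⟩ := (isCompact_Icc : IsCompact cube).exists_bound_of_continuousOn
    hf.cont.continuousOn
  have hb0 : 0 ≤ b := (norm_nonneg _).trans (hb 0 ⟨le_rfl, fun _ => zero_le_one⟩)
  refine ⟨b, hb0, fun g k hg hk hk0 => ?_⟩
  have hn := nrm_nonneg g
  have hn' := nrm_nonneg k
  have h3 : nrm (fun x => f x * k x) ≤ b * nrm k := by
    have h : nrm (fun x => f x * k x) ^ 2 ≤ (b * nrm k) ^ 2 := by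
      rw [nrm_sq, mul_pow, nrm_sq, ← integral_const_mul]
      refine setIntegral_mono_on (integrableOn_cube ((hf.cont.mul hk.cont).pow 2))
        (integrableOn_cube (continuous_const.mul (hk.cont.pow 2))) measurableSet_cube
        fun x hx => ?_
      rw [mul_pow, ← sq_abs (f x)]
      exact mul_le_mul_of_nonneg_right (pow_le_pow_left₀ (abs_nonneg _) (hb x hx) 2) (sq_nonneg _)
    exact (pow_le_pow_iff_left₀ (nrm_nonneg _) (mul_nonneg hb0 hn') (by norm_num)).1 h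
  have h2 : |∫ x in cube, f x * (g x * k x)| ≤ nrm g * nrm (fun x => f x * k x) := by
    have e : ∫ x in cube, f x * (g x * k x) = ∫ x in cube, g x * (f x * k x) := by
      congr 1
      funext x
      ring
    rw [e]
    exact abs_int_mul_le hg.cont (hf.mul hk).cont
  have h4 : nrm k ≤ nrm k ^ (1 - θ) * grd k ^ θ := by
    have h5 : nrm k ^ (1 - θ) * nrm k ^ θ = nrm k := by
      rcases eq_or_lt_of_le hn' with h0 | h0
      · rw [← h0]
        rcases eq_or_ne θ 0 with h1 | h1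
        · rw [h1]; simp
        · rw [Real.zero_rpow h1, mul_zero]
      · rw [← Real.rpow_add h0, sub_add_cancel, Real.rpow_one]
    calc nrm k = nrm k ^ (1 - θ) * nrm k ^ θ := h5.symm
      _ ≤ nrm k ^ (1 - θ) * grd k ^ θ := by
          have := Real.rpow_le_rpow hn' (poincare hk hk0) hθ0
          have := Real.rpow_nonneg hn' (1 - θ)
          gcongr
  calc |∫ x in cube, f x * (g x * k x)| ≤ nrm g * (b * nrm k) :=
        h2.trans (mul_le_mul_of_nonneg_left h3 hn)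
    _ = b * (nrm g * nrm k) := by ring
    _ ≤ b * (nrm g * (nrm k ^ (1 - θ) * grd k ^ θ)) := by gcongr

theorem good_self {θ b : ℝ} (hθ0 : 0 ≤ θ) (hb : 0 ≤ b) {v : V → V}
    (hv : ∀ i, SP (fun y => v y i)) : ∃ b', 0 ≤ b' ∧ Good θ b b' v := by
  have e : ∀ i, (fun x => hel 1 v x i) = hp 1 (fun i y => v y i) i := fun i => by
    funext x
    exact hel_eq hv 1 i x
  have hsp : ∀ i, SP (fun x => hel 1 v x i) := fun i => by
    rw [e i]
    exact hp_sp 1 hv i
  choose b' hb' hm using fun i => mul_bdd hθ0 (hsp i)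
  refine ⟨∑ i, b' i, Finset.sum_nonneg fun i _ => hb' i, 1, fun _ => 0, hel 1 v, Or.inl rfl, ?_,
    fun i => ?_, fun i => (hsp i).int, fun i => mul_zero' hb, fun i => ?_⟩
  · exact ae_of_all _ fun x => (zero_add _).symm
  · exact integrableOn_zero
  · exact mul_mono' (Finset.single_le_sum (f := b') (fun i _ => hb' i) (Finset.mem_univ i)) (hm i)

/-- The criterion in terms of multipliers. -/
theorem main0 : ∃ c : ℝ, 0 < c ∧ ∀ θ : ℝ, 0 ≤ θ → θ < 1 → ∀ ν : ℝ, 0 < ν → ∃ C : ℝ, 0 ≤ C ∧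
    ∀ (T : ℝ) (u : ℝ → V → V) (P : ℝ → V → ℝ) (β : ℝ → ℝ),
      IsSol ν T u P → (∀ t ∈ Ioo 0 T, 0 ≤ β t) →
      IntegrableOn (fun t => β t ^ (2 / (1 - θ))) (Ioo 0 T) →
      (∀ᵐ t ∂(volume.restrict (Ioo 0 T)), Good θ (c * ν) (β t) (u t)) →
      (∀ t ∈ Ico 0 T, half (u t)
        ≤ half (u 0) * Real.exp (C * ∫ s in Ioo 0 t, β s ^ (2 / (1 - θ)))) ∧
      ∃ M, ∀ t ∈ Ico 0 T, ∀ x i, |u t x i| ≤ M := by
  obtain ⟨K, hK, hst⟩ := static
  set c : ℝ := 1 / (4 * (K + 1)) with hc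
  have hc0 : 0 < c := by positivity
  have hcK : K * c ≤ 1 / 4 := by
    rw [hc, mul_one_div, div_le_div_iff₀ (by positivity) (by norm_num)]
    nlinarith
  refine ⟨c, hc0, fun θ hθ0 hθ1 ν hν => ?_⟩
  obtain ⟨C0, hC0, hineq⟩ := hst θ hθ0 hθ1 (ν / 4) (by positivity)
  set C := 2 * C0 with hC
  have hC' : 0 ≤ C := by positivity
  refine ⟨C, hC', fun T u P β h hβ0 hβi hu => ?_⟩
  set q := 2 / (1 - θ) with hq
  -- the inequality at the times where the decomposition exists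
  have hd0 : ∀ t ∈ Ioo 0 T, ∀ b : ℝ, 0 ≤ b → Good θ (c * ν) b (u t) →
      -(2 * ν * Dt u t) - 2 * Wt u t ≤ -(ν * Dt u t) + (C * b ^ q) * Et u t := by
    rintro t ht b hb ⟨σ, y, w, hσ, he, hyi, hwi, hy, hw⟩
    have hI : t ∈ Ico 0 T := ⟨ht.1.le, ht.2⟩
    have hs : σ * σ = 1 := by
      rcases hσ with h1 | h1
      · rw [h1]; norm_num
      · rw [h1]; norm_num
    have he' : ∀ i, ∀ᵐ x ∂(volume.restrict cube),
        hp σ (fun i y => u t y i) i x = y x i + w x i := by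
      intro i
      filter_upwards [he] with x hx
      rw [← hel_eq (fun i => h.sp hI i), hx]
      rfl
    have h1 := hineq (fun i y => u t y i) (fun i x => y x i) (fun i x => w x i) σ (c * ν) b
      (fun i => h.sp hI i) (h.divfree t hI) hs (by positivity) hb
      fun i => ⟨hyi i, hwi i, he' i, hy i, hw i⟩
    have h2 : |Wt u t| ≤ (K * (c * ν) + ν / 4) * Dt u t + C0 * (b ^ q * Et u t) := h1
    have h3 : K * (c * ν) + ν / 4 ≤ ν / 2 := by
      have : K * (c * ν) = (K * c) * ν := by ring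
      rw [this]
      have := mul_le_mul_of_nonneg_right hcK hν.le
      linarith
    have h4 := mul_le_mul_of_nonneg_right h3 (Dt_nonneg u t)
    have h5 := neg_abs_le (Wt u t)
    have h6 : (C * b ^ q) * Et u t = 2 * (C0 * (b ^ q * Et u t)) := by
      rw [hC]; ring
    rw [h6]
    linarith
  -- the exceptional times
  classical
  have hex : ∀ t, ∃ b, t ∈ Ioo 0 T → 0 ≤ b ∧ Good θ (c * ν) b (u t) := by
    intro t
    by_cases ht : t ∈ Ioo 0 T
    · obtain ⟨b, hb⟩ := good_self (v := u t) hθ0 (by positivity : 0 ≤ c * ν)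
        fun i => h.sp ⟨ht.1.le, ht.2⟩ i
      exact ⟨b, fun _ => hb⟩
    · exact ⟨0, fun h => absurd h ht⟩
  choose b hb using hex
  set β' : ℝ → ℝ := fun t => if Good θ (c * ν) (β t) (u t) then β t else b t with hβ'
  have hβ'0 : ∀ t ∈ Ioo 0 T, 0 ≤ β' t := by
    intro t ht
    simp only [hβ']
    split_ifs
    · exact hβ0 t ht
    · exact (hb t ht).1
  have hae : (fun t => C * β' t ^ q) =ᵐ[volume.restrict (Ioo 0 T)] fun t => C * β t ^ q := by
    filter_upwards [hu] with t ht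
    simp only [hβ', if_pos ht]
  have hg0 : ∀ t ∈ Ioo 0 T, 0 ≤ C * β' t ^ q := fun t ht =>
    mul_nonneg hC' (Real.rpow_nonneg (hβ'0 t ht) q)
  have hgi : IntegrableOn (fun t => C * β' t ^ q) (Ioo 0 T) :=
    (integrable_congr hae).2 (hβi.const_mul C)
  have hd : ∀ t ∈ Ioo 0 T, -(2 * ν * Dt u t) - 2 * Wt u t
      ≤ -(ν * Dt u t) + (C * β' t ^ q) * Et u t := by
    intro t ht
    refine hd0 t ht (β' t) (hβ'0 t ht) ?_
    simp only [hβ']
    split_ifs with hg
    · exact hg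
    · exact (hb t ht).2
  refine ⟨fun t ht => ?_, bounded_of_key h hν hg0 hgi hd⟩
  have hT : 0 < T := ht.1.trans_lt ht.2
  have h1 := Et_bound0 h hν hg0 hgi hd ht
  have h2 : ∫ s in Ioo 0 t, C * β' s ^ q = C * ∫ s in Ioo 0 t, β s ^ q := by
    rw [← integral_const_mul]
    exact integral_congr_ae (ae_mono (Measure.restrict_mono (Ioo_subset_Ioo_right ht.2.le) le_rfl) hae)
  rw [h2] at h1
  rw [half_eq fun i => h.sp ht i, half_eq fun i => h.sp ⟨le_rfl, hT⟩ i]
  exact h1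

/-- The criterion in terms of Lebesgue norms. -/
theorem main : ∃ c : ℝ, 0 < c ∧ ∀ p : ℝ≥0∞, 3 < p → ∀ q : ℝ, 3 * (p⁻¹).toReal + 2 / q = 1 →
    ∀ ν : ℝ, 0 < ν → ∃ C : ℝ, 0 ≤ C ∧ ∀ (T : ℝ) (u : ℝ → V → V) (P : ℝ → V → ℝ) (β : ℝ → ℝ),
      IsSol ν T u P → (∀ t ∈ Ioo 0 T, 0 ≤ β t) → IntegrableOn (fun t => β t ^ q) (Ioo 0 T) →
      (∀ᵐ t ∂(volume.restrict (Ioo 0 T)), ∃ (σ : ℝ) (y w : V → V), (σ = 1 ∨ σ = -1) ∧
        AEStronglyMeasurable y (volume.restrict cube) ∧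
        AEStronglyMeasurable w (volume.restrict cube) ∧
        (∀ᵐ x ∂(volume.restrict cube), hel σ (u t) x = y x + w x) ∧
        (∀ i, eLpNorm (fun x => y x i) 3 (volume.restrict cube) ≤ ENNReal.ofReal (c * ν)) ∧
        ∀ i, eLpNorm (fun x => w x i) p (volume.restrict cube) ≤ ENNReal.ofReal (β t)) →
      (∀ t ∈ Ico 0 T, half (u t) ≤ half (u 0) * Real.exp (C * ∫ s in Ioo 0 t, β s ^ q)) ∧
      ∃ M, ∀ t ∈ Ico 0 T, ∀ x i, |u t x i| ≤ M := by
  obtain ⟨c0, hc00, hmain⟩ := main0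
  obtain ⟨C3, hC3, hm3⟩ := mul_of_Lp' (p := 3) le_rfl
  rw [th_three] at hm3
  refine ⟨c0 / (C3 + 1), by positivity, fun p hp3 q hpq ν hν => ?_⟩
  set c := c0 / (C3 + 1) with hc
  have hc0 : 0 < c := by positivity
  have hcle : C3 * (c * ν) ≤ c0 * ν := by
    have h1 : C3 * c ≤ c0 := by
      rw [hc, mul_div_assoc', div_le_iff₀ (by positivity)]
      nlinarith
    calc C3 * (c * ν) = (C3 * c) * ν := by ring
      _ ≤ c0 * ν := by gcongr
  set θ := th p with hθ
  have hθ0 : 0 ≤ θ := th_nonneg p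
  have hθ1 : θ < 1 := th_lt_one hp3
  have hq : q = 2 / (1 - θ) := by
    have h1 : 2 / q = 1 - θ := by
      have : θ = 3 * (p⁻¹).toReal := rfl
      rw [this]
      linarith
    rw [← h1]
    have : q ≠ 0 := by
      intro h0
      rw [h0, div_zero] at h1
      linarith
    field_simp
  obtain ⟨Cp, hCp, hmp⟩ := mul_of_Lp' (p := p) hp3.le
  obtain ⟨C0, hC0, hM⟩ := hmain θ hθ0 hθ1 ν hν
  rw [← hq] at hM
  refine ⟨C0 * Cp ^ q, by positivity, fun T u P β h hβ0 hβi hu => ?_⟩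
  have hpow : ∀ t ∈ Ioo 0 T, (Cp * β t) ^ q = Cp ^ q * β t ^ q := fun t ht =>
    Real.mul_rpow hCp (hβ0 t ht)
  have hint : IntegrableOn (fun t => (Cp * β t) ^ q) (Ioo 0 T) :=
    (integrableOn_congr_fun hpow measurableSet_Ioo).2 (hβi.const_mul _)
  obtain ⟨h1, h2⟩ := hM T u P (fun t => Cp * β t) h (fun t ht => mul_nonneg hCp (hβ0 t ht)) hint
    (by
      filter_upwards [hu, ae_restrict_mem measurableSet_Ioo] with t ht htI
      obtain ⟨σ, y, w, hσ, hym, hwm, he, hy, hw⟩ := ht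
      have hym' : ∀ i, AEStronglyMeasurable (fun x => y x i) (volume.restrict cube) := fun i =>
        (continuous_apply i).comp_aestronglyMeasurable hym
      have hwm' : ∀ i, AEStronglyMeasurable (fun x => w x i) (volume.restrict cube) := fun i =>
        (continuous_apply i).comp_aestronglyMeasurable hwm
      exact ⟨σ, y, w, hσ, he, fun i => int_of_Lp le_rfl (hym' i) (hy i),
        fun i => int_of_Lp hp3.le (hwm' i) (hw i),
        fun i => mul_mono' hcle (hm3 _ _ (hym' i) (by positivity) (hy i)),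
        fun i => hmp _ _ (hwm' i) (hβ0 t htI) (hw i)⟩)
  refine ⟨fun t ht => ?_, h2⟩
  have h3 := h1 t ht
  have h4 : ∫ s in Ioo 0 t, (Cp * β s) ^ q = Cp ^ q * ∫ s in Ioo 0 t, β s ^ q := by
    rw [← integral_const_mul]
    exact setIntegral_congr_fun measurableSet_Ioo fun s hs => hpow s ⟨hs.1, hs.2.trans ht.2⟩
  rw [h4, ← mul_assoc] at h3
  exact h3

/-- The criterion in terms of multiplier norms. -/
theorem mainM : ∃ c : ℝ, 0 < c ∧ ∀ θ : ℝ, 0 ≤ θ → θ < 1 → ∀ ν : ℝ, 0 < ν → ∃ C : ℝ, 0 ≤ C ∧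
    ∀ (T : ℝ) (u : ℝ → V → V) (P : ℝ → V → ℝ) (β : ℝ → ℝ),
      IsSol ν T u P → (∀ t ∈ Ioo 0 T, 0 ≤ β t) →
      IntegrableOn (fun t => β t ^ (2 / (1 - θ))) (Ioo 0 T) →
      (∀ᵐ t ∂(volume.restrict (Ioo 0 T)), ∃ (σ : ℝ) (y w : V → V), (σ = 1 ∨ σ = -1) ∧
        (∀ᵐ x ∂(volume.restrict cube), hel σ (u t) x = y x + w x) ∧
        (∀ i, Mulp 1 (c * ν) (fun x => y x i)) ∧ ∀ i, Mulp θ (β t) (fun x => w x i)) →
      (∀ t ∈ Ico 0 T, half (u t)
        ≤ half (u 0) * Real.exp (C * ∫ s in Ioo 0 t, β s ^ (2 / (1 - θ)))) ∧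
      ∃ M, ∀ t ∈ Ico 0 T, ∀ x i, |u t x i| ≤ M := by
  obtain ⟨c, hc0, hmain⟩ := main0
  refine ⟨c, hc0, fun θ hθ0 hθ1 ν hν => ?_⟩
  obtain ⟨C, hC, hM⟩ := hmain θ hθ0 hθ1 ν hν
  refine ⟨C, hC, fun T u P β h hβ0 hβi hu => hM T u P β h hβ0 hβi ?_⟩
  filter_upwards [hu, ae_restrict_mem measurableSet_Ioo] with t ht htI
  obtain ⟨σ, y, w, hσ, he, hy, hw⟩ := ht
  exact ⟨σ, y, w, hσ, he, fun i => (hy i).int, fun i => (hw i).int,
    fun i => (hy i).mul (by positivity), fun i => (hw i).mul (hβ0 t htI)⟩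

end Pool.Agent.U583.HC
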