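import Pool.Agent.U583.HC.Dyad2

set_option autoImplicit false

/-!
The bound of the nonlinear term by the controlled helical part.
-/

open MeasureTheory Set Filter Topology
open scoped ContDiff ComplexConjugate RealInnerProductSpace ENNReal

namespace Pool.Agent.U583.HC

open H459R3.NS Pool.Agent.Q63.Win

/-- `z` is the sum of a multiplier of order one and a multiplier of order `θ` -/
structure Split (θ β₁ β₂ : ℝ) (z y w : V → ℝ) : Prop where
  iy : IntegrableOn y cube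
  iw : IntegrableOn w cube
  eq : ∀ᵐ x ∂(volume.restrict cube), z x = y x + w x
  my : Mul 1 β₁ y
  mw : Mul θ β₂ w

theorem Split.int {θ β₁ β₂ : ℝ} {z y w : V → ℝ} (h : Split θ β₁ β₂ z y w) {F : V → ℝ} (hF : SP F) :
    ∫ x in cube, z x * F x = (∫ x in cube, y x * F x) + ∫ x in cube, w x * F x := by
  rw [← integral_add (int_bdd h.iy hF) (int_bdd h.iw hF)]
  refine integral_congr_ae ?_
  filter_upwards [h.eq] with x hx
  rw [hx]
  ring

theorem loc_bd : ∃ K : ℝ, 0 ≤ K ∧ ∀ θ : ℝ, 0 ≤ θ → θ < 1 → ∀ ε : ℝ, 0 < ε → ∃ C : ℝ, 0 ≤ C ∧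
    ∀ (β₁ β₂ : ℝ) (z y w : V → ℝ), 0 ≤ β₁ → 0 ≤ β₂ → Split θ β₁ β₂ z y w →
      ∀ f g : V → ℝ, SP f → SP g → fr f 0 = 0 → fr g 0 = 0 →
        |∫ x in cube, z x * (f x * g x)| ≤ (K * β₁ + ε) * (WS lam f + WS lam g)
          + C * (β₂ ^ (2 / (1 - θ)) * (WS il f + WS il g)) := by
  obtain ⟨K, hK, h1⟩ := dyad_one
  refine ⟨K, hK, fun θ hθ0 hθ1 ε hε => ?_⟩
  obtain ⟨C, hC, h2⟩ := dyad_lt hθ0 hθ1 hε
  refine ⟨C, hC, fun β₁ β₂ z y w hβ₁ hβ₂ hz f g hf hg hf0 hg0 => ?_⟩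
  rw [hz.int (hf.mul hg)]
  have e1 := h1 y β₁ hz.iy hβ₁ hz.my f g hf hg hf0 hg0
  have e2 := h2 w β₂ hz.iw hβ₂ hz.mw f g hf hg hf0 hg0
  refine (abs_add_le _ _).trans ((add_le_add e1 e2).trans (le_of_eq ?_))
  ring

theorem mean_del {f : V → ℝ} (hf : SP f) (h : E3) : ∫ x in cube, del h f x = 0 := by
  apply mean_fr
  have h0 : ee 0 (sh h) = 1 := by
    unfold ee ph
    simp
  rw [fr_del hf, h0, sub_self, zero_mul]

theorem nrm_del_pd_le {f : V → ℝ} (hf : SP f) (h : E3) (j : Fin 3) :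
    nrm (del h (pd j f)) ≤ grd (del h f) := by
  refine abs_le_of_sq_le_sq' ?_ (grd_nonneg _) |>.2
  rw [grd_del hf]
  exact Finset.single_le_sum (f := fun j => nrm (del h (pd j f)) ^ 2) (fun _ _ => sq_nonneg _)
    (Finset.mem_univ j)

theorem gam_bd {θ : ℝ} (hθ0 : 0 ≤ θ) (hθ1 : θ < 1) {ε : ℝ} (hε : 0 < ε) : ∃ C : ℝ, 0 ≤ C ∧
    ∀ (β₁ β₂ : ℝ) (z y w : V → ℝ), 0 ≤ β₁ → 0 ≤ β₂ → Split θ β₁ β₂ z y w → SP z →
      ∀ f g : V → ℝ, SP f → SP g → ∀ j,
        |∫ x in cube, z x * Gam f (pd j g) x| ≤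
          (β₁ + ε) * (WS (fun k => lam k ^ 3) f + WS (fun k => lam k ^ 3) g)
            + C * (β₂ ^ (2 / (1 - θ)) * WS lam f) := by
  obtain ⟨D, hD0, hD⟩ := young (c := 1) hθ0 hθ1 hε zero_le_one
  have hpi := Real.pi_pos
  have hkap := kap_pos
  refine ⟨2 * D, by positivity, fun β₁ β₂ z y w hβ₁ hβ₂ hz hzs f g hf hg j => ?_⟩
  set B := β₂ ^ (2 / (1 - θ)) with hB
  have hB0 : 0 ≤ B := Real.rpow_nonneg hβ₂ _
  have hrep := Gam_rep hf (hg.pd j) hzs
  obtain ⟨i1, v1⟩ := int_grd_del hf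
  obtain ⟨i2, v2⟩ := int_grd_del hg
  obtain ⟨i3, v3⟩ := int_nrm_del hf
  have hpt : ∀ h, ‖wt h * ∫ x in cube, z x * (del h f x * del h (pd j g) x)‖
      ≤ (β₁ + ε) / 2 * (wt h * grd (del h f) ^ 2 + wt h * grd (del h g) ^ 2)
        + D * B * (wt h * nrm (del h f) ^ 2) := by
    intro h
    have hdf := del_sp hf h
    have hdg := del_sp (hg.pd j) h
    have hw := wt_nonneg h
    rw [norm_mul, Real.norm_eq_abs, Real.norm_eq_abs, abs_of_nonneg hw]
    have e : ∫ x in cube, z x * (del h f x * del h (pd j g) x)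
        = ∫ x in cube, z x * (del h (pd j g) x * del h f x) := by
      congr 1
      funext x
      ring
    rw [e, hz.int (hdg.mul hdf)]
    have m1 := hz.my _ _ hdg hdf (mean_del hf h)
    have m2 := hz.mw _ _ hdg hdf (mean_del hf h)
    rw [sub_self, Real.rpow_zero, Real.rpow_one, one_mul] at m1
    have n1 := nrm_nonneg (del h f)
    have n2 := grd_nonneg (del h f)
    have n3 := grd_nonneg (del h g)
    have n4 := nrm_nonneg (del h (pd j g))
    have n5 := nrm_del_pd_le hg h j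
    have m1' : |∫ x in cube, y x * (del h (pd j g) x * del h f x)|
        ≤ β₁ / 2 * (grd (del h f) ^ 2 + grd (del h g) ^ 2) := by
      refine m1.trans ?_
      have h1 : nrm (del h (pd j g)) * grd (del h f)
          ≤ (grd (del h f) ^ 2 + grd (del h g) ^ 2) / 2 := by
        have := mul_le_mul_of_nonneg_right n5 n2
        nlinarith [sq_nonneg (grd (del h f) - grd (del h g))]
      have := mul_le_mul_of_nonneg_left h1 hβ₁
      linarith
    have m2' : |∫ x in cube, w x * (del h (pd j g) x * del h f x)|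
        ≤ ε / 2 * (grd (del h f) ^ 2 + grd (del h g) ^ 2) + D * (B * nrm (del h f) ^ 2) := by
      refine m2.trans ?_
      set H := max (grd (del h f)) (grd (del h g)) with hH
      have hy := hD β₂ (nrm (del h f)) H hβ₂ n1 (le_max_of_le_left n2)
      have h3 := sq_bd (grd (del h f)) (grd (del h g))
      have a1 : nrm (del h (pd j g)) ≤ H := n5.trans (le_max_right _ _)
      have a2 : grd (del h f) ^ θ ≤ H ^ θ := Real.rpow_le_rpow n2 (le_max_left _ _) hθ0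
      have a3 : 0 ≤ nrm (del h f) ^ (1 - θ) := Real.rpow_nonneg n1 _
      have a4 : 0 ≤ grd (del h f) ^ θ := Real.rpow_nonneg n2 _
      have a5 : 0 ≤ H := n4.trans a1
      calc β₂ * (nrm (del h (pd j g)) * (nrm (del h f) ^ (1 - θ) * grd (del h f) ^ θ))
          ≤ β₂ * (H * (nrm (del h f) ^ (1 - θ) * H ^ θ)) := by gcongr
        _ = 1 * (β₂ * (nrm (del h f) ^ (1 - θ) * H ^ θ * H)) := by ring
        _ ≤ _ := hy
        _ ≤ _ := by
            have := mul_le_mul_of_nonneg_left h3 (by positivity : 0 ≤ ε / 2)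
            linarith
    have m3 := (abs_add_le _ _).trans (add_le_add m1' m2')
    have m4 := mul_le_mul_of_nonneg_left m3 hw
    refine m4.trans (le_of_eq ?_)
    ring
  have hint : Integrable fun h => (β₁ + ε) / 2 * (wt h * grd (del h f) ^ 2 + wt h * grd (del h g) ^ 2)
        + D * B * (wt h * nrm (del h f) ^ 2) :=
    ((i1.add i2).const_mul _).add (i3.const_mul _)
  have hmain := norm_integral_le_of_norm_le hint (ae_of_all _ hpt)
  have i12 : Integrable fun h => (β₁ + ε) / 2 * (wt h * grd (del h f) ^ 2 + wt h * grd (del h g) ^ 2) :=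
    (i1.add i2).const_mul _
  rw [← hrep, integral_add i12 (i3.const_mul _), integral_const_mul, integral_const_mul,
    integral_add i1 i2, v1, v2, v3, norm_mul, Real.norm_eq_abs, Real.norm_eq_abs,
    abs_of_nonneg (by positivity : 0 ≤ kap / (2 * Real.pi))] at hmain
  have hk : 0 < kap / (2 * Real.pi) := by positivity
  refine le_of_mul_le_mul_left (hmain.trans (le_of_eq ?_)) hk
  field_simp

/-! ### the helical parts are controlled by the field -/

theorem nz_sq (k : K3) : nz k ^ 2 ≤ 1 := by unfold nz; split_ifs <;> norm_num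

theorem normSq_sub_le (a b : ℝ) (x y : ℂ) :
    ‖(a : ℂ) * x - b * y‖ ^ 2 ≤ (a ^ 2 + b ^ 2) * (‖x‖ ^ 2 + ‖y‖ ^ 2) := by
  have h1 : ‖(a : ℂ) * x - b * y‖ ≤ |a| * ‖x‖ + |b| * ‖y‖ := by
    refine (norm_sub_le _ _).trans ?_
    rw [norm_mul, norm_mul, Complex.norm_real, Complex.norm_real, Real.norm_eq_abs,
      Real.norm_eq_abs]
  have h2 := pow_le_pow_left₀ (norm_nonneg _) h1 2
  refine h2.trans ?_
  nlinarith [sq_nonneg (|a| * ‖y‖ - |b| * ‖x‖), sq_abs a, sq_abs b]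

theorem k_le (k : K3) (i : Fin 3) :
    4 * Real.pi ^ 2 * ((k (i + 1) : ℝ) ^ 2 + (k (i + 2) : ℝ) ^ 2) ≤ lam k ^ 2 := by
  rw [lam_sq, Fin.sum_univ_three]
  have := Real.pi_pos
  refine mul_le_mul_of_nonneg_left ?_ (by positivity)
  have h0 := sq_nonneg (k 0 : ℝ)
  have h1 := sq_nonneg (k 1 : ℝ)
  have h2 := sq_nonneg (k 2 : ℝ)
  fin_cases i
  all_goals
    simp only [Fin.zero_eta, Fin.mk_one, Fin.reduceFinMk, Fin.isValue, Fin.reduceAdd, zero_add]
    linarith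

theorem sum_ge (t : Fin 3 → ℝ) (i : Fin 3) : t (i + 1) + t (i + 2) = (∑ j, t j) - t i := by
  rw [Fin.sum_univ_three]
  fin_cases i
  all_goals
    simp only [Fin.zero_eta, Fin.mk_one, Fin.reduceFinMk, Fin.isValue, Fin.reduceAdd, zero_add]
    ring

theorem fr_hp_le {s : ℝ} (hs : s * s = 1) {v : Fin 3 → V → ℝ} (hv : ∀ i, SP (v i)) (i : Fin 3)
    (k : K3) : ‖fr (hp s v i) k‖ ^ 2 ≤ ∑ j, ‖fr (v j) k‖ ^ 2 := by
  rw [fr_hp s hv, fr_crl hv]
  have hpi := Real.pi_pos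
  have hil := il_nonneg k
  have hl := lam_nonneg k
  have h1 : ‖(nz k : ℂ) * fr (v i) k‖ ^ 2 ≤ ‖fr (v i) k‖ ^ 2 := by
    rw [norm_mul, mul_pow, Complex.norm_real, Real.norm_eq_abs, sq_abs]
    exact mul_le_of_le_one_left (sq_nonneg _) (nz_sq k)
  have h2 : ‖(s : ℂ) * ((il k : ℂ) * (2 * Real.pi * Complex.I *
      ((k (i + 1) : ℂ) * fr (v (i + 2)) k - (k (i + 2) : ℂ) * fr (v (i + 1)) k)))‖ ^ 2
      ≤ ‖fr (v (i + 1)) k‖ ^ 2 + ‖fr (v (i + 2)) k‖ ^ 2 := by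
    have h3 := normSq_sub_le (k (i + 1) : ℝ) (k (i + 2) : ℝ) (fr (v (i + 2)) k) (fr (v (i + 1)) k)
    push_cast at h3
    have h4 : ‖(s : ℂ)‖ ^ 2 = 1 := by
      rw [Complex.norm_real, Real.norm_eq_abs, sq_abs, sq, hs]
    rw [norm_mul, mul_pow, h4, one_mul, norm_mul, mul_pow, Complex.norm_real, Real.norm_eq_abs,
      sq_abs, norm_mul, norm_mul, norm_mul, Complex.norm_I, Complex.norm_real, Real.norm_eq_abs,
      abs_of_pos hpi, Complex.norm_ofNat, mul_pow]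
    have h5 := k_le k i
    have h6 : lam k ^ 2 * il k ^ 2 ≤ 1 := by
      rw [← mul_pow, lam_il]
      exact nz_sq k
    set S := ‖fr (v (i + 1)) k‖ ^ 2 + ‖fr (v (i + 2)) k‖ ^ 2 with hS
    have hS0 : 0 ≤ S := by positivity
    calc il k ^ 2 * ((2 * Real.pi * 1) ^ 2 *
          ‖(k (i + 1) : ℂ) * fr (v (i + 2)) k - (k (i + 2) : ℂ) * fr (v (i + 1)) k‖ ^ 2)
        ≤ il k ^ 2 * ((2 * Real.pi * 1) ^ 2 *
          (((k (i + 1) : ℝ) ^ 2 + (k (i + 2) : ℝ) ^ 2) * S)) := by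
          gcongr
          rw [hS]
          linarith
      _ = il k ^ 2 * ((4 * Real.pi ^ 2 * ((k (i + 1) : ℝ) ^ 2 + (k (i + 2) : ℝ) ^ 2)) * S) := by
          ring
      _ ≤ il k ^ 2 * (lam k ^ 2 * S) := by gcongr
      _ = (lam k ^ 2 * il k ^ 2) * S := by ring
      _ ≤ 1 * S := by gcongr
      _ = S := one_mul S
  set X := (nz k : ℂ) * fr (v i) k with hX
  set Y := (s : ℂ) * ((il k : ℂ) * (2 * Real.pi * Complex.I *
      ((k (i + 1) : ℂ) * fr (v (i + 2)) k - (k (i + 2) : ℂ) * fr (v (i + 1)) k))) with hY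
  have h7 : ‖(1 / 2 : ℂ) * (X + Y)‖ ^ 2 ≤ ‖X‖ ^ 2 + ‖Y‖ ^ 2 := by
    rw [norm_mul, mul_pow]
    have h8 : ‖(1 / 2 : ℂ)‖ = 1 / 2 := by
      rw [norm_div, norm_one, Complex.norm_ofNat]
    rw [h8]
    have h9 := pow_le_pow_left₀ (norm_nonneg _) (norm_add_le X Y) 2
    nlinarith [sq_nonneg (‖X‖ - ‖Y‖), sq_nonneg ‖X‖, sq_nonneg ‖Y‖]
  have h10 := sum_ge (fun j => ‖fr (v j) k‖ ^ 2) i
  linarith

theorem WS_hp_le {φ : K3 → ℝ} (hφ0 : ∀ k, 0 ≤ φ k) (hφ : Pol φ) {s : ℝ} (hs : s * s = 1)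
    {v : Fin 3 → V → ℝ} (hv : ∀ i, SP (v i)) (i : Fin 3) :
    WS φ (hp s v i) ≤ ∑ j, WS φ (v j) := by
  unfold WS
  rw [← Summable.tsum_finsetSum fun j _ => WS_summable hφ (hv j)]
  refine (WS_summable hφ (hp_sp s hv i)).tsum_le_tsum (fun k => ?_)
    (summable_sum fun j _ => WS_summable hφ (hv j))
  rw [← Finset.mul_sum]
  exact mul_le_mul_of_nonneg_left (fr_hp_le hs hv i k) (hφ0 k)

/-! ### weights of derivatives -/

theorem fr_hp_zero {s : ℝ} {v : Fin 3 → V → ℝ} (hv : ∀ i, SP (v i)) (i : Fin 3) :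
    fr (hp s v i) 0 = 0 := by
  rw [fr_hp s hv]
  have h1 : nz 0 = 0 := by unfold nz; simp
  have h2 : il 0 = 0 := by unfold il; rw [lam_zero, inv_zero]
  rw [h1, h2]
  simp

theorem fr_Lam_zero {f : V → ℝ} (hf : SP f) : fr (Lam f) 0 = 0 := by
  rw [fr_Lam hf, lam_zero]
  simp

theorem fr_pd_zero {f : V → ℝ} (hf : SP f) (j : Fin 3) : fr (pd j f) 0 = 0 := by
  rw [fr_pd hf, D]
  simp

theorem il_lam_sq (k : K3) : il k * lam k ^ 2 = lam k := by
  rw [sq, ← mul_assoc, mul_comm (il k), lam_il]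
  unfold nz
  split_ifs with h
  · rw [h, lam_zero]; ring
  · ring

theorem WS_lam_Lam {f : V → ℝ} (hf : SP f) : WS lam (Lam f) = WS (fun k => lam k ^ 3) f := by
  unfold Lam
  rw [WS_Mlt sym_lam hf]
  congr 1
  funext k
  ring

theorem WS_il_Lam {f : V → ℝ} (hf : SP f) : WS il (Lam f) = WS lam f := by
  unfold Lam
  rw [WS_Mlt sym_lam hf]
  congr 1
  funext k
  exact il_lam_sq k

theorem WS_lam_pd {f : V → ℝ} (hf : SP f) (j : Fin 3) :
    WS lam (pd j f) ≤ WS (fun k => lam k ^ 3) f := by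
  refine (WS_pd_le lam_nonneg pol_lam hf j).trans (le_of_eq ?_)
  congr 1
  funext k
  ring

theorem WS_il_pd {f : V → ℝ} (hf : SP f) (j : Fin 3) : WS il (pd j f) ≤ WS lam f := by
  refine (WS_pd_le il_nonneg sym_il.pol hf j).trans (le_of_eq ?_)
  congr 1
  funext k
  exact il_lam_sq k

end Pool.Agent.U583.HC
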