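import Pool.Agent.U583.HC.Bnd

set_option autoImplicit false

/-!
The static inequality.
-/

open MeasureTheory Set Filter Topology
open scoped ContDiff ComplexConjugate RealInnerProductSpace ENNReal

namespace Pool.Agent.U583.HC

open H459R3.NS Pool.Agent.Q63.Win

theorem fr_const (c : ℝ) (k : K3) : fr (fun _ => c) k = if k = 0 then (c : ℂ) else 0 := by
  unfold fr fc
  rw [integral_mul_const, integral_ee]
  by_cases h : k = 0
  · simp [h]
  · simp [h]

theorem eq_mean_add {f : V → ℝ} (hf : SP f) (x : V) :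
    f x = (∫ y in cube, f y) + Mlt nz f x := by
  have h : f = fun x => (∫ y in cube, f y) + Mlt nz f x := by
    refine SP.ext hf ((SP.const _).add (Mlt_sp sym_nz hf)) ?_
    funext k
    rw [fr_add (SP.const _) (Mlt_sp sym_nz hf), fr_const, fr_Mlt sym_nz hf]
    unfold nz
    split_ifs with hk
    · rw [hk]
      unfold fr fc
      simp_rw [neg_zero, ee_zero, one_mul]
      rw [integral_complex_ofReal]
      simp
    · simp
  exact congrFun h x

theorem pd_nz {f : V → ℝ} (hf : SP f) (j : Fin 3) : pd j (Mlt nz f) = pd j f := by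
  refine SP.ext ((Mlt_sp sym_nz hf).pd j) (hf.pd j) ?_
  funext k
  rw [fr_pd (Mlt_sp sym_nz hf), fr_pd hf, D, D, fr_Mlt sym_nz hf]
  unfold nz
  split_ifs with hk
  · rw [hk]; simp
  · simp

theorem Lam_nz {f : V → ℝ} (hf : SP f) : Lam (Mlt nz f) = Lam f := by
  refine SP.ext (Lam_sp (Mlt_sp sym_nz hf)) (Lam_sp hf) ?_
  funext k
  rw [fr_Lam (Mlt_sp sym_nz hf), fr_Lam hf, fr_Mlt sym_nz hf]
  unfold nz
  split_ifs with hk
  · rw [hk, lam_zero]; simp
  · simp

theorem int_pd_Lam {f : V → ℝ} (hf : SP f) (j : Fin 3) : ∫ x in cube, pd j f x * Lam f x = 0 := by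
  have h1 := ibp hf (Lam_sp hf) j
  rw [pd_Lam hf, ← Lam_self hf (hf.pd j)] at h1
  have e : ∫ x in cube, Lam f x * pd j f x = ∫ x in cube, pd j f x * Lam f x := by
    congr 1
    funext x
    ring
  rw [e] at h1
  linarith

theorem conv_nz {v : Fin 3 → V → ℝ} (hv : ∀ i, SP (v i)) (i : Fin 3) :
    ∫ x in cube, conv v i x * Lam (v i) x
      = ∫ x in cube, conv (fun i => Mlt nz (v i)) i x * Lam (Mlt nz (v i)) x := by
  have hv' : ∀ i, SP (Mlt nz (v i)) := fun i => Mlt_sp sym_nz (hv i)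
  have e : ∀ x, conv v i x * Lam (v i) x
      = conv (fun i => Mlt nz (v i)) i x * Lam (Mlt nz (v i)) x
        + ∑ j, (∫ y in cube, v j y) * (pd j (v i) x * Lam (v i) x) := by
    intro x
    rw [Lam_nz (hv i)]
    unfold conv
    simp_rw [pd_nz (hv i)]
    have h : ∀ j, v j x * pd j (v i) x
        = Mlt nz (v j) x * pd j (v i) x + (∫ y in cube, v j y) * pd j (v i) x := by
      intro j
      rw [eq_mean_add (hv j) x]
      ring
    simp_rw [h]
    rw [Finset.sum_add_distrib, add_mul]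
    congr 1
    rw [Finset.sum_mul]
    exact Finset.sum_congr rfl fun j _ => by ring
  simp_rw [e]
  rw [integral_add ((sp_conv hv' i).mul (Lam_sp (hv' i))).int
    (integrable_finsetSum _ fun j _ => ((((hv i).pd j).mul (Lam_sp (hv i))).int).const_mul _)]
  rw [integral_finsetSum _ fun j _ => ((((hv i).pd j).mul (Lam_sp (hv i))).int).const_mul _]
  simp_rw [integral_const_mul, int_pd_Lam (hv i)]
  simp

/-- the square of the norm with half a derivative -/
noncomputable def En (v : Fin 3 → V → ℝ) : ℝ := ∑ i, WS lam (v i)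

/-- the square of the norm with three halves of a derivative -/
noncomputable def Dn (v : Fin 3 → V → ℝ) : ℝ := ∑ i, WS (fun k => lam k ^ 3) (v i)

theorem lam3_nonneg (k : K3) : 0 ≤ lam k ^ 3 := pow_nonneg (lam_nonneg k) 3

theorem En_nonneg (v : Fin 3 → V → ℝ) : 0 ≤ En v :=
  Finset.sum_nonneg fun _ _ => WS_nonneg lam_nonneg _

theorem Dn_nonneg (v : Fin 3 → V → ℝ) : 0 ≤ Dn v :=
  Finset.sum_nonneg fun _ _ => WS_nonneg lam3_nonneg _

theorem abs_sum3_le {t : Fin 3 → ℝ} {c : ℝ} (h : ∀ i, |t i| ≤ c) : |∑ i, t i| ≤ 3 * c := by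
  refine (Finset.abs_sum_le_sum_abs _ _).trans ((Finset.sum_le_sum fun i _ => h i).trans ?_)
  simp

/-- The nonlinear term is controlled by one helical part. -/
theorem static : ∃ K : ℝ, 0 ≤ K ∧ ∀ θ : ℝ, 0 ≤ θ → θ < 1 → ∀ ε : ℝ, 0 < ε → ∃ C : ℝ, 0 ≤ C ∧
    ∀ (v y w : Fin 3 → V → ℝ) (s β₁ β₂ : ℝ), (∀ i, SP (v i)) → (∀ x, ∑ i, pd i (v i) x = 0) →
      s * s = 1 → 0 ≤ β₁ → 0 ≤ β₂ → (∀ i, Split θ β₁ β₂ (hp s v i) (y i) (w i)) →
        |∑ i, ∫ x in cube, conv v i x * Lam (v i) x|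
          ≤ (K * β₁ + ε) * Dn v + C * (β₂ ^ (2 / (1 - θ)) * En v) := by
  obtain ⟨K, hK, hloc⟩ := loc_bd
  refine ⟨18 + 60 * K, by positivity, fun θ hθ0 hθ1 ε hε => ?_⟩
  obtain ⟨C1, hC1, h1⟩ := hloc θ hθ0 hθ1 (ε / 78) (by positivity)
  obtain ⟨C2, hC2, h2⟩ := gam_bd hθ0 hθ1 (by positivity : 0 < ε / 78)
  refine ⟨9 * C2 + 60 * C1, by positivity,
    fun v y w s β₁ β₂ hv hdiv hs hβ₁ hβ₂ hsp => ?_⟩
  set B := β₂ ^ (2 / (1 - θ)) with hB
  have hB0 : 0 ≤ B := Real.rpow_nonneg hβ₂ _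
  set z := hp s v with hz
  set a := hp (-s) v with ha
  have hs' : -s * -s = 1 := by linarith
  have hzs : ∀ i, SP (z i) := hp_sp s hv
  have has : ∀ i, SP (a i) := hp_sp (-s) hv
  have hz0 : ∀ i, fr (z i) 0 = 0 := fr_hp_zero hv
  have ha0 : ∀ i, fr (a i) 0 = 0 := fr_hp_zero hv
  have hLa : ∀ i, SP (Lam (a i)) := fun i => Lam_sp (has i)
  have hLz : ∀ i, SP (Lam (z i)) := fun i => Lam_sp (hzs i)
  have hid := ident (s := -s) has hzs hs' (fun i x => congrFun (crl_hp hv hdiv hs' i) x)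
    (fun i x => by rw [hz, crl_hp hv hdiv hs i, neg_neg]) (div_hp hv hdiv (-s)) (div_hp hv hdiv s)
  have hE : ∀ i, WS lam (a i) ≤ En v := WS_hp_le lam_nonneg pol_lam hs' hv
  have hE' : ∀ i, WS lam (z i) ≤ En v := WS_hp_le lam_nonneg pol_lam hs hv
  have hD : ∀ i, WS (fun k => lam k ^ 3) (a i) ≤ Dn v :=
    WS_hp_le lam3_nonneg (pol_pow pol_lam 3) hs' hv
  have hD' : ∀ i, WS (fun k => lam k ^ 3) (z i) ≤ Dn v :=
    WS_hp_le lam3_nonneg (pol_pow pol_lam 3) hs hv
  have hEn := En_nonneg v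
  have hDn := Dn_nonneg v
  have hconv : ∑ i, ∫ x in cube, conv v i x * Lam (v i) x
      = ∑ i, ∫ x in cube, conv (fun i x => a i x + z i x) i x
      * Lam (fun x => a i x + z i x) x := by
    have e : ∀ i, Mlt nz (v i) = fun x => a i x + z i x := by
      intro i
      funext x
      rw [hp_add (s := s) i x, add_comm]
    have e' : (fun i => Mlt nz (v i)) = fun i x => a i x + z i x := funext e
    refine Finset.sum_congr rfl fun i _ => ?_
    rw [conv_nz hv i, e', e i]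
  -- the three kinds of terms
  set A := (β₁ + ε / 78) * (2 * Dn v) + C2 * (B * En v) with hA
  set A' := (K * β₁ + ε / 78) * (2 * Dn v) + C1 * (B * (2 * En v)) with hA'
  have t1 : ∀ i j, |∫ x in cube, z i x * Gam (a j) (pd j (a i)) x| ≤ A := by
    intro i j
    refine (h2 β₁ β₂ _ _ _ hβ₁ hβ₂ (hsp i) (hzs i) (a j) (a i) (has j) (has i) j).trans ?_
    rw [hA]
    have := hD i
    have := hD j
    have := hE j
    gcongr
    linarith
  have tl : ∀ i (f g : V → ℝ), SP f → SP g → fr f 0 = 0 → fr g 0 = 0 → WS lam f ≤ Dn v →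
      WS lam g ≤ Dn v → WS il f ≤ En v → WS il g ≤ En v →
      |∫ x in cube, z i x * (f x * g x)| ≤ A' := by
    intro i f g hf hg hf0 hg0 a1 a2 a3 a4
    refine (h1 β₁ β₂ _ _ _ hβ₁ hβ₂ (hsp i) f g hf hg hf0 hg0).trans ?_
    rw [hA']
    gcongr
    · linarith
    · linarith
  have dL : ∀ i, WS lam (Lam (a i)) ≤ Dn v := fun i => (WS_lam_Lam (has i)).le.trans (hD i)
  have dLz : ∀ i, WS lam (Lam (z i)) ≤ Dn v := fun i => (WS_lam_Lam (hzs i)).le.trans (hD' i)
  have eL : ∀ i, WS il (Lam (a i)) ≤ En v := fun i => (WS_il_Lam (has i)).le.trans (hE i)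
  have eLz : ∀ i, WS il (Lam (z i)) ≤ En v := fun i => (WS_il_Lam (hzs i)).le.trans (hE' i)
  have t2 : ∀ i j, |∫ x in cube, z i x * (Lam (a j) x * pd j (a i) x)| ≤ A' := fun i j =>
    tl i _ _ (hLa j) ((has i).pd j) (fr_Lam_zero (has j)) (fr_pd_zero (has i) j) (dL j)
      ((WS_lam_pd (has i) j).trans (hD i)) (eL j) ((WS_il_pd (has i) j).trans (hE i))
  have t3 : ∀ i j l, |∫ x in cube, z i x * (Lam (a j) x * Lam (z l) x)| ≤ A' := fun i j l =>
    tl i _ _ (hLa j) (hLz l) (fr_Lam_zero (has j)) (fr_Lam_zero (hzs l)) (dL j) (dLz l) (eL j)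
      (eLz l)
  have hA0 : 0 ≤ A := by positivity
  have hA'0 : 0 ≤ A' := by positivity
  have hterm : ∀ i, |∫ x in cube, z i x * ((∑ j, Gam (a j) (pd j (a i)) x)
      - 2 * (∑ j, Lam (a j) x * pd j (a i) x)
      + 2 * -s * crs (fun i => Lam (a i)) (fun i => Lam (z i)) i x)| ≤ 3 * A + 10 * A' := by
    intro i
    have g1 : ∀ j, IntegrableOn (fun x => z i x * Gam (a j) (pd j (a i)) x) cube := fun j =>
      ((hzs i).mul (Gam_sp (has j) ((has i).pd j))).int
    have g2 : ∀ j, IntegrableOn (fun x => z i x * (Lam (a j) x * pd j (a i) x)) cube := fun j =>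
      ((hzs i).mul ((hLa j).mul ((has i).pd j))).int
    have g3 : ∀ j l, IntegrableOn (fun x => z i x * (Lam (a j) x * Lam (z l) x)) cube := fun j l =>
      ((hzs i).mul ((hLa j).mul (hLz l))).int
    have G1 : IntegrableOn (fun x => ∑ j, z i x * Gam (a j) (pd j (a i)) x) cube :=
      integrable_finsetSum _ fun j _ => g1 j
    have G2 : IntegrableOn (fun x => ∑ j, z i x * (Lam (a j) x * pd j (a i) x)) cube :=
      integrable_finsetSum _ fun j _ => g2 j
    have G3 : IntegrableOn (fun x => z i x * (Lam (a (i + 1)) x * Lam (z (i + 2)) x)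
      - z i x * (Lam (a (i + 2)) x * Lam (z (i + 1)) x)) cube := (g3 _ _).sub (g3 _ _)
    have e : ∫ x in cube, z i x * ((∑ j, Gam (a j) (pd j (a i)) x)
        - 2 * (∑ j, Lam (a j) x * pd j (a i) x)
        + 2 * -s * crs (fun i => Lam (a i)) (fun i => Lam (z i)) i x)
        = (∑ j, ∫ x in cube, z i x * Gam (a j) (pd j (a i)) x)
          - 2 * (∑ j, ∫ x in cube, z i x * (Lam (a j) x * pd j (a i) x))
          + 2 * -s * ((∫ x in cube, z i x * (Lam (a (i + 1)) x * Lam (z (i + 2)) x))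
            - ∫ x in cube, z i x * (Lam (a (i + 2)) x * Lam (z (i + 1)) x)) := by
      have G12 : IntegrableOn (fun x => (∑ j, z i x * Gam (a j) (pd j (a i)) x)
        - 2 * ∑ j, z i x * (Lam (a j) x * pd j (a i) x)) cube := G1.sub (G2.const_mul 2)
      rw [← integral_finsetSum _ fun j _ => g1 j, ← integral_finsetSum _ fun j _ => g2 j,
        ← integral_sub (g3 _ _) (g3 _ _), ← integral_const_mul, ← integral_const_mul,
        ← integral_sub G1 (G2.const_mul 2), ← integral_add G12 (G3.const_mul _)]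
      congr 1
      funext x
      unfold crs
      rw [← Finset.mul_sum, ← Finset.mul_sum]
      ring
    rw [e]
    have b1 := abs_sum3_le (t1 i)
    have b2 := abs_sum3_le (t2 i)
    have b3 := t3 i (i + 1) (i + 2)
    have b4 := t3 i (i + 2) (i + 1)
    have hs1 : |s| = 1 := by
      have : |s| * |s| = 1 := by rw [← abs_mul, hs, abs_one]
      nlinarith [abs_nonneg s]
    have b5 : |(∫ x in cube, z i x * (Lam (a (i + 1)) x * Lam (z (i + 2)) x))
            - ∫ x in cube, z i x * (Lam (a (i + 2)) x * Lam (z (i + 1)) x)| ≤ 2 * A' := by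
      refine (abs_sub _ _).trans ?_
      linarith
    refine (abs_add_le _ _).trans ?_
    rw [abs_mul, abs_mul, abs_neg, hs1]
    have b6 := abs_sub (∑ j, ∫ x in cube, z i x * Gam (a j) (pd j (a i)) x)
      (2 * (∑ j, ∫ x in cube, z i x * (Lam (a j) x * pd j (a i) x)))
    rw [abs_mul] at b6
    have h22 : |(2:ℝ)| = 2 := abs_of_pos (by norm_num)
    rw [h22] at b6 ⊢
    linarith
  rw [hconv, ← abs_neg, hid]
  refine (abs_sum3_le hterm).trans (le_of_eq ?_)
  rw [hA, hA']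
  ring

end Pool.Agent.U583.HC
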