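import Pool.Agent.U583.HC.Wgt

set_option autoImplicit false

/-!
A bound for the integrals `∫ s f g` with half a derivative on each of `f` and `g`.
-/

open MeasureTheory Set Filter Topology
open scoped ContDiff ComplexConjugate RealInnerProductSpace ENNReal

namespace Pool.Agent.U583.HC

open H459R3.NS Pool.Agent.Q63.Win

theorem Mlt_add_sym {m n : K3 → ℝ} (hm : Sym m) (hn : Sym n) (hmn : Sym fun k => m k + n k)
    {f : V → ℝ} (hf : SP f) : Mlt (fun k => m k + n k) f = fun x => Mlt m f x + Mlt n f x := by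
  refine SP.ext (Mlt_sp hmn hf) ((Mlt_sp hm hf).add (Mlt_sp hn hf)) ?_
  funext k
  rw [fr_Mlt hmn hf, fr_add (Mlt_sp hm hf) (Mlt_sp hn hf), fr_Mlt hm hf, fr_Mlt hn hf]
  push_cast
  ring

theorem sym_of_bdd {m : K3 → ℝ} (h : ∀ k, m (-k) = m k) (h1 : ∀ k, |m k| ≤ 1) : Sym m :=
  ⟨h, 1, 0, zero_le_one, fun k => by simpa using h1 k⟩

/-- the blocks -/
noncomputable def blk (j : ℕ) (k : K3) : ℝ := if 2 ^ j ≤ N k ∧ N k < 2 ^ (j + 1) then 1 else 0

/-- the frequencies in the first blocks -/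
noncomputable def low (J : ℕ) (k : K3) : ℝ := if 0 < N k ∧ N k < 2 ^ J then 1 else 0

theorem sym_blk (j : ℕ) : Sym (blk j) := by
  refine sym_of_bdd (fun k => by unfold blk; rw [N_neg]) fun k => ?_
  unfold blk
  split_ifs <;> simp

theorem sym_low (J : ℕ) : Sym (low J) := by
  refine sym_of_bdd (fun k => by unfold low; rw [N_neg]) fun k => ?_
  unfold low
  split_ifs <;> simp

theorem blk_nonneg (j : ℕ) (k : K3) : 0 ≤ blk j k := by unfold blk; split_ifs <;> norm_num

theorem blk_sq (j : ℕ) (k : K3) : blk j k ^ 2 = blk j k := by unfold blk; split_ifs <;> norm_num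

theorem low_sq (j : ℕ) (k : K3) : low j k ^ 2 = low j k := by unfold low; split_ifs <;> norm_num

theorem low_le (J : ℕ) (k : K3) : low J k ≤ 1 := by unfold low; split_ifs <;> norm_num

theorem low_nonneg (J : ℕ) (k : K3) : 0 ≤ low J k := by unfold low; split_ifs <;> norm_num

theorem low_zero (k : K3) : low 0 k = 0 := by
  unfold low
  rw [if_neg]
  rintro ⟨h1, h2⟩
  rw [pow_zero] at h2
  omega

theorem low_succ (J : ℕ) (k : K3) : low (J + 1) k = low J k + blk J k := by
  unfold low blk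
  have h2 : 2 ^ (J + 1) = 2 * 2 ^ J := by ring
  have h3 : 0 < 2 ^ J := by positivity
  by_cases h0 : 0 < N k
  · by_cases h1 : N k < 2 ^ J
    · rw [if_pos ⟨h0, by omega⟩, if_pos ⟨h0, h1⟩, if_neg (by omega), add_zero]
    · by_cases h4 : N k < 2 ^ (J + 1)
      · rw [if_pos ⟨h0, h4⟩, if_neg (by omega), if_pos ⟨by omega, h4⟩, zero_add]
      · rw [if_neg (by omega), if_neg (by omega), if_neg (by omega), zero_add]
  · rw [if_neg (by omega), if_neg (by omega), if_neg (by omega), zero_add]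

theorem low_eq_sum (J : ℕ) (k : K3) : low J k = ∑ j ∈ Finset.range J, blk j k := by
  induction J with
  | zero => rw [low_zero]; simp
  | succ J ih => rw [low_succ, ih, Finset.sum_range_succ]

theorem Mlt_low {f : V → ℝ} (hf : SP f) (J : ℕ) :
    Mlt (low J) f = fun x => ∑ j ∈ Finset.range J, Mlt (blk j) f x := by
  induction J with
  | zero =>
    refine SP.ext (Mlt_sp (sym_low 0) hf) (by simpa using SP.const 0) ?_
    funext k
    rw [fr_Mlt (sym_low 0) hf, low_zero]
    simp [fr, fc]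
  | succ J ih =>
    have e : low (J + 1) = fun k => low J k + blk J k := funext fun k => low_succ J k
    have hs : Sym fun k => low J k + blk J k := by rw [← e]; exact sym_low _
    rw [e, Mlt_add_sym (sym_low J) (sym_blk J) hs hf, ih]
    funext x
    rw [Finset.sum_range_succ]

theorem blk_lam (j : ℕ) (k : K3) : 2 ^ j * blk j k ≤ blk j k * lam k := by
  unfold blk
  split_ifs with h
  · have h1 : (2:ℝ) ^ j ≤ N k := by exact_mod_cast h.1
    have h2 := N_le_lam k
    have := Real.pi_gt_three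
    have h3 : (0:ℝ) ≤ N k := Nat.cast_nonneg _
    nlinarith
  · simp

theorem blk_il (j : ℕ) (k : K3) : (2 ^ j)⁻¹ * blk j k ≤ 8 * Real.pi * (blk j k * il k) := by
  unfold blk
  split_ifs with h
  · have h1 : (N k : ℝ) ≤ 2 ^ (j + 1) := by exact_mod_cast h.2.le
    have h2 := lam_le_N k
    have hpi := Real.pi_pos
    have hk : k ≠ 0 := by
      rintro rfl
      have : 0 < 2 ^ j := by positivity
      have := N_eq_zero.2 (rfl : (0 : K3) = 0)
      omega
    have hl := lam_pos hk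
    have h3 : lam k ≤ 8 * Real.pi * 2 ^ j := by
      calc lam k ≤ 4 * Real.pi * (N k : ℝ) := h2
        _ ≤ 4 * Real.pi * 2 ^ (j + 1) := by gcongr
        _ = _ := by ring
    unfold il
    rw [mul_one, one_mul, ← div_eq_mul_inv, inv_le_comm₀ (by positivity) (by positivity), inv_div,
      div_le_iff₀ (by positivity)]
    linarith
  · simp

theorem blk_lam_sq (j : ℕ) (k : K3) : blk j k * lam k ^ 2 ≤ (8 * Real.pi * 2 ^ j) ^ 2 * blk j k := by
  unfold blk
  split_ifs with h
  · have h1 : (N k : ℝ) ≤ 2 ^ (j + 1) := by exact_mod_cast h.2.le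
    have h2 := lam_le_N k
    have hpi := Real.pi_pos
    have h3 : lam k ≤ 8 * Real.pi * 2 ^ j := by
      calc lam k ≤ 4 * Real.pi * (N k : ℝ) := h2
        _ ≤ 4 * Real.pi * 2 ^ (j + 1) := by gcongr
        _ = _ := by ring
    rw [one_mul, mul_one]
    exact pow_le_pow_left₀ (lam_nonneg k) h3 2
  · simp

section

variable {f : V → ℝ} (hf : SP f)

include hf

theorem nrm_blk (j : ℕ) : nrm (Mlt (blk j) f) ^ 2 = WS (blk j) f := by
  rw [nrm_WS (Mlt_sp (sym_blk j) hf), WS_Mlt (sym_blk j) hf]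
  congr 1
  funext k
  rw [blk_sq, one_mul]

theorem grd_blk (j : ℕ) : grd (Mlt (blk j) f) ≤ 8 * Real.pi * 2 ^ j * nrm (Mlt (blk j) f) := by
  have hpi := Real.pi_pos
  refine abs_le_of_sq_le_sq' ?_ (mul_nonneg (by positivity) (nrm_nonneg _)) |>.2
  rw [mul_pow, nrm_blk hf, grd_WS (Mlt_sp (sym_blk j) hf), WS_Mlt (sym_blk j) hf]
  have e : (8 * Real.pi * 2 ^ j) ^ 2 * WS (blk j) f
      = WS (fun k => (8 * Real.pi * 2 ^ j) ^ 2 * blk j k) f := by
    unfold WS
    rw [← tsum_mul_left]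
    exact tsum_congr fun k => by ring
  rw [e]
  refine WS_mono (pol_mul (pol_pow pol_lam 2) (pol_pow (sym_blk j).pol 2))
    (pol_mul ⟨(8 * Real.pi * 2 ^ j) ^ 2, 0, sq_nonneg _, fun k => by
      rw [abs_of_nonneg (sq_nonneg _)]; simp⟩ (sym_blk j).pol)
    hf fun k => ?_
  rw [blk_sq, mul_comm]
  exact blk_lam_sq j k

theorem sum_blk_le {φ : K3 → ℝ} (hφ0 : ∀ k, 0 ≤ φ k) (hφ : Pol φ) (J : ℕ) :
    ∑ j ∈ Finset.range J, WS (fun k => blk j k * φ k) f ≤ WS φ f := by
  have h1 : ∑ j ∈ Finset.range J, WS (fun k => blk j k * φ k) f = WS (fun k => low J k * φ k) f := by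
    unfold WS
    rw [← Summable.tsum_finsetSum fun j _ => WS_summable (pol_mul (sym_blk j).pol hφ) hf]
    refine tsum_congr fun k => ?_
    show _ = low J k * φ k * _
    rw [low_eq_sum, Finset.sum_mul, Finset.sum_mul]
  rw [h1]
  refine WS_mono (pol_mul (sym_low J).pol hφ) hφ hf fun k => ?_
  have := mul_le_mul_of_nonneg_right (low_le J k) (hφ0 k)
  linarith

theorem P_le (j : ℕ) : 2 ^ j * nrm (Mlt (blk j) f) ^ 2 ≤ WS (fun k => blk j k * lam k) f := by
  rw [nrm_blk hf]
  have e : 2 ^ j * WS (blk j) f = WS (fun k => 2 ^ j * blk j k) f := by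
    unfold WS
    rw [← tsum_mul_left]
    exact tsum_congr fun k => by ring
  rw [e]
  exact WS_mono (pol_mul ⟨2 ^ j, 0, by positivity, fun k => by simp⟩ (sym_blk j).pol)
    (pol_mul (sym_blk j).pol pol_lam) hf fun k => blk_lam j k

theorem M_le (j : ℕ) :
    (2 ^ j)⁻¹ * nrm (Mlt (blk j) f) ^ 2 ≤ 8 * Real.pi * WS (fun k => blk j k * il k) f := by
  rw [nrm_blk hf]
  have e : (2 ^ j : ℝ)⁻¹ * WS (blk j) f = WS (fun k => (2 ^ j)⁻¹ * blk j k) f := by
    unfold WS
    rw [← tsum_mul_left]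
    exact tsum_congr fun k => by ring
  have e2 : 8 * Real.pi * WS (fun k => blk j k * il k) f
      = WS (fun k => 8 * Real.pi * (blk j k * il k)) f := by
    unfold WS
    rw [← tsum_mul_left]
    exact tsum_congr fun k => by ring
  rw [e, e2]
  refine WS_mono (pol_mul ⟨(2 ^ j)⁻¹, 0, by positivity, fun k => by
    rw [abs_of_nonneg (by positivity)]; simp⟩ (sym_blk j).pol)
    (pol_mul ⟨8 * Real.pi, 0, by positivity, fun k => by
      rw [abs_of_nonneg (by positivity)]; simp⟩ (pol_mul (sym_blk j).pol sym_il.pol)) hf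
    fun k => blk_il j k

theorem nrm_low (J : ℕ) : nrm (Mlt (low J) f) ≤ nrm f := by
  refine abs_le_of_sq_le_sq' ?_ (nrm_nonneg _) |>.2
  rw [nrm_WS hf, nrm_WS (Mlt_sp (sym_low J) hf), WS_Mlt (sym_low J) hf]
  refine WS_mono (pol_mul pol_one (pol_pow (sym_low J).pol 2)) pol_one hf fun k => ?_
  rw [low_sq, one_mul]
  exact low_le J k

theorem grd_low (J : ℕ) : grd (Mlt (low J) f) ≤ grd f := by
  refine abs_le_of_sq_le_sq' ?_ (grd_nonneg _) |>.2
  rw [grd_WS hf, grd_WS (Mlt_sp (sym_low J) hf), WS_Mlt (sym_low J) hf]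
  refine WS_mono (pol_mul (pol_pow pol_lam 2) (pol_pow (sym_low J).pol 2)) (pol_pow pol_lam 2) hf
    fun k => ?_
  rw [low_sq]
  exact mul_le_of_le_one_right (sq_nonneg _) (low_le J k)

theorem mean_Mlt {m : K3 → ℝ} (hm : Sym m) (h0 : fr f 0 = 0) :
    ∫ x in cube, Mlt m f x = 0 := by
  apply mean_fr
  rw [fr_Mlt hm hf, h0, mul_zero]

theorem nrm_high (h0 : fr f 0 = 0) (J : ℕ) :
    nrm (fun x => f x - Mlt (low J) f x) ^ 2 ≤ (2 ^ J)⁻¹ * WS lam f := by
  have hl := Mlt_sp (sym_low J) hf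
  rw [nrm_WS (hf.sub hl)]
  unfold WS
  rw [← tsum_mul_left]
  refine (WS_summable pol_one (hf.sub hl)).tsum_le_tsum (fun k => ?_)
    ((WS_summable pol_lam hf).mul_left _)
  rw [fr_sub hf hl, fr_Mlt (sym_low J) hf, one_mul]
  have e : fr f k - (low J k : ℂ) * fr f k = ((1 - low J k : ℝ) : ℂ) * fr f k := by
    push_cast
    ring
  rw [e, norm_mul, mul_pow, Complex.norm_real, Real.norm_eq_abs, sq_abs, ← mul_assoc]
  by_cases hk : k = 0
  · rw [hk, h0]
    simp
  refine mul_le_mul_of_nonneg_right ?_ (sq_nonneg _)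
  unfold low
  split_ifs with h
  · have := lam_nonneg k
    rw [sub_self, zero_pow two_ne_zero]
    positivity
  · have h1 : 2 ^ J ≤ N k := by
      by_contra h2
      exact h ⟨Nat.pos_of_ne_zero fun h3 => hk (N_eq_zero.1 h3), by omega⟩
    have h2 : (2:ℝ) ^ J ≤ N k := by exact_mod_cast h1
    have h3 := N_le_lam k
    have := Real.pi_gt_three
    have h4 : (2:ℝ) ^ J ≤ lam k := by
      have : (0:ℝ) ≤ N k := Nat.cast_nonneg _
      nlinarith
    rw [← div_eq_inv_mul, le_div_iff₀ (by positivity)]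
    linarith

end

/-- convergence of the truncated integrals -/
theorem int_low_tendsto {s : V → ℝ} (hs : IntegrableOn s cube) {θ β : ℝ} (hM : Mul θ β s)
    (hθ0 : 0 ≤ θ) (hθ1 : θ ≤ 1) (hβ : 0 ≤ β) {f g : V → ℝ} (hf : SP f) (hg : SP g)
    (hf0 : fr f 0 = 0) (hg0 : fr g 0 = 0) :
    Tendsto (fun J => ∫ x in cube, s x * (Mlt (low J) f x * Mlt (low J) g x)) atTop
      (𝓝 (∫ x in cube, s x * (f x * g x))) := by
  have hi : ∀ F : V → ℝ, SP F → IntegrableOn (fun x => s x * F x) cube := by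
    intro F hF
    obtain ⟨C, hC⟩ := (isCompact_Icc : IsCompact cube).exists_bound_of_continuousOn hF.cont.continuousOn
    exact hs.mul_bdd (c := C) hF.cont.aestronglyMeasurable.restrict
      ((ae_restrict_iff' measurableSet_cube).2 (ae_of_all _ hC))
  set Cf := β * (nrm f ^ (1 - θ) * grd f ^ θ) with hCf
  set Cg := β * (nrm g ^ (1 - θ) * grd g ^ θ) with hCg
  have hCf0 : 0 ≤ Cf := by
    have := nrm_nonneg f
    have := grd_nonneg f
    positivity
  have hCg0 : 0 ≤ Cg := by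
    have := nrm_nonneg g
    have := grd_nonneg g
    positivity
  have hb : ∀ J, |(∫ x in cube, s x * (Mlt (low J) f x * Mlt (low J) g x))
      - ∫ x in cube, s x * (f x * g x)| ≤ Cg * Real.sqrt ((2 ^ J)⁻¹ * WS lam f)
        + Cf * Real.sqrt ((2 ^ J)⁻¹ * WS lam g) := by
    intro J
    have hlf := Mlt_sp (sym_low J) hf
    have hlg := Mlt_sp (sym_low J) hg
    have e : (∫ x in cube, s x * (Mlt (low J) f x * Mlt (low J) g x))
        - ∫ x in cube, s x * (f x * g x)
        = -(∫ x in cube, s x * ((f x - Mlt (low J) f x) * g x))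
          - ∫ x in cube, s x * ((g x - Mlt (low J) g x) * Mlt (low J) f x) := by
      rw [← integral_neg, ← integral_sub (hi _ (hlf.mul hlg)) (hi _ (hf.mul hg)),
        ← integral_sub]
      · congr 1
        funext x
        ring
      · exact (hi _ ((hf.sub hlf).mul hg)).neg
      · exact hi _ ((hg.sub hlg).mul hlf)
    have h1 := hM _ _ (hf.sub hlf) hg (mean_fr hg0)
    have h2 := hM _ _ (hg.sub hlg) hlf (mean_Mlt hf (sym_low J) hf0)
    have h3 : nrm (fun x => f x - Mlt (low J) f x) ≤ Real.sqrt ((2 ^ J)⁻¹ * WS lam f) :=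
      Real.le_sqrt_of_sq_le (nrm_high hf hf0 J)
    have h4 : nrm (fun x => g x - Mlt (low J) g x) ≤ Real.sqrt ((2 ^ J)⁻¹ * WS lam g) :=
      Real.le_sqrt_of_sq_le (nrm_high hg hg0 J)
    have h5 : nrm (Mlt (low J) f) ^ (1 - θ) * grd (Mlt (low J) f) ^ θ
        ≤ nrm f ^ (1 - θ) * grd f ^ θ := by
      have a1 := nrm_nonneg (Mlt (low J) f)
      have a2 := grd_nonneg (Mlt (low J) f)
      have a3 := nrm_low hf J
      have a4 := grd_low hf J
      have a5 := nrm_nonneg f
      have : 0 ≤ 1 - θ := by linarith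
      gcongr
    rw [e]
    refine (abs_sub _ _).trans ?_
    rw [abs_neg]
    refine add_le_add (h1.trans ?_) (h2.trans ?_)
    · have a1 := nrm_nonneg g
      have a2 := grd_nonneg g
      calc β * (nrm (fun x => f x - Mlt (low J) f x) * (nrm g ^ (1 - θ) * grd g ^ θ))
          = Cg * nrm (fun x => f x - Mlt (low J) f x) := by rw [hCg]; ring
        _ ≤ _ := by gcongr
    · calc β * (nrm (fun x => g x - Mlt (low J) g x) * (nrm (Mlt (low J) f) ^ (1 - θ)
            * grd (Mlt (low J) f) ^ θ))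
          ≤ β * (Real.sqrt ((2 ^ J)⁻¹ * WS lam g) * (nrm f ^ (1 - θ) * grd f ^ θ)) := by
            have a1 := nrm_nonneg (Mlt (low J) f)
            have a2 := grd_nonneg (Mlt (low J) f)
            gcongr
        _ = _ := by rw [hCf]; ring
  have hlim : ∀ c : ℝ, Tendsto (fun J : ℕ => Real.sqrt ((2 ^ J)⁻¹ * c)) atTop (𝓝 0) := by
    intro c
    have h1 : Tendsto (fun J : ℕ => ((2:ℝ) ^ J)⁻¹) atTop (𝓝 0) :=
      tendsto_inv_atTop_zero.comp (tendsto_pow_atTop_atTop_of_one_lt one_lt_two)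
    have h2 := (h1.mul_const c).sqrt
    simpa using h2
  have hlim2 : Tendsto (fun J : ℕ => Cg * Real.sqrt ((2 ^ J)⁻¹ * WS lam f)
        + Cf * Real.sqrt ((2 ^ J)⁻¹ * WS lam g)) atTop (𝓝 0) := by
    have := ((hlim (WS lam f)).const_mul Cg).add ((hlim (WS lam g)).const_mul Cf)
    simpa using this
  rw [tendsto_iff_norm_sub_tendsto_zero]
  exact squeeze_zero (fun _ => norm_nonneg _) hb hlim2

end Pool.Agent.U583.HC
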