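import Pool.Agent.U583.HC.Dyad

set_option autoImplicit false

/-!
Summation over the blocks.
-/

open MeasureTheory Set Filter Topology
open scoped ContDiff ComplexConjugate RealInnerProductSpace ENNReal

namespace Pool.Agent.U583.HC

open H459R3.NS Pool.Agent.Q63.Win

/-- the square root of two -/
noncomputable def sg : ℝ := Real.sqrt 2

theorem sg_sq : sg ^ 2 = 2 := Real.sq_sqrt (by norm_num)

theorem sg_pos : 0 < sg := Real.sqrt_pos.2 (by norm_num)

theorem sg_lt : (1.4 : ℝ) < sg := by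
  have h := sg_sq
  have := sg_pos
  nlinarith

/-- the weight of a pair of blocks -/
noncomputable def rr (j l : ℕ) : ℝ := sg⁻¹ ^ (j - l) * sg⁻¹ ^ (l - j)

theorem rr_nonneg (j l : ℕ) : 0 ≤ rr j l := by
  have := sg_pos
  unfold rr
  positivity

theorem rr_comm (j l : ℕ) : rr j l = rr l j := by unfold rr; ring

theorem sum_geo (n : ℕ) : ∑ m ∈ Finset.range n, sg⁻¹ ^ m ≤ 7 / 2 := by
  have h1 := sg_lt
  have h2 := sg_pos
  have h3 : sg⁻¹ < 5 / 7 := by
    rw [inv_lt_comm₀ h2 (by norm_num)]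
    norm_num at h1 ⊢
    linarith
  have h0 : 0 < sg⁻¹ := by positivity
  have h4 : ∀ n : ℕ, (∑ m ∈ Finset.range n, sg⁻¹ ^ m) + 7 / 2 * sg⁻¹ ^ n ≤ 7 / 2 := by
    intro n
    induction n with
    | zero => simp
    | succ n ih =>
      rw [Finset.sum_range_succ, pow_succ]
      have : 0 < sg⁻¹ ^ n := by positivity
      nlinarith
  have := h4 n
  have : 0 < sg⁻¹ ^ n := by positivity
  linarith

theorem sum_rr (j J : ℕ) : ∑ l ∈ Finset.range J, rr j l ≤ 7 := by
  have h0 : 0 < sg⁻¹ := inv_pos.2 sg_pos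
  have h1 : sg⁻¹ ≤ 1 := by
    have h1 := sg_lt
    rw [inv_le_one₀ sg_pos]
    linarith
  calc ∑ l ∈ Finset.range J, rr j l ≤ ∑ l ∈ Finset.range (j + 1 + J), rr j l :=
        Finset.sum_le_sum_of_subset_of_nonneg (Finset.range_mono (by omega))
          fun _ _ _ => rr_nonneg _ _
    _ = (∑ l ∈ Finset.range (j + 1), rr j l) + ∑ m ∈ Finset.range J, rr j (j + 1 + m) :=
        Finset.sum_range_add _ _ _
    _ ≤ 7 / 2 + 7 / 2 := by
        refine add_le_add ?_ ?_
        · have e : ∑ l ∈ Finset.range (j + 1), rr j l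
              = ∑ l ∈ Finset.range (j + 1), sg⁻¹ ^ (j + 1 - 1 - l) := by
            refine Finset.sum_congr rfl fun l hl => ?_
            have : l < j + 1 := Finset.mem_range.1 hl
            unfold rr
            rw [show l - j = 0 by omega, pow_zero, mul_one, Nat.add_sub_cancel]
          rw [e, Finset.sum_range_reflect (fun m => sg⁻¹ ^ m) (j + 1)]
          exact sum_geo _
        · refine le_trans (Finset.sum_le_sum fun m _ => ?_) (sum_geo J)
          unfold rr
          rw [show j - (j + 1 + m) = 0 by omega, pow_zero, one_mul,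
            show j + 1 + m - j = m + 1 by omega, pow_succ]
          exact mul_le_of_le_one_right (by positivity) h1
    _ = 7 := by norm_num

theorem sum_pairs {T : ℕ → ℕ → ℝ} {A B : ℕ → ℝ} (hA : ∀ j, 0 ≤ A j) (hB : ∀ j, 0 ≤ B j)
    (h : ∀ j l, |T j l| ≤ rr j l * (A j + B l)) (J : ℕ) :
    |∑ j ∈ Finset.range J, ∑ l ∈ Finset.range J, T j l|
      ≤ 7 * ((∑ j ∈ Finset.range J, A j) + ∑ l ∈ Finset.range J, B l) := by
  calc |∑ j ∈ Finset.range J, ∑ l ∈ Finset.range J, T j l|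
      ≤ ∑ j ∈ Finset.range J, ∑ l ∈ Finset.range J, |T j l| :=
        (Finset.abs_sum_le_sum_abs _ _).trans
          (Finset.sum_le_sum fun j _ => Finset.abs_sum_le_sum_abs _ _)
    _ ≤ ∑ j ∈ Finset.range J, ∑ l ∈ Finset.range J, (rr j l * A j + rr j l * B l) :=
        Finset.sum_le_sum fun j _ => Finset.sum_le_sum fun l _ =>
          (h j l).trans (le_of_eq (mul_add _ _ _))
    _ = (∑ j ∈ Finset.range J, ∑ l ∈ Finset.range J, rr j l * A j)
        + ∑ l ∈ Finset.range J, ∑ j ∈ Finset.range J, rr j l * B l := by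
        rw [Finset.sum_comm (f := fun l j => rr j l * B l), ← Finset.sum_add_distrib]
        exact Finset.sum_congr rfl fun j _ => Finset.sum_add_distrib
    _ ≤ (∑ j ∈ Finset.range J, 7 * A j) + ∑ l ∈ Finset.range J, 7 * B l := by
        refine add_le_add (Finset.sum_le_sum fun j _ => ?_) (Finset.sum_le_sum fun l _ => ?_)
        · rw [← Finset.sum_mul]
          exact mul_le_mul_of_nonneg_right (sum_rr j J) (hA j)
        · rw [← Finset.sum_mul]
          refine mul_le_mul_of_nonneg_right ?_ (hB l)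
          simp_rw [rr_comm _ l]
          exact sum_rr l J
    _ = _ := by rw [← Finset.mul_sum, ← Finset.mul_sum, mul_add]

/-- the bound for a pair of blocks -/
theorem pair_le {θ β : ℝ} (hθ0 : 0 ≤ θ) (hβ : 0 ≤ β) {x y n g : ℝ} (hx : 0 ≤ x)
    (hy : 0 ≤ y) (hg0 : 0 ≤ g) {j l : ℕ} (hjl : l ≤ j) (hg : g ≤ 8 * Real.pi * 2 ^ l * y)
    (h : |n| ≤ β * (x * (y ^ (1 - θ) * g ^ θ))) :
    |n| ≤ rr j l * ((8 * Real.pi) ^ θ * (β * ((sg ^ j * x) *
      (((sg ^ l)⁻¹ * y) ^ (1 - θ) * (sg ^ l * y) ^ θ)))) := by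
  have hpi := Real.pi_pos
  have hs := sg_pos
  refine h.trans ?_
  have hsl : 0 < sg ^ l := by positivity
  have h2 : (2:ℝ) ^ l = sg ^ l * sg ^ l := by rw [← mul_pow, ← sq, sg_sq]
  have e1 : y ^ (1 - θ) = (sg ^ l) ^ (1 - θ) * ((sg ^ l)⁻¹ * y) ^ (1 - θ) := by
    rw [← Real.mul_rpow hsl.le (by positivity), ← mul_assoc, mul_inv_cancel₀ hsl.ne', one_mul]
  have e2 : (8 * Real.pi * 2 ^ l * y) ^ θ
      = (8 * Real.pi) ^ θ * ((sg ^ l) ^ θ * (sg ^ l * y) ^ θ) := by
    rw [← Real.mul_rpow hsl.le (by positivity), ← Real.mul_rpow (by positivity) (by positivity),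
      h2]
    congr 1
    ring
  have e3 : (sg ^ l) ^ (1 - θ) * (sg ^ l) ^ θ = sg ^ l := by
    rw [← Real.rpow_add hsl, sub_add_cancel, Real.rpow_one]
  have e4 : rr j l * sg ^ j = sg ^ l := by
    unfold rr
    rw [show l - j = 0 by omega, pow_zero, mul_one]
    have : sg ^ j = sg ^ (j - l) * sg ^ l := by rw [← pow_add, Nat.sub_add_cancel hjl]
    rw [this, ← mul_assoc, ← mul_pow, inv_mul_cancel₀ hs.ne', one_pow, one_mul]
  calc β * (x * (y ^ (1 - θ) * g ^ θ))
      ≤ β * (x * (y ^ (1 - θ) * (8 * Real.pi * 2 ^ l * y) ^ θ)) := by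
        gcongr
    _ = ((sg ^ l) ^ (1 - θ) * (sg ^ l) ^ θ) * ((8 * Real.pi) ^ θ * (β * (x *
      (((sg ^ l)⁻¹ * y) ^ (1 - θ) * (sg ^ l * y) ^ θ)))) := by
        rw [e1, e2]
        ring
    _ = _ := by
        rw [e3, ← e4]
        ring

theorem il_nonneg (k : K3) : 0 ≤ il k := inv_nonneg.2 (lam_nonneg k)

theorem sq_bd (a b : ℝ) : (max a b) ^ 2 ≤ a ^ 2 + b ^ 2 := by
  rcases le_total a b with h | h
  · rw [max_eq_right h]
    nlinarith [sq_nonneg a]
  · rw [max_eq_left h]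
    nlinarith [sq_nonneg b]

section

variable {f g : V → ℝ} (hf : SP f) (hg : SP g) (hf0 : fr f 0 = 0) (hg0 : fr g 0 = 0)
  {s : V → ℝ} (hs : IntegrableOn s cube)

theorem int_bdd {s : V → ℝ} (hs : IntegrableOn s cube) {F : V → ℝ} (hF : SP F) :
    IntegrableOn (fun x => s x * F x) cube := by
  obtain ⟨C, hC⟩ := (isCompact_Icc : IsCompact cube).exists_bound_of_continuousOn
    hF.cont.continuousOn
  exact hs.mul_bdd (c := C) hF.cont.aestronglyMeasurable.restrict
    ((ae_restrict_iff' measurableSet_cube).2 (ae_of_all _ hC))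

include hf hg hs in
theorem int_low_eq (J : ℕ) : ∫ x in cube, s x * (Mlt (low J) f x * Mlt (low J) g x)
    = ∑ j ∈ Finset.range J, ∑ l ∈ Finset.range J,
      ∫ x in cube, s x * (Mlt (blk j) f x * Mlt (blk l) g x) := by
  have hi : ∀ j l, IntegrableOn (fun x => s x * (Mlt (blk j) f x * Mlt (blk l) g x)) cube :=
    fun j l => int_bdd hs ((Mlt_sp (sym_blk j) hf).mul (Mlt_sp (sym_blk l) hg))
  have e : ∀ j, ∑ l ∈ Finset.range J, ∫ x in cube, s x * (Mlt (blk j) f x * Mlt (blk l) g x)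
      = ∫ x in cube, ∑ l ∈ Finset.range J, s x * (Mlt (blk j) f x * Mlt (blk l) g x) := fun j =>
    (integral_finsetSum _ fun l _ => hi j l).symm
  simp_rw [e]
  rw [← integral_finsetSum _ fun j _ => integrable_finsetSum _ fun l _ => hi j l]
  congr 1
  funext x
  rw [Mlt_low hf, Mlt_low hg, Finset.sum_mul_sum, Finset.mul_sum]
  refine Finset.sum_congr rfl fun j _ => ?_
  rw [Finset.mul_sum]

include hf in
theorem sumP (J : ℕ) : ∑ j ∈ Finset.range J, (sg ^ j * nrm (Mlt (blk j) f)) ^ 2 ≤ WS lam f := by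
  refine le_trans (Finset.sum_le_sum fun j _ => ?_) (sum_blk_le hf lam_nonneg pol_lam J)
  rw [mul_pow, ← pow_mul, mul_comm j 2, pow_mul, sg_sq]
  exact P_le hf j

include hf in
theorem sumM (J : ℕ) : ∑ j ∈ Finset.range J, ((sg ^ j)⁻¹ * nrm (Mlt (blk j) f)) ^ 2
    ≤ 8 * Real.pi * WS il f := by
  have hpi := Real.pi_pos
  have h := sum_blk_le hf il_nonneg sym_il.pol J
  refine le_trans (Finset.sum_le_sum fun j _ => ?_)
    ((Finset.mul_sum _ _ _).symm.le.trans (mul_le_mul_of_nonneg_left h (by positivity)))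
  rw [mul_pow, inv_pow, ← pow_mul, mul_comm j 2, pow_mul, sg_sq]
  exact M_le hf j

end

/-- the case `θ = 1` -/
theorem dyad_one : ∃ K : ℝ, 0 ≤ K ∧ ∀ (s : V → ℝ) (β : ℝ), IntegrableOn s cube → 0 ≤ β →
    Mul 1 β s → ∀ f g : V → ℝ, SP f → SP g → fr f 0 = 0 → fr g 0 = 0 →
      |∫ x in cube, s x * (f x * g x)| ≤ K * β * (WS lam f + WS lam g) := by
  have hpi := Real.pi_pos
  refine ⟨28 * Real.pi, by positivity, fun s β hs hβ hM f g hf hg hf0 hg0 => ?_⟩
  refine le_of_tendsto (int_low_tendsto hs hM zero_le_one le_rfl hβ hf hg hf0 hg0).abs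
    (Eventually.of_forall fun J => ?_)
  rw [int_low_eq hf hg hs]
  set X : ℕ → ℝ := fun j => sg ^ j * nrm (Mlt (blk j) f) with hX
  set Y : ℕ → ℝ := fun j => sg ^ j * nrm (Mlt (blk j) g) with hY
  have hsg := sg_pos
  have key : ∀ j l, |∫ x in cube, s x * (Mlt (blk j) f x * Mlt (blk l) g x)|
      ≤ rr j l * (4 * Real.pi * β * X j ^ 2 + 4 * Real.pi * β * Y l ^ 2) := by
    intro j l
    have hF := Mlt_sp (sym_blk j) hf
    have hG := Mlt_sp (sym_blk l) hg
    have h3 : X j * Y l ≤ (X j ^ 2 + Y l ^ 2) / 2 := by nlinarith [sq_nonneg (X j - Y l)]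
    have h4 := rr_nonneg j l
    have h5 : rr j l * (8 * Real.pi * β * (X j * Y l))
        ≤ rr j l * (4 * Real.pi * β * X j ^ 2 + 4 * Real.pi * β * Y l ^ 2) := by
      refine mul_le_mul_of_nonneg_left ?_ h4
      have := mul_le_mul_of_nonneg_left h3 (by positivity : 0 ≤ 8 * Real.pi * β)
      linarith
    refine le_trans ?_ h5
    rcases le_total l j with hjl | hjl
    · have h1 := hM _ _ hF hG (mean_Mlt hg (sym_blk l) hg0)
      have h2 := pair_le zero_le_one hβ (nrm_nonneg _) (nrm_nonneg _) (grd_nonneg _) hjl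
        (grd_blk hg l) h1
      refine h2.trans (le_of_eq ?_)
      rw [sub_self, Real.rpow_zero, Real.rpow_one, Real.rpow_one]
      ring
    · have h1 := hM _ _ hG hF (mean_Mlt hf (sym_blk j) hf0)
      have h2 := pair_le zero_le_one hβ (nrm_nonneg _) (nrm_nonneg _) (grd_nonneg _) hjl
        (grd_blk hf j) h1
      have e : ∫ x in cube, s x * (Mlt (blk j) f x * Mlt (blk l) g x)
          = ∫ x in cube, s x * (Mlt (blk l) g x * Mlt (blk j) f x) := by
        congr 1
        funext x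
        ring
      rw [e]
      refine h2.trans (le_of_eq ?_)
      rw [sub_self, Real.rpow_zero, Real.rpow_one, Real.rpow_one, rr_comm l j]
      ring
  refine (sum_pairs (fun j => by positivity) (fun j => by positivity) key J).trans ?_
  rw [← Finset.mul_sum, ← Finset.mul_sum]
  have h1 := sumP hf J
  have h2 := sumP hg J
  have h3 := mul_le_mul_of_nonneg_left (add_le_add h1 h2) (by positivity : 0 ≤ 28 * Real.pi * β)
  refine le_trans (le_of_eq ?_) h3
  ring

/-- the case `θ < 1` -/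
theorem dyad_lt {θ : ℝ} (hθ0 : 0 ≤ θ) (hθ1 : θ < 1) {ε : ℝ} (hε : 0 < ε) :
    ∃ C : ℝ, 0 ≤ C ∧ ∀ (s : V → ℝ) (β : ℝ), IntegrableOn s cube → 0 ≤ β →
      Mul θ β s → ∀ f g : V → ℝ, SP f → SP g → fr f 0 = 0 → fr g 0 = 0 →
        |∫ x in cube, s x * (f x * g x)| ≤ ε * (WS lam f + WS lam g)
          + C * (β ^ (2 / (1 - θ)) * (WS il f + WS il g)) := by
  have hpi := Real.pi_pos
  obtain ⟨D, hD0, hD⟩ := young (c := (8 * Real.pi) ^ θ) hθ0 hθ1
    (by positivity : 0 < 2 * (ε / 7)) (by positivity)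
  refine ⟨7 * D * (8 * Real.pi), by positivity, fun s β hs hβ hM f g hf hg hf0 hg0 => ?_⟩
  refine le_of_tendsto (int_low_tendsto hs hM hθ0 hθ1.le hβ hf hg hf0 hg0).abs
    (Eventually.of_forall fun J => ?_)
  rw [int_low_eq hf hg hs]
  set X : ℕ → ℝ := fun j => sg ^ j * nrm (Mlt (blk j) f) with hX
  set Y : ℕ → ℝ := fun j => sg ^ j * nrm (Mlt (blk j) g) with hY
  set Z : ℕ → ℝ := fun j => (sg ^ j)⁻¹ * nrm (Mlt (blk j) f) with hZ
  set W : ℕ → ℝ := fun j => (sg ^ j)⁻¹ * nrm (Mlt (blk j) g) with hW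
  have hsg := sg_pos
  have hX0 : ∀ j, 0 ≤ X j := fun j => mul_nonneg (by positivity) (nrm_nonneg _)
  have hY0 : ∀ j, 0 ≤ Y j := fun j => mul_nonneg (by positivity) (nrm_nonneg _)
  have hZ0 : ∀ j, 0 ≤ Z j := fun j => mul_nonneg (by positivity) (nrm_nonneg _)
  have hW0 : ∀ j, 0 ≤ W j := fun j => mul_nonneg (by positivity) (nrm_nonneg _)
  set B := β ^ (2 / (1 - θ)) with hB
  have hB0 : 0 ≤ B := Real.rpow_nonneg hβ _
  have hmax : ∀ a b c : ℝ, 0 ≤ a → 0 ≤ b → 0 ≤ c →
      (8 * Real.pi) ^ θ * (β * (a * (c ^ (1 - θ) * b ^ θ)))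
        ≤ ε / 7 * (a ^ 2 + b ^ 2) + D * (B * c ^ 2) := by
    intro a b c ha hb hc
    have h1 := hD β c (max a b) hβ hc (le_max_of_le_left ha)
    have h2 : a * (c ^ (1 - θ) * b ^ θ) ≤ c ^ (1 - θ) * (max a b) ^ θ * max a b := by
      have h3 : b ^ θ ≤ (max a b) ^ θ := Real.rpow_le_rpow hb (le_max_right _ _) hθ0
      have h4 : 0 ≤ c ^ (1 - θ) := Real.rpow_nonneg hc _
      have h5 : 0 ≤ b ^ θ := Real.rpow_nonneg hb _
      have h6 : a ≤ max a b := le_max_left _ _
      calc a * (c ^ (1 - θ) * b ^ θ) ≤ max a b * (c ^ (1 - θ) * (max a b) ^ θ) := by gcongr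
        _ = _ := by ring
    have h3 := sq_bd a b
    calc (8 * Real.pi) ^ θ * (β * (a * (c ^ (1 - θ) * b ^ θ)))
        ≤ (8 * Real.pi) ^ θ * (β * (c ^ (1 - θ) * (max a b) ^ θ * max a b)) := by gcongr
      _ ≤ _ := h1
      _ ≤ _ := by
          have := mul_le_mul_of_nonneg_left h3 (by positivity : 0 ≤ 2 * (ε / 7) / 2)
          linarith
  have key : ∀ j l, |∫ x in cube, s x * (Mlt (blk j) f x * Mlt (blk l) g x)|
      ≤ rr j l * ((ε / 7 * X j ^ 2 + D * (B * Z j ^ 2))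
        + (ε / 7 * Y l ^ 2 + D * (B * W l ^ 2))) := by
    intro j l
    have hF := Mlt_sp (sym_blk j) hf
    have hG := Mlt_sp (sym_blk l) hg
    have h4 := rr_nonneg j l
    rcases le_total l j with hjl | hjl
    · have h1 := hM _ _ hF hG (mean_Mlt hg (sym_blk l) hg0)
      have h2 := pair_le hθ0 hβ (nrm_nonneg _) (nrm_nonneg _) (grd_nonneg _) hjl
        (grd_blk hg l) h1
      refine h2.trans (mul_le_mul_of_nonneg_left ?_ h4)
      refine (hmax (X j) (Y l) (W l) (hX0 j) (hY0 l) (hW0 l)).trans ?_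
      have : 0 ≤ D * (B * Z j ^ 2) := by positivity
      linarith
    · have h1 := hM _ _ hG hF (mean_Mlt hf (sym_blk j) hf0)
      have h2 := pair_le hθ0 hβ (nrm_nonneg _) (nrm_nonneg _) (grd_nonneg _) hjl
        (grd_blk hf j) h1
      have e : ∫ x in cube, s x * (Mlt (blk j) f x * Mlt (blk l) g x)
          = ∫ x in cube, s x * (Mlt (blk l) g x * Mlt (blk j) f x) := by
        congr 1
        funext x
        ring
      rw [e, rr_comm j l]
      refine h2.trans (mul_le_mul_of_nonneg_left ?_ (rr_nonneg l j))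
      refine (hmax (Y l) (X j) (Z j) (hY0 l) (hX0 j) (hZ0 j)).trans ?_
      have : 0 ≤ D * (B * W l ^ 2) := by positivity
      linarith
  refine (sum_pairs (fun j => by positivity) (fun j => by positivity) key J).trans ?_
  rw [Finset.sum_add_distrib, Finset.sum_add_distrib]
  simp_rw [← Finset.mul_sum]
  have h1 := sumP hf J
  have h2 := sumP hg J
  have h3 := mul_le_mul_of_nonneg_left (add_le_add h1 h2) hε.le
  have h4 := mul_le_mul_of_nonneg_left (add_le_add (sumM hf J) (sumM hg J))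
    (by positivity : 0 ≤ 7 * D * B)
  refine le_trans (le_of_eq ?_) ((add_le_add h3 h4).trans (le_of_eq ?_))
  · ring
  · ring

end Pool.Agent.U583.HC
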