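import Pool.Agent.H459R3.NS.Lp

set_option autoImplicit false

/-!
Measurable functions in `L^p`, `3 ≤ p ≤ ∞`, are multipliers.
-/

open MeasureTheory Set Filter Topology
open scoped ENNReal NNReal

namespace Pool.Agent.U583.HC

open H459R3.NS

theorem holder_top' {s f g : V → ℝ} (hf : Continuous f) (hg : Continuous g) :
    ∫⁻ x in cube, ‖s x‖ₑ * (‖f x‖ₑ * ‖g x‖ₑ) ≤ eLpNorm s ∞ (volume.restrict cube)
      * (eLpNorm f 2 (volume.restrict cube) * eLpNorm g 2 (volume.restrict cube)) := by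
  have h1 : ∀ᵐ x ∂(volume.restrict cube), ‖s x‖ₑ ≤ eLpNorm s ∞ (volume.restrict cube) := by
    rw [eLpNorm_exponent_top]
    exact ae_le_eLpNormEssSup
  calc ∫⁻ x in cube, ‖s x‖ₑ * (‖f x‖ₑ * ‖g x‖ₑ)
      ≤ ∫⁻ x in cube, eLpNorm s ∞ (volume.restrict cube) * (‖f x‖ₑ * ‖g x‖ₑ) := by
        refine lintegral_mono_ae ?_
        filter_upwards [h1] with x hx
        gcongr
    _ = eLpNorm s ∞ (volume.restrict cube) * ∫⁻ x in cube, ‖f x‖ₑ * ‖g x‖ₑ :=
        lintegral_const_mul _ (by fun_prop)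
    _ ≤ _ := by
        gcongr
        have h2 := ENNReal.lintegral_mul_le_Lp_mul_Lq (volume.restrict cube)
          (Real.HolderConjugate.two_two) (f := fun x => ‖f x‖ₑ) (g := fun x => ‖g x‖ₑ)
          (by fun_prop) (by fun_prop)
        rw [eLpNorm_eq_lintegral_rpow_enorm_toReal (by norm_num) (by norm_num),
          eLpNorm_eq_lintegral_rpow_enorm_toReal (by norm_num) (by norm_num)]
        have e1 : (2 : ℝ≥0∞).toReal = 2 := by norm_num
        rw [e1]
        exact h2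

theorem holder_fin' {p : ℝ≥0∞} (hp : 3 ≤ p) (hp' : p ≠ ∞) {s f g : V → ℝ}
    (hs : AEStronglyMeasurable s (volume.restrict cube))
    (hf : Continuous f) (hg : Continuous g) :
    ∫⁻ x in cube, ‖s x‖ₑ * (‖f x‖ₑ * ‖g x‖ₑ) ≤ eLpNorm s p (volume.restrict cube)
      * (eLpNorm f 2 (volume.restrict cube)
        * (eLpNorm g 2 (volume.restrict cube) ^ (1 - 3 / p.toReal)
          * eLpNorm g 6 (volume.restrict cube) ^ (3 / p.toReal))) := by
  set r := p.toReal with hr
  have hr3 : 3 ≤ r := by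
    have := (ENNReal.toReal_le_toReal (by norm_num) hp').2 hp
    simpa using this
  have hr0 : 0 < r := by linarith
  have hp0 : p ≠ 0 := (lt_of_lt_of_le (by norm_num) hp).ne'
  set θ := 3 / r with hθ
  have hθ1 : θ ≤ 1 := by rw [hθ, div_le_one hr0]; exact hr3
  have hθ0 : 0 < θ := by positivity
  have h := ENNReal.lintegral_prod_norm_pow_le (μ := volume.restrict cube)
    (Finset.univ : Finset (Fin 4))
    (f := ![fun x => ‖s x‖ₑ ^ r, fun x => ‖f x‖ₑ ^ (2 : ℝ), fun x => ‖g x‖ₑ ^ (2 : ℝ),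
      fun x => ‖g x‖ₑ ^ (6 : ℝ)])
    (p := ![1 / r, 1 / 2, (1 - θ) / 2, θ / 6])
    (by
      intro i _
      fin_cases i
      · exact hs.enorm.pow_const _
      · exact (hf.enorm.measurable.pow_const _).aemeasurable
      · exact (hg.enorm.measurable.pow_const _).aemeasurable
      · exact (hg.enorm.measurable.pow_const _).aemeasurable)
    (by
      simp only [Fin.sum_univ_four, Matrix.cons_val]
      rw [hθ]
      field_simp
      ring)
    (by
      intro i _
      fin_cases i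
      · show 0 ≤ 1 / r
        positivity
      · show (0 : ℝ) ≤ 1 / 2
        positivity
      · show 0 ≤ (1 - θ) / 2
        linarith
      · show 0 ≤ θ / 6
        positivity)
  simp only [Fin.prod_univ_four, Matrix.cons_val] at h
  have e : ∀ x, (‖s x‖ₑ ^ r) ^ (1 / r) * (‖f x‖ₑ ^ (2 : ℝ)) ^ (1 / 2 : ℝ)
      * (‖g x‖ₑ ^ (2 : ℝ)) ^ ((1 - θ) / 2) * (‖g x‖ₑ ^ (6 : ℝ)) ^ (θ / 6)
      = ‖s x‖ₑ * (‖f x‖ₑ * ‖g x‖ₑ) := by
    intro x
    rw [← ENNReal.rpow_mul, ← ENNReal.rpow_mul, ← ENNReal.rpow_mul, ← ENNReal.rpow_mul]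
    have a1 : r * (1 / r) = 1 := by field_simp
    have a2 : (2 : ℝ) * (1 / 2) = 1 := by norm_num
    have a3 : (2 : ℝ) * ((1 - θ) / 2) = 1 - θ := by ring
    have a4 : (6 : ℝ) * (θ / 6) = θ := by ring
    rw [a1, a2, a3, a4, ENNReal.rpow_one, ENNReal.rpow_one, mul_assoc, mul_assoc,
      ← ENNReal.rpow_add_of_nonneg _ _ (by linarith) hθ0.le, sub_add_cancel, ENNReal.rpow_one]
  simp_rw [e] at h
  refine h.trans (le_of_eq ?_)
  rw [eLpNorm_eq_lintegral_rpow_enorm_toReal hp0 hp',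
    eLpNorm_eq_lintegral_rpow_enorm_toReal (p := 2) (by norm_num) (by norm_num),
    eLpNorm_eq_lintegral_rpow_enorm_toReal (p := 2) (by norm_num) (by norm_num),
    eLpNorm_eq_lintegral_rpow_enorm_toReal (p := 6) (by norm_num) (by norm_num)]
  have e1 : (2 : ℝ≥0∞).toReal = 2 := by norm_num
  have e2 : (6 : ℝ≥0∞).toReal = 6 := by norm_num
  rw [e1, e2, ← ENNReal.rpow_mul, ← ENNReal.rpow_mul]
  have a3 : (1 / 2 : ℝ) * (1 - θ) = (1 - θ) / 2 := by ring
  have a4 : (1 / 6 : ℝ) * θ = θ / 6 := by ring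
  rw [a3, a4]
  ring

theorem th_le_one {p : ℝ≥0∞} (hp : 3 ≤ p) : th p ≤ 1 := by
  unfold th
  rcases eq_or_ne p ∞ with h | h
  · simp [h]
  · rw [ENNReal.toReal_inv]
    have h3 : 3 ≤ p.toReal := by
      have := (ENNReal.toReal_le_toReal (by norm_num) h).2 hp
      simpa using this
    rw [← div_eq_mul_inv, div_le_one (by linarith)]
    exact h3

theorem th_three : th 3 = 1 := by
  unfold th
  rw [ENNReal.toReal_inv]
  norm_num

theorem holder' {p : ℝ≥0∞} (hp : 3 ≤ p) {s f g : V → ℝ}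
    (hs : AEStronglyMeasurable s (volume.restrict cube))
    (hf : Continuous f) (hg : Continuous g) :
    ∫⁻ x in cube, ‖s x‖ₑ * (‖f x‖ₑ * ‖g x‖ₑ) ≤ eLpNorm s p (volume.restrict cube)
      * (eLpNorm f 2 (volume.restrict cube)
        * (eLpNorm g 2 (volume.restrict cube) ^ (1 - th p)
          * eLpNorm g 6 (volume.restrict cube) ^ (th p))) := by
  rcases eq_or_ne p ∞ with h | h
  · have e : th p = 0 := by unfold th; simp [h]
    rw [e, h]
    simp only [sub_zero, ENNReal.rpow_one, ENNReal.rpow_zero, mul_one]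
    exact holder_top' hf hg
  · have e : th p = 3 / p.toReal := by
      unfold th
      rw [ENNReal.toReal_inv, div_eq_mul_inv]
    rw [e]
    exact holder_fin' hp h hs hf hg

theorem mul_of_Lp' {p : ℝ≥0∞} (hp : 3 ≤ p) : ∃ C : ℝ, 0 ≤ C ∧ ∀ (s : V → ℝ) (β : ℝ),
    AEStronglyMeasurable s (volume.restrict cube) → 0 ≤ β →
      eLpNorm s p (volume.restrict cube) ≤ ENNReal.ofReal β → Mul (th p) (C * β) s := by
  obtain ⟨C, hC0, hC⟩ := sobolev
  set C' : ℝ := C * Real.sqrt 2 with hC'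
  have hC'0 : 0 ≤ C' := by positivity
  refine ⟨C' ^ th p, Real.rpow_nonneg hC'0 _, fun s β hs hβ hsβ f g hf hg hg0 => ?_⟩
  have hθ0 := th_nonneg p
  have hθ1 := th_le_one hp
  have h1 : ENNReal.ofReal |∫ x in cube, s x * (f x * g x)|
      ≤ ∫⁻ x in cube, ‖s x‖ₑ * (‖f x‖ₑ * ‖g x‖ₑ) := by
    have h2 := enorm_integral_le_lintegral_enorm (μ := volume.restrict cube)
      (fun x => s x * (f x * g x))
    rw [← ofReal_norm_eq_enorm, Real.norm_eq_abs] at h2
    refine h2.trans (le_of_eq ?_)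
    refine lintegral_congr fun x => ?_
    rw [enorm_mul, enorm_mul]
  have h6 : eLpNorm g 6 (volume.restrict cube) ≤ ENNReal.ofReal (C' * grd g) := by
    refine (hC g hg).trans (ENNReal.ofReal_le_ofReal ?_)
    rw [hC', mul_assoc]
    refine mul_le_mul_of_nonneg_left ?_ hC0
    rw [← grd_sq, ← nrm_sq]
    have hpo := poincare hg hg0
    calc Real.sqrt (grd g ^ 2 + nrm g ^ 2) ≤ Real.sqrt (2 * grd g ^ 2) := by
          refine Real.sqrt_le_sqrt ?_
          have := pow_le_pow_left₀ (nrm_nonneg g) hpo 2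
          linarith
      _ = Real.sqrt 2 * grd g := by
          rw [Real.sqrt_mul (by norm_num), Real.sqrt_sq (grd_nonneg g)]
  have h3 := holder' hp hs hf.cont hg.cont
  rw [eLpNorm_two hf.cont, eLpNorm_two hg.cont] at h3
  have hn := nrm_nonneg f
  have hn' := nrm_nonneg g
  have hg' := grd_nonneg g
  have h4 : ENNReal.ofReal |∫ x in cube, s x * (f x * g x)|
      ≤ ENNReal.ofReal (β * (nrm f * (nrm g ^ (1 - th p) * (C' * grd g) ^ th p))) := by
    refine h1.trans (h3.trans ?_)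
    rw [ENNReal.ofReal_mul hβ, ENNReal.ofReal_mul hn,
      ENNReal.ofReal_mul (Real.rpow_nonneg hn' _),
      ← ENNReal.ofReal_rpow_of_nonneg hn' (by linarith),
      ← ENNReal.ofReal_rpow_of_nonneg (mul_nonneg hC'0 hg') hθ0]
    gcongr
  have h5 := (ENNReal.ofReal_le_ofReal_iff (by
    have := Real.rpow_nonneg hn' (1 - th p)
    have := Real.rpow_nonneg (mul_nonneg hC'0 hg') (th p)
    positivity)).1 h4
  refine h5.trans (le_of_eq ?_)
  rw [Real.mul_rpow hC'0 hg']
  ring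

theorem int_of_Lp {p : ℝ≥0∞} (hp : 3 ≤ p) {s : V → ℝ} {β : ℝ}
    (hs : AEStronglyMeasurable s (volume.restrict cube))
    (h : eLpNorm s p (volume.restrict cube) ≤ ENNReal.ofReal β) : IntegrableOn s cube := by
  have : IsFiniteMeasure (volume.restrict cube) := cube_finite
  have h1 : MemLp s p (volume.restrict cube) := ⟨hs, h.trans_lt ENNReal.ofReal_lt_top⟩
  exact h1.integrable (le_trans (by norm_num) hp)

end Pool.Agent.U583.HC
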