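import Pool.Agent.U583.HC.Bnd2
import Pool.Agent.U583.HC.Hol
import Pool.Agent.Q63.Win.FromSol

set_option autoImplicit false

/-!
The evolution of the norm with half a derivative.
-/

open MeasureTheory Set Filter Topology
open scoped ContDiff ComplexConjugate RealInnerProductSpace ENNReal

namespace Pool.Agent.U583.HC

open H459R3.NS Pool.Agent.Q63.Win

theorem XX_cof {φ : K3 → ℝ} (hφ : Pol φ) {v : V → V} (hv : ∀ i, SP (fun y => v y i)) :
    XX φ (amp (cof v)) = ∑ i, WS φ (fun y => v y i) := by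
  unfold XX WS
  rw [← Summable.tsum_finsetSum fun i _ => WS_summable hφ (hv i)]
  refine tsum_congr fun k => ?_
  rw [amp_sq, Finset.mul_sum]
  rfl

theorem fr_conv {v : Fin 3 → V → ℝ} (hsp : ∀ i, SP (v i)) (k : K3) (i : Fin 3) :
    fr (conv v i) k = NL (fun k i => fr (v i) k) k i := by
  have : conv v i = fun x => ∑ j, v j x * pd j (v i) x := rfl
  rw [this, fr_sum (fun j _ => (hsp j).mul ((hsp i).pd j))]
  unfold NL
  have hs : ∀ j, HasSum (fun q => fr (v j) (k - q) * fr (pd j (v i)) q)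
      (fr (fun x => v j x * pd j (v i) x) k) := fun j => fr_mul (hsp j) ((hsp i).pd j) k
  have := hasSum_sum fun j (_ : j ∈ Finset.univ) => hs j
  rw [← this.tsum_eq]
  refine tsum_congr fun q => ?_
  refine Finset.sum_congr rfl fun j _ => ?_
  rw [fr_pd (hsp i), D]
  ring

theorem prod_cof {v : V → V} (hv : ∀ i, SP (fun y => v y i)) :
    prod lam (cof v) = ∑ i, ∫ x in cube, conv (fun i y => v y i) i x * Lam (fun y => v y i) x := by
  have h1 : ∀ i, HasSum (fun k => (fr (conv (fun i y => v y i) i) k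
      * conj (fr (Lam (fun y => v y i)) k)).re)
      (∫ x in cube, conv (fun i y => v y i) i x * Lam (fun y => v y i) x) := by
    intro i
    have h := Complex.hasSum_re (hasSum_int (sp_conv hv i) (Lam_sp (hv i)))
    rw [Complex.ofReal_re] at h
    exact h
  have h2 := hasSum_sum fun i (_ : i ∈ Finset.univ) => h1 i
  rw [← h2.tsum_eq]
  unfold Pool.Agent.Q63.Win.prod
  refine tsum_congr fun k => ?_
  rw [Complex.re_sum, Finset.mul_sum]
  refine Finset.sum_congr rfl fun i _ => ?_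
  rw [fr_conv hv, fr_Lam (hv i), map_mul, Complex.conj_ofReal]
  have e : NL (fun k i => fr (fun y => v y i) k) k i * ((lam k : ℂ) * conj (fr (fun y => v y i) k))
      = (lam k : ℂ) * (conj (cof v k i) * NL (cof v) k i) := by
    unfold cof
    ring
  rw [e, Complex.re_ofReal_mul]

variable {ν T : ℝ} {u : ℝ → V → V} {p : ℝ → V → ℝ}

/-- the square of the norm with half a derivative, at time `t` -/
noncomputable def Et (u : ℝ → V → V) (t : ℝ) : ℝ := En fun i y => u t y i

/-- the square of the norm with three halves of a derivative, at time `t` -/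
noncomputable def Dt (u : ℝ → V → V) (t : ℝ) : ℝ := Dn fun i y => u t y i

theorem msym_eq (ν : ℝ) (k : K3) : msym ν k = ν * lam k ^ 2 := by
  unfold msym
  rw [lam_sq]
  ring

theorem Et_deriv (h : IsSol ν T u p) (hν : 0 ≤ ν) {t : ℝ} (ht : t ∈ Ioo 0 T) :
    HasDerivAt (Et u) (-(2 * ν * Dt u t)
      - 2 * ∑ i, ∫ x in cube, conv (fun i y => u t y i) i x * Lam (fun y => u t y i) x) t := by
  have h1 := (fsol_of_isSol h).hasDerivAt_XX (msym_pol hν) pol_lam ht
  have hsp : ∀ s ∈ Ioo 0 T, ∀ i, SP (fun y => u s y i) := fun s hs i => h.sp ⟨hs.1.le, hs.2⟩ i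
  rw [prod_cof (hsp t ht)] at h1
  have e : (fun k => lam k * msym ν k) = fun k => ν * lam k ^ 3 := by
    funext k
    rw [msym_eq]
    ring
  have e2 : XX (fun k => lam k * msym ν k) (amp (cof (u t))) = ν * Dt u t := by
    have h2 := XX_cof (φ := fun k => lam k ^ 3) (pol_pow pol_lam 3) (hsp t ht)
    unfold Dt Dn
    rw [← h2, e]
    unfold XX
    rw [← tsum_mul_left]
    exact tsum_congr fun k => by ring
  rw [e2] at h1
  have h3 : HasDerivAt (Et u) _ t := h1.congr_of_eventuallyEq (by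
    filter_upwards [Ioo_mem_nhds ht.1 ht.2] with s hs
    exact (XX_cof pol_lam (hsp s hs)).symm)
  refine h3.congr_deriv ?_
  ring

theorem Dt_cont (h : IsSol ν T u p) (hν : 0 ≤ ν) : ContinuousOn (Dt u) (Ioo 0 T) := by
  intro t ht
  have h1 := (fsol_of_isSol h).hasDerivAt_XX (msym_pol hν) (pol_pow pol_lam 3) ht
  have h3 := h1.continuousAt.congr (g := Dt u) (by
    filter_upwards [Ioo_mem_nhds ht.1 ht.2] with s hs
    exact XX_cof (pol_pow pol_lam 3) fun i => h.sp ⟨hs.1.le, hs.2⟩ i)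
  exact h3.continuousWithinAt

theorem Et_cont (h : IsSol ν T u p) (hν : 0 ≤ ν) : ContinuousOn (Et u) (Ioo 0 T) := fun _ ht =>
  (Et_deriv h hν ht).continuousAt.continuousWithinAt

theorem Et_nonneg (u : ℝ → V → V) (t : ℝ) : 0 ≤ Et u t := En_nonneg _

theorem Dt_nonneg (u : ℝ → V → V) (t : ℝ) : 0 ≤ Dt u t := Dn_nonneg _

/-- Gronwall for the norm with half a derivative -/
theorem Et_gron (h : IsSol ν T u p) (hν : 0 ≤ ν) {g : ℝ → ℝ} {a b : ℝ} (ha : 0 < a) (hab : a ≤ b)
    (hb : b < T) (hg0 : ∀ s ∈ Ioo a b, 0 ≤ g s) (hgi : IntegrableOn g (Icc a b))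
    (hd : ∀ s ∈ Ioo a b, -(2 * ν * Dt u s)
      - 2 * ∑ i, (∫ x in cube, conv (fun i y => u s y i) i x * Lam (fun y => u s y i) x)
        ≤ g s * Et u s) :
    Et u b ≤ Et u a * Real.exp (∫ s in a..b, g s) := by
  set y : ℝ → ℝ := Et u with hy
  have hy0 : ∀ s, 0 ≤ y s := Et_nonneg u
  have hyc : ContinuousOn y (Icc a b) :=
    (Et_cont h hν).mono fun s hs => ⟨ha.trans_le hs.1, hs.2.trans_lt hb⟩
  set B := ∫ s in a..b, g s with hB
  have hlog : ∀ ε : ℝ, 0 < ε → y b + ε ≤ (y a + ε) * Real.exp B := by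
    intro ε hε
    have hpos : ∀ s, 0 < y s + ε := fun s => by linarith [hy0 s]
    have hc : ContinuousOn (fun s => Real.log (y s + ε)) (Icc a b) :=
      (hyc.add continuousOn_const).log fun s _ => (hpos s).ne'
    have hd' : ∀ s ∈ Ioo a b, HasDerivWithinAt (fun s => Real.log (y s + ε))
        ((-(2 * ν * Dt u s) - 2 * ∑ i, ∫ x in cube, conv (fun i y => u s y i) i x
          * Lam (fun y => u s y i) x) / (y s + ε)) (Ioi s) s := by
      intro s hs
      exact (((Et_deriv h hν ⟨ha.trans hs.1, hs.2.trans hb⟩).add_const ε).log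
        (hpos s).ne').hasDerivWithinAt
    have hle : ∀ s ∈ Ioo a b,
        (-(2 * ν * Dt u s) - 2 * ∑ i, ∫ x in cube, conv (fun i y => u s y i) i x
          * Lam (fun y => u s y i) x) / (y s + ε) ≤ g s := by
      intro s hs
      rw [div_le_iff₀ (hpos s)]
      refine (hd s hs).trans ?_
      exact mul_le_mul_of_nonneg_left (by linarith) (hg0 s hs)
    have h1 := intervalIntegral.sub_le_integral_of_hasDeriv_right_of_le hab hc hd' hgi hle
    have h2 : Real.log (y b + ε) ≤ Real.log (y a + ε) + B := by linarith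
    calc y b + ε = Real.exp (Real.log (y b + ε)) := (Real.exp_log (hpos b)).symm
      _ ≤ Real.exp (Real.log (y a + ε) + B) := Real.exp_le_exp.2 h2
      _ = (y a + ε) * Real.exp B := by rw [Real.exp_add, Real.exp_log (hpos a)]
  have hlim1 : Tendsto (fun ε : ℝ => y b + ε) (𝓝[>] 0) (𝓝 (y b + 0)) :=
    (tendsto_const_nhds.add tendsto_id).mono_left nhdsWithin_le_nhds
  have hlim2 : Tendsto (fun ε : ℝ => (y a + ε) * Real.exp B) (𝓝[>] 0)
      (𝓝 ((y a + 0) * Real.exp B)) :=
    ((tendsto_const_nhds.add tendsto_id).mul_const _).mono_left nhdsWithin_le_nhds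
  have := le_of_tendsto_of_tendsto hlim1 hlim2 (by
    filter_upwards [self_mem_nhdsWithin] with ε hε
    exact hlog ε hε)
  simpa using this

/-- Cauchy-Schwarz -/
theorem enstrophy_sq_le {v : V → V} (hv : ∀ i, SP (fun y => v y i)) :
    enstrophy v ^ 2 ≤ En (fun i y => v y i) * Dn (fun i y => v y i) := by
  have h1 : enstrophy v = ∑ i, WS (fun k => lam k ^ 2) (fun y => v y i) := by
    unfold enstrophy
    refine Finset.sum_congr rfl fun i _ => ?_
    rw [← grd_WS (hv i), grd_sq]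
  set a : K3 → ℝ := fun k => ∑ i, ‖fr (fun y => v y i) k‖ ^ 2 with ha
  have ha0 : ∀ k, 0 ≤ a k := fun k => Finset.sum_nonneg fun _ _ => sq_nonneg _
  have hsum : ∀ φ : K3 → ℝ, Pol φ → (∑ i, WS φ (fun y => v y i)) = ∑' k, φ k * a k ∧
      Summable fun k => φ k * a k := by
    intro φ hφ
    have e : ∀ k, φ k * a k = ∑ i, φ k * ‖fr (fun y => v y i) k‖ ^ 2 := fun k => by
      rw [ha, Finset.mul_sum]
    simp_rw [e]
    refine ⟨?_, summable_sum fun i _ => WS_summable hφ (hv i)⟩
    rw [Summable.tsum_finsetSum fun i _ => WS_summable hφ (hv i)]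
    rfl
  obtain ⟨e1, s1⟩ := hsum lam pol_lam
  obtain ⟨e2, s2⟩ := hsum (fun k => lam k ^ 2) (pol_pow pol_lam 2)
  obtain ⟨e3, s3⟩ := hsum (fun k => lam k ^ 3) (pol_pow pol_lam 3)
  unfold En Dn
  rw [h1, e1, e2, e3]
  -- a quadratic polynomial that is nonnegative
  have key : ∀ x : ℝ, 0 ≤ (∑' k, lam k * a k) * (x * x) + (-2 * ∑' k, lam k ^ 2 * a k) * x
      + ∑' k, lam k ^ 3 * a k := by
    intro x
    have h2 : 0 ≤ ∑' k, lam k * a k * (x - lam k) ^ 2 :=
      tsum_nonneg fun k => mul_nonneg (mul_nonneg (lam_nonneg k) (ha0 k)) (sq_nonneg _)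
    have h3 : (∑' k, lam k * a k * (x - lam k) ^ 2) = (∑' k, lam k * a k) * (x * x)
        + (-2 * ∑' k, lam k ^ 2 * a k) * x + ∑' k, lam k ^ 3 * a k := by
      have t1 := s1.mul_right (x * x)
      have t2 := (s2.mul_left (-2)).mul_right x
      rw [← tsum_mul_right, ← tsum_mul_left, ← tsum_mul_right, ← t1.tsum_add t2,
        ← (t1.add t2).tsum_add s3]
      exact tsum_congr fun k => by ring
    rw [← h3]
    exact h2
  have hdis := discrim_le_zero key
  unfold discrim at hdis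
  nlinarith

end Pool.Agent.U583.HC
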