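import Pool.Agent.U583.HC.Evl
import Pool.Agent.H459R3.NS.Iso

set_option autoImplicit false

/-!
The criterion.
-/

open MeasureTheory Set Filter Topology
open scoped ContDiff ComplexConjugate RealInnerProductSpace ENNReal

namespace Pool.Agent.U583.HC

open H459R3.NS Pool.Agent.Q63.Win

variable {ν T : ℝ} {u : ℝ → V → V} {P : ℝ → V → ℝ}

/-- the nonlinear term -/
noncomputable def Wt (u : ℝ → V → V) (t : ℝ) : ℝ :=
  ∑ i, ∫ x in cube, conv (fun i y => u t y i) i x * Lam (fun y => u t y i) x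

theorem Et_bound (h : IsSol ν T u P) (hν : 0 < ν) {g : ℝ → ℝ} (hg0 : ∀ t ∈ Ioo 0 T, 0 ≤ g t)
    (hgi : IntegrableOn g (Ioo 0 T))
    (hd : ∀ t ∈ Ioo 0 T, -(2 * ν * Dt u t) - 2 * Wt u t ≤ -(ν * Dt u t) + g t * Et u t)
    {a b : ℝ} (ha : 0 < a) (hab : a ≤ b) (hb : b < T) :
    Et u b ≤ Et u a * Real.exp (∫ s in a..b, g s) := by
  have hsub : Icc a b ⊆ Ioo 0 T := fun s hs => ⟨ha.trans_le hs.1, hs.2.trans_lt hb⟩
  refine Et_gron h hν.le ha hab hb (fun s hs => hg0 s (hsub (Ioo_subset_Icc_self hs)))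
    (hgi.mono_set hsub) fun s hs => ?_
  have h1 := hd s (hsub (Ioo_subset_Icc_self hs))
  have h2 := mul_nonneg hν.le (Dt_nonneg u s)
  unfold Wt at h1
  linarith

theorem int_Dt_bound (h : IsSol ν T u P) (hν : 0 < ν) {g : ℝ → ℝ} (hg0 : ∀ t ∈ Ioo 0 T, 0 ≤ g t)
    (hgi : IntegrableOn g (Ioo 0 T))
    (hd : ∀ t ∈ Ioo 0 T, -(2 * ν * Dt u t) - 2 * Wt u t ≤ -(ν * Dt u t) + g t * Et u t)
    {a : ℝ} (ha : 0 < a) : ∃ E D : ℝ, 0 ≤ E ∧ 0 ≤ D ∧ (∀ t ∈ Ico a T, Et u t ≤ E) ∧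
      ∀ t ∈ Ico a T, ∫ s in a..t, Dt u s ≤ D := by
  set I := ∫ t in Ioo 0 T, g t with hI
  have hI0 : 0 ≤ I := setIntegral_nonneg measurableSet_Ioo hg0
  set E := Et u a * Real.exp I with hE
  have hEa := Et_nonneg u a
  have hE0 : 0 ≤ E := mul_nonneg hEa (Real.exp_pos _).le
  have hint : ∀ t ∈ Ico a T, ∫ s in a..t, g s ≤ I := by
    intro t ht
    rw [intervalIntegral.integral_of_le ht.1, integral_Ioc_eq_integral_Ioo]
    refine setIntegral_mono_set hgi ?_ (Ioo_subset_Ioo ha.le ht.2.le).eventuallyLE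
    filter_upwards [ae_restrict_mem measurableSet_Ioo] with s hs
    exact hg0 s hs
  have h1 : ∀ t ∈ Ico a T, Et u t ≤ E := by
    intro t ht
    refine (Et_bound h hν hg0 hgi hd ha ht.1 ht.2).trans ?_
    exact mul_le_mul_of_nonneg_left (Real.exp_le_exp.2 (hint t ht)) hEa
  refine ⟨E, (Et u a + E * I) / ν, hE0, by positivity, h1, fun t ht => ?_⟩
  have hsub : Icc a t ⊆ Ioo 0 T := fun s hs => ⟨ha.trans_le hs.1, hs.2.trans_lt ht.2⟩
  have hg1 : IntegrableOn g (Icc a t) := hgi.mono_set hsub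
  have hDc : ContinuousOn (Dt u) (Icc a t) := (Dt_cont h hν.le).mono hsub
  have hEc : ContinuousOn (Et u) (Icc a t) := (Et_cont h hν.le).mono hsub
  have hD1 : IntegrableOn (Dt u) (Icc a t) := hDc.integrableOn_Icc
  have hφ : IntegrableOn (fun s => -(ν * Dt u s) + E * g s) (Icc a t) :=
    ((hD1.const_mul ν).neg).add (hg1.const_mul _)
  have h2 := intervalIntegral.sub_le_integral_of_hasDeriv_right_of_le ht.1 hEc
    (fun s hs => (Et_deriv h hν.le (hsub (Ioo_subset_Icc_self hs))).hasDerivWithinAt) hφ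
    (fun s hs => by
      have hs' := hsub (Ioo_subset_Icc_self hs)
      have a1 := hd s hs'
      have a2 : g s * Et u s ≤ E * g s := by
        rw [mul_comm]
        exact mul_le_mul_of_nonneg_right (h1 s ⟨hs.1.le, hs.2.trans ht.2⟩) (hg0 s hs')
      unfold Wt at a1
      linarith)
  have i1 : IntervalIntegrable g volume a t :=
    (intervalIntegrable_iff_integrableOn_Icc_of_le ht.1).2 hg1
  have i2 : IntervalIntegrable (Dt u) volume a t :=
    (intervalIntegrable_iff_integrableOn_Icc_of_le ht.1).2 hD1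
  have j1 : IntervalIntegrable (fun s => -(ν * Dt u s)) volume a t := (i2.const_mul ν).neg
  have j2 : IntervalIntegrable (fun s => E * g s) volume a t := i1.const_mul _
  rw [intervalIntegral.integral_add j1 j2, intervalIntegral.integral_neg,
    intervalIntegral.integral_const_mul, intervalIntegral.integral_const_mul] at h2
  have a1 := mul_le_mul_of_nonneg_left (hint t ht) hE0
  have a4 := Et_nonneg u t
  rw [le_div_iff₀ hν]
  linarith

/-- boundedness of the velocity -/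
theorem bounded_of_key (h : IsSol ν T u P) (hν : 0 < ν) {g : ℝ → ℝ} (hg0 : ∀ t ∈ Ioo 0 T, 0 ≤ g t)
    (hgi : IntegrableOn g (Ioo 0 T))
    (hd : ∀ t ∈ Ioo 0 T, -(2 * ν * Dt u t) - 2 * Wt u t ≤ -(ν * Dt u t) + g t * Et u t) :
    ∃ M, ∀ t ∈ Ico 0 T, ∀ x i, |u t x i| ≤ M := by
  rcases le_or_gt T 0 with hT | hT
  · exact ⟨0, fun t ht => absurd (ht.1.trans_lt ht.2) (not_lt.2 hT)⟩
  set a := T / 2 with ha
  have ha0 : 0 < a := by positivity
  have haT : a < T := by rw [ha]; linarith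
  obtain ⟨E, D, hE0, hD0, hE, hD⟩ := int_Dt_bound h hν hg0 hgi hd ha0
  obtain ⟨C6, hC60, hC6⟩ := sobolev
  set e0 := energy (u 0) with he0
  have he00 : 0 ≤ e0 := energy_nonneg _
  set y : ℝ → ℝ := fun t => enstrophy (u t) with hy
  have hy0 : ∀ t, 0 ≤ y t := fun t => enstrophy_nonneg _
  set β : ℝ → ℝ := fun t => C6 * Real.sqrt (y t + e0) with hβ
  have hβ0 : ∀ t, 0 ≤ β t := fun t => by positivity
  have hβ4 : ∀ t, β t ^ (4 : ℝ) = C6 ^ 4 * (y t + e0) ^ 2 := by
    intro t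
    have : β t ^ (4 : ℝ) = β t ^ 4 := by
      rw [← Real.rpow_natCast]
      norm_num
    rw [this, hβ]
    have h1 : Real.sqrt (y t + e0) ^ 2 = y t + e0 := Real.sq_sqrt (add_nonneg (hy0 t) he00)
    calc (C6 * Real.sqrt (y t + e0)) ^ 4 = C6 ^ 4 * (Real.sqrt (y t + e0) ^ 2) ^ 2 := by ring
      _ = _ := by rw [h1]
  -- integrability
  have hycT : ContinuousOn y (Ico 0 T) := h.enstrophy_continuousOn
  set f : ℝ → ℝ := fun t => C6 ^ 4 * (y t + e0) ^ 2 with hf
  have hf0 : ∀ t, 0 ≤ f t := fun t => by positivity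
  have hfc : ContinuousOn f (Ico 0 T) :=
    continuousOn_const.mul ((hycT.add continuousOn_const).pow 2)
  have hyD : ∀ t ∈ Ioo 0 T, y t ^ 2 ≤ Et u t * Dt u t := fun t ht =>
    enstrophy_sq_le (v := u t) fun i => h.sp ⟨ht.1.le, ht.2⟩ i
  have hfi : ∀ t ∈ Ico 0 T, IntervalIntegrable f volume 0 t := fun t ht =>
    (intervalIntegrable_iff_integrableOn_Icc_of_le ht.1).2
      (hfc.mono fun s hs => ⟨hs.1, hs.2.trans_lt ht.2⟩).integrableOn_Icc
  have hbd : ∀ t ∈ Ico a T, ∫ s in a..t, f s ≤ 2 * C6 ^ 4 * (E * D + e0 ^ 2 * T) := by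
    intro t ht
    have hsub : Icc a t ⊆ Ioo 0 T := fun s hs => ⟨ha0.trans_le hs.1, hs.2.trans_lt ht.2⟩
    have hDc : ContinuousOn (Dt u) (Icc a t) := (Dt_cont h hν.le).mono hsub
    have i2 : IntervalIntegrable (Dt u) volume a t := hDc.intervalIntegrable_of_Icc ht.1
    have i3 : IntervalIntegrable (fun s => 2 * C6 ^ 4 * (E * Dt u s) + 2 * C6 ^ 4 * e0 ^ 2)
        volume a t := ((i2.const_mul E).const_mul _).add intervalIntegrable_const
    have i4 : IntervalIntegrable f volume a t :=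
      (hfc.mono fun s hs => ⟨(ha0.trans_le hs.1).le, hs.2.trans_lt ht.2⟩).intervalIntegrable_of_Icc
        ht.1
    have h1 : ∫ s in a..t, f s ≤ ∫ s in a..t, (2 * C6 ^ 4 * (E * Dt u s) + 2 * C6 ^ 4 * e0 ^ 2) := by
      refine intervalIntegral.integral_mono_on ht.1 i4 i3 fun s hs => ?_
      have hs' := hsub hs
      have h2 := hyD s hs'
      have h3 : Et u s * Dt u s ≤ E * Dt u s :=
        mul_le_mul_of_nonneg_right (hE s ⟨hs.1, hs.2.trans_lt ht.2⟩) (Dt_nonneg u s)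
      have h4 : (y s + e0) ^ 2 ≤ 2 * (E * Dt u s) + 2 * e0 ^ 2 := by
        nlinarith [sq_nonneg (y s - e0)]
      calc f s = C6 ^ 4 * (y s + e0) ^ 2 := rfl
        _ ≤ C6 ^ 4 * (2 * (E * Dt u s) + 2 * e0 ^ 2) := by gcongr
        _ = _ := by ring
    refine h1.trans ?_
    rw [intervalIntegral.integral_add ((i2.const_mul E).const_mul _) intervalIntegrable_const,
      intervalIntegral.integral_const_mul, intervalIntegral.integral_const_mul,
      intervalIntegral.integral_const, smul_eq_mul]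
    have h5 := hD t ht
    have h6 : t - a ≤ T := by linarith [ht.2]
    have h7 : 0 ≤ t - a := by linarith [ht.1]
    calc 2 * C6 ^ 4 * (E * ∫ s in a..t, Dt u s) + (t - a) * (2 * C6 ^ 4 * e0 ^ 2)
        ≤ 2 * C6 ^ 4 * (E * D) + T * (2 * C6 ^ 4 * e0 ^ 2) := by gcongr
      _ = _ := by ring
  have hfint : IntegrableOn f (Ioo 0 T) := by
    rw [← integrableOn_Ioc_iff_integrableOn_Ioo]
    set b : ℕ → ℝ := fun n => T - a / (n + 1) with hb
    have hbT : ∀ n, b n < T := fun n => by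
      have : 0 < a / ((n : ℝ) + 1) := by positivity
      simp only [hb]
      linarith
    have hab : ∀ n, a ≤ b n := fun n => by
      have h1 : a / ((n : ℝ) + 1) ≤ a := by
        apply div_le_self ha0.le
        have : (0 : ℝ) ≤ n := Nat.cast_nonneg n
        linarith
      simp only [hb]
      have : T = 2 * a := by rw [ha]; ring
      linarith
    have hb0 : ∀ n, 0 ≤ b n := fun n => ha0.le.trans (hab n)
    have hblim : Tendsto b atTop (𝓝 T) := by
      have h1 : Tendsto (fun n : ℕ => a / ((n : ℝ) + 1)) atTop (𝓝 0) := by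
        have h0 := (tendsto_one_div_add_atTop_nhds_zero_nat (𝕜 := ℝ)).const_mul a
        simpa [div_eq_mul_inv] using h0
      have h2 := h1.const_sub T
      simpa using h2
    have hii : ∀ n, IntegrableOn f (Ioc 0 (b n)) := fun n =>
      (intervalIntegrable_iff_integrableOn_Ioc_of_le (hb0 n)).1 (hfi _ ⟨hb0 n, hbT n⟩)
    refine integrableOn_Ioc_of_intervalIntegral_norm_bounded_right
      (I := (∫ s in (0 : ℝ)..a, f s) + 2 * C6 ^ 4 * (E * D + e0 ^ 2 * T)) hii hblim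
      (Eventually.of_forall fun n => ?_)
    have e1 : ∀ x, ‖f x‖ = f x := fun x => by rw [Real.norm_eq_abs, abs_of_nonneg (hf0 x)]
    simp_rw [e1]
    rw [← intervalIntegral.integral_of_le (hb0 n)]
    have hai := hfi a ⟨ha0.le, haT⟩
    have hbi := hfi (b n) ⟨hb0 n, hbT n⟩
    rw [← intervalIntegral.integral_add_adjacent_intervals hai (hai.symm.trans hbi)]
    have := hbd (b n) ⟨hab n, hbT n⟩
    linarith
  -- the Serrin criterion
  obtain ⟨C, -, hC⟩ := serrin (p := 6) (by norm_num) (q := 4) (by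
    rw [ENNReal.toReal_inv]
    norm_num) hν (K := 1) zero_le_one (lam := 0) (κ := 0) le_rfl (by norm_num)
  refine (hC T 0 u P β (fun _ => 0) h le_rfl (fun t ht => ⟨hβ0 t, le_rfl⟩) (by
    simp_rw [hβ4]
    exact hfint) integrableOn_zero fun t ht => ?_).2
  have hI : t ∈ Ico 0 T := ⟨ht.1.le, ht.2⟩
  have hz : stretch (fun _ => (0 : V)) = 0 := by
    unfold stretch pd
    simp
  have hp0 : palin (fun _ => (0 : V)) = 0 := by
    unfold palin lap pd
    simp
  refine ⟨fun _ => 0, fun _ => 0, ∅, SPV.zero, SPV.zero, dimTwo_empty,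
    fun i k _ => fr_zero k, ?_, ?_, ?_, ?_, fun i => ?_⟩
  · rw [enstrophy_zero, one_pow, one_mul]
    exact enstrophy_nonneg _
  · rw [hp0, one_pow, one_mul]
    exact palin_nonneg _
  · rw [enstrophy_zero, one_pow, one_mul]
    exact enstrophy_nonneg _
  · rw [hz]
    simp
  · have e : (fun x => u t x i - (0 : V) i - (0 : V) i) = fun x => u t x i := by
      funext x
      simp only [Pi.zero_apply, sub_zero]
    show eLpNorm (fun x => u t x i - (0 : V) i - (0 : V) i) 6 _ ≤ _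
    rw [e]
    refine (hC6 _ (h.sp hI i)).trans (ENNReal.ofReal_le_ofReal ?_)
    refine mul_le_mul_of_nonneg_left (Real.sqrt_le_sqrt ?_) hC60
    refine add_le_add ?_ ?_
    · exact Finset.single_le_sum (f := fun i => ∑ j, ∫ x in cube, pd j (fun y => u t y i) x ^ 2)
        (fun _ _ => Finset.sum_nonneg fun _ _ => integral_nonneg fun _ => sq_nonneg _)
        (Finset.mem_univ i)
    · refine le_trans ?_ (h.energy_le hν hI)
      exact Finset.single_le_sum (f := fun i => ∫ x in cube, u t x i ^ 2)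
        (fun _ _ => integral_nonneg fun _ => sq_nonneg _) (Finset.mem_univ i)

/-- The criterion. -/
theorem crit : ∃ c : ℝ, 0 < c ∧ ∀ p : ℝ≥0∞, 3 < p → ∀ q : ℝ, 3 * (p⁻¹).toReal + 2 / q = 1 →
    ∀ ν : ℝ, 0 < ν → ∃ C : ℝ, 0 ≤ C ∧ ∀ (T : ℝ) (u : ℝ → V → V) (P : ℝ → V → ℝ) (β : ℝ → ℝ),
      IsSol ν T u P → (∀ t ∈ Ioo 0 T, 0 ≤ β t) → IntegrableOn (fun t => β t ^ q) (Ioo 0 T) →
      (∀ t ∈ Ioo 0 T, ∃ (s : ℝ) (y w : Fin 3 → V → ℝ), s * s = 1 ∧
        (∀ i, AEStronglyMeasurable (y i) (volume.restrict cube)) ∧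
        (∀ i, AEStronglyMeasurable (w i) (volume.restrict cube)) ∧
        (∀ i, ∀ᵐ x ∂(volume.restrict cube), hp s (fun i y => u t y i) i x = y i x + w i x) ∧
        (∀ i, eLpNorm (y i) 3 (volume.restrict cube) ≤ ENNReal.ofReal (c * ν)) ∧
        ∀ i, eLpNorm (w i) p (volume.restrict cube) ≤ ENNReal.ofReal (β t)) →
      (∀ a b, 0 < a → a ≤ b → b < T → Et u b ≤ Et u a * Real.exp (C * ∫ t in a..b, β t ^ q)) ∧
      ∃ M, ∀ t ∈ Ico 0 T, ∀ x i, |u t x i| ≤ M := by
  obtain ⟨K, hK, hst⟩ := static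
  obtain ⟨C3, hC3, hm3⟩ := mul_of_Lp' (p := 3) le_rfl
  rw [th_three] at hm3
  set c : ℝ := 1 / (4 * (K * C3 + 1)) with hc
  have hc0 : 0 < c := by positivity
  have hcK : K * C3 * c ≤ 1 / 4 := by
    rw [hc, mul_one_div, div_le_div_iff₀ (by positivity) (by norm_num)]
    nlinarith [mul_nonneg hK hC3]
  refine ⟨c, hc0, fun p hp3 q hpq ν hν => ?_⟩
  set θ := th p with hθ
  have hθ0 : 0 ≤ θ := th_nonneg p
  have hθ1 : θ < 1 := th_lt_one hp3
  have hq : q = 2 / (1 - θ) := by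
    have h1 : 2 / q = 1 - θ := by
      have : θ = 3 * (p⁻¹).toReal := rfl
      rw [this]
      linarith
    rw [← h1]
    have : q ≠ 0 := by
      intro h0
      rw [h0, div_zero] at h1
      linarith
    field_simp
  obtain ⟨Cp, hCp, hmp⟩ := mul_of_Lp' (p := p) hp3.le
  obtain ⟨C0, hC0, hineq⟩ := hst θ hθ0 hθ1 (ν / 4) (by positivity)
  set C := 2 * C0 * Cp ^ q with hC
  have hC' : 0 ≤ C := by positivity
  refine ⟨C, hC', fun T u P β h hβ0 hβi hu => ?_⟩
  have hg0 : ∀ t ∈ Ioo 0 T, 0 ≤ C * β t ^ q := fun t ht =>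
    mul_nonneg hC' (Real.rpow_nonneg (hβ0 t ht) q)
  have hgi : IntegrableOn (fun t => C * β t ^ q) (Ioo 0 T) := hβi.const_mul C
  have hd : ∀ t ∈ Ioo 0 T, -(2 * ν * Dt u t) - 2 * Wt u t
      ≤ -(ν * Dt u t) + (C * β t ^ q) * Et u t := by
    intro t ht
    obtain ⟨s, y, w, hs, hym, hwm, he, hy, hw⟩ := hu t ht
    have hI : t ∈ Ico 0 T := ⟨ht.1.le, ht.2⟩
    have hβt := hβ0 t ht
    have hsplit : ∀ i, Split θ (C3 * (c * ν)) (Cp * β t) (hp s (fun i y => u t y i) i) (y i) (w i) :=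
      fun i => ⟨int_of_Lp le_rfl (hym i) (hy i), int_of_Lp hp3.le (hwm i) (hw i), he i,
        hm3 _ _ (hym i) (by positivity) (hy i), hmp _ _ (hwm i) hβt (hw i)⟩
    have h1 := hineq (fun i y => u t y i) y w s (C3 * (c * ν)) (Cp * β t) (fun i => h.sp hI i)
      (h.divfree t hI) hs (by positivity) (by positivity) hsplit
    rw [← hq, Real.mul_rpow hCp hβt] at h1
    have h2 : |Wt u t| ≤ (K * (C3 * (c * ν)) + ν / 4) * Dt u t
        + C0 * (Cp ^ q * β t ^ q * Et u t) := h1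
    have h3 : K * (C3 * (c * ν)) + ν / 4 ≤ ν / 2 := by
      have : K * (C3 * (c * ν)) = (K * C3 * c) * ν := by ring
      rw [this]
      have := mul_le_mul_of_nonneg_right hcK hν.le
      linarith
    have h4 := mul_le_mul_of_nonneg_right h3 (Dt_nonneg u t)
    have h5 := neg_abs_le (Wt u t)
    have h6 : (C * β t ^ q) * Et u t = 2 * (C0 * (Cp ^ q * β t ^ q * Et u t)) := by
      rw [hC]; ring
    rw [h6]
    linarith
  refine ⟨fun a b ha hab hb => ?_, bounded_of_key h hν hg0 hgi hd⟩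
  have h1 := Et_bound h hν hg0 hgi hd ha hab hb
  rw [intervalIntegral.integral_const_mul] at h1
  exact h1

end Pool.Agent.U583.HC
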