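import Mathlib

set_option autoImplicit false

/-!
The kernel of `√(-Δ)`.
-/

open MeasureTheory Set Filter Topology Metric
open scoped RealInnerProductSpace

namespace Pool.Agent.U583.HC

/-- Euclidean space -/
abbrev E3 := EuclideanSpace ℝ (Fin 3)

/-- the majorant -/
noncomputable def mj (h : E3) : ℝ := min (‖h‖ ^ 2) 1 / ‖h‖ ^ 4

theorem mj_nonneg (h : E3) : 0 ≤ mj h := by unfold mj; positivity

theorem mj_int : Integrable mj := by
  have h := integrable_fun_norm_addHaar (volume : Measure E3) (f := fun r : ℝ => min (r ^ 2) 1 / r ^ 4)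
  have hdim : Module.finrank ℝ E3 = 3 := by simp
  rw [hdim] at h
  refine h.2 ?_
  have hsplit : (Ioi (0:ℝ)) = Ioc 0 1 ∪ Ioi 1 := (Ioc_union_Ioi_eq_Ioi zero_le_one).symm
  rw [hsplit, integrableOn_union]
  constructor
  · have h1 : IntegrableOn (fun _ : ℝ => (1:ℝ)) (Ioc 0 1) := by
      simp
    refine h1.congr_fun (fun y hy => ?_) measurableSet_Ioc
    have hy0 : 0 < y := hy.1
    have hmin : min (y ^ 2) 1 = y ^ 2 := min_eq_left (pow_le_one₀ hy0.le hy.2)
    simp only [smul_eq_mul]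
    rw [hmin]
    field_simp
  · have h1 : IntegrableOn (fun y : ℝ => y ^ (-2 : ℝ)) (Ioi 1) :=
      integrableOn_Ioi_rpow_of_lt (by norm_num) one_pos
    refine h1.congr_fun (fun y hy => ?_) measurableSet_Ioi
    have hy0 : 1 < y := hy
    have hy1 : 0 < y := one_pos.trans hy0
    have hmin : min (y ^ 2) 1 = 1 := min_eq_right (one_le_pow₀ hy0.le)
    simp only [smul_eq_mul]
    rw [hmin, Real.rpow_neg hy1.le, show (2:ℝ) = ((2:ℕ):ℝ) by norm_num, Real.rpow_natCast]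
    field_simp

/-- the integrand -/
noncomputable def ci (k h : E3) : ℝ := (1 - Real.cos (2 * Real.pi * ⟪k, h⟫)) / ‖h‖ ^ 4

theorem ci_nonneg (k h : E3) : 0 ≤ ci k h := by
  unfold ci
  have := Real.cos_le_one (2 * Real.pi * ⟪k, h⟫)
  have h1 : 0 ≤ 1 - Real.cos (2 * Real.pi * ⟪k, h⟫) := by linarith
  positivity

theorem ci_meas (k : E3) : Measurable (ci k) := by
  unfold ci
  fun_prop

theorem ci_le (k h : E3) : ci k h ≤ (2 + 2 * Real.pi ^ 2 * ‖k‖ ^ 2) * mj h := by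
  unfold ci mj
  rw [← mul_div_assoc]
  refine div_le_div_of_nonneg_right ?_ (by positivity)
  have h1 : 1 - Real.cos (2 * Real.pi * ⟪k, h⟫) ≤ 2 := by
    linarith [Real.neg_one_le_cos (2 * Real.pi * ⟪k, h⟫)]
  have h2 : 1 - Real.cos (2 * Real.pi * ⟪k, h⟫) ≤ 2 * Real.pi ^ 2 * ‖k‖ ^ 2 * ‖h‖ ^ 2 := by
    have h3 := Real.one_sub_sq_div_two_le_cos (x := 2 * Real.pi * ⟪k, h⟫)
    have h4 : (⟪k, h⟫ : ℝ) ^ 2 ≤ ‖k‖ ^ 2 * ‖h‖ ^ 2 := by
      rw [← mul_pow]
      exact sq_le_sq' (by linarith [neg_le_of_abs_le (abs_real_inner_le_norm k h)])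
        (real_inner_le_norm k h)
    have h5 : (2 * Real.pi * ⟪k, h⟫) ^ 2 / 2 ≤ 2 * Real.pi ^ 2 * ‖k‖ ^ 2 * ‖h‖ ^ 2 := by
      calc (2 * Real.pi * ⟪k, h⟫) ^ 2 / 2 = 2 * Real.pi ^ 2 * (⟪k, h⟫ : ℝ) ^ 2 := by ring
        _ ≤ 2 * Real.pi ^ 2 * (‖k‖ ^ 2 * ‖h‖ ^ 2) := by gcongr
        _ = _ := by ring
    linarith
  rcases le_total (‖h‖ ^ 2) 1 with h6 | h6
  · rw [min_eq_left h6]
    have : 0 ≤ 2 * ‖h‖ ^ 2 := by positivity
    linarith
  · rw [min_eq_right h6]
    have : 0 ≤ 2 * Real.pi ^ 2 * ‖k‖ ^ 2 := by positivity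
    linarith

theorem ci_int (k : E3) : Integrable (ci k) := by
  refine Integrable.mono' (mj_int.const_mul (2 + 2 * Real.pi ^ 2 * ‖k‖ ^ 2))
    (ci_meas k).aestronglyMeasurable (ae_of_all _ fun h => ?_)
  rw [Real.norm_eq_abs, abs_of_nonneg (ci_nonneg k h)]
  exact ci_le k h

/-- `∫ (1 - cos (2 π k · h)) |h|⁻⁴ dh` -/
noncomputable def CI (k : E3) : ℝ := ∫ h, ci k h

theorem CI_rot (R : E3 ≃ₗᵢ[ℝ] E3) (k : E3) : CI (R k) = CI k := by
  unfold CI
  have h := R.measurePreserving.integral_comp R.toHomeomorph.measurableEmbedding (fun h => ci (R k) h)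
  rw [← h]
  congr 1
  funext y
  unfold ci
  rw [R.inner_map_map, R.norm_map]

theorem CI_smul {t : ℝ} (ht : 0 < t) (k : E3) : CI (t • k) = t * CI k := by
  unfold CI
  have h := Measure.integral_comp_smul (volume : Measure E3) (fun y => ci k y) t
  have hdim : Module.finrank ℝ E3 = 3 := by simp
  rw [hdim, abs_of_pos (by positivity), smul_eq_mul] at h
  have e : ∀ y, ci (t • k) y = t ^ 4 * ci k (t • y) := by
    intro y
    unfold ci
    rw [real_inner_smul_left, real_inner_smul_right, norm_smul, Real.norm_eq_abs, abs_of_pos ht,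
      mul_pow]
    by_cases hy : ‖y‖ = 0
    · rw [hy]
      simp
    · field_simp
  simp_rw [e]
  rw [integral_const_mul, h]
  field_simp

/-- the standard unit vector -/
noncomputable def e0 : E3 := EuclideanSpace.single 0 1

theorem norm_e0 : ‖e0‖ = 1 := by unfold e0; simp

/-- the constant -/
noncomputable def kap : ℝ := CI e0

theorem CI_zero : CI 0 = 0 := by
  unfold CI ci
  simp

theorem CI_eq (k : E3) : CI k = kap * ‖k‖ := by
  by_cases hk : k = 0
  · rw [hk, CI_zero, norm_zero, mul_zero]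
  have hn : 0 < ‖k‖ := norm_pos_iff.2 hk
  have h1 : CI (‖k‖ • e0) = ‖k‖ * CI e0 := CI_smul hn e0
  have h2 : ‖(‖k‖ • e0 : E3)‖ = ‖k‖ := by rw [norm_smul, norm_e0, mul_one, norm_norm]
  set R : E3 ≃ₗᵢ[ℝ] E3 := (ℝ ∙ (‖k‖ • e0 - k))ᗮ.reflection with hR
  have h3 : R (‖k‖ • e0) = k := Submodule.reflection_sub h2
  rw [← h3, CI_rot, h1, h3]
  unfold kap
  ring

theorem kap_pos : 0 < kap := by
  unfold kap CI
  set c : E3 := (1 / 2 : ℝ) • e0 with hc
  have hcn : ‖c‖ = 1 / 2 := by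
    rw [hc, norm_smul, norm_e0, mul_one, Real.norm_eq_abs, abs_of_pos (by norm_num)]
  have hcont : ContinuousAt (ci e0) c := by
    unfold ci
    refine ContinuousAt.div ?_ ?_ ?_
    · fun_prop
    · fun_prop
    · rw [hcn]; norm_num
  have hval : 0 < ci e0 c := by
    unfold ci
    have h1 : (⟪e0, c⟫ : ℝ) = 1 / 2 := by
      rw [hc, real_inner_smul_right, real_inner_self_eq_norm_sq, norm_e0]
      norm_num
    rw [h1, hcn]
    have : 2 * Real.pi * (1 / 2) = Real.pi := by ring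
    rw [this, Real.cos_pi]
    norm_num
  rw [integral_pos_iff_support_of_nonneg (fun h => ci_nonneg e0 h) (ci_int e0)]
  have h2 : ∀ᶠ y in 𝓝 c, 0 < ci e0 y := hcont.eventually (lt_mem_nhds hval)
  obtain ⟨ε, hε, hball⟩ := Metric.eventually_nhds_iff_ball.1 h2
  refine (measure_ball_pos volume c hε).trans_le (measure_mono fun y hy => ?_)
  exact (hball y hy).ne'

end Pool.Agent.U583.HC
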