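import Pool.Agent.U583.HC.Lam

set_option autoImplicit false

/-!
The identity for the nonlinear term at the level of the half derivative.
-/

open MeasureTheory Set Filter Topology
open scoped ContDiff ComplexConjugate

namespace Pool.Agent.U583.HC

open H459R3.NS Pool.Agent.Q63.Win

theorem pd_sub {f g : V → ℝ} (hf : SP f) (hg : SP g) (j : Fin 3) (x : V) :
    pd j (fun y => f y - g y) x = pd j f x - pd j g x := by
  unfold pd
  have h : HasFDerivAt (fun y => f y - g y) _ x := (hf.diff x).hasFDerivAt.sub (hg.diff x).hasFDerivAt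
  rw [h.fderiv]
  simp

theorem pd_add {f g : V → ℝ} (hf : SP f) (hg : SP g) (j : Fin 3) (x : V) :
    pd j (fun y => f y + g y) x = pd j f x + pd j g x := by
  unfold pd
  have h : HasFDerivAt (fun y => f y + g y) _ x := (hf.diff x).hasFDerivAt.add (hg.diff x).hasFDerivAt
  rw [h.fderiv]
  simp

theorem pd_smul {f : V → ℝ} (hf : SP f) (c : ℝ) (j : Fin 3) (x : V) :
    pd j (fun y => c * f y) x = c * pd j f x := by
  unfold pd
  have h : HasFDerivAt (fun y => c * f y) _ x := (hf.diff x).hasFDerivAt.const_mul c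
  rw [h.fderiv]
  simp

/-- the vector product -/
noncomputable def crs (a b : Fin 3 → V → ℝ) (i : Fin 3) (x : V) : ℝ :=
  a (i + 1) x * b (i + 2) x - a (i + 2) x * b (i + 1) x

theorem crs_sp {a b : Fin 3 → V → ℝ} (ha : ∀ i, SP (a i)) (hb : ∀ i, SP (b i)) (i : Fin 3) :
    SP (crs a b i) := ((ha _).mul (hb _)).sub ((ha _).mul (hb _))

theorem ibp_crl {G z : Fin 3 → V → ℝ} (hG : ∀ i, SP (G i)) (hz : ∀ i, SP (z i)) :
    ∑ i, ∫ x in cube, G i x * crl z i x = ∑ i, ∫ x in cube, crl G i x * z i x := by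
  have e1 : ∀ i, ∫ x in cube, G i x * crl z i x
      = -(∫ x in cube, pd (i + 1) (G i) x * z (i + 2) x) + ∫ x in cube, pd (i + 2) (G i) x * z (i + 1) x := by
    intro i
    have h1 := ibp (hG i) (hz (i + 2)) (i + 1)
    have h2 := ibp (hG i) (hz (i + 1)) (i + 2)
    have h3 : ∫ x in cube, G i x * crl z i x = (∫ x in cube, G i x * pd (i + 1) (z (i + 2)) x)
        - ∫ x in cube, G i x * pd (i + 2) (z (i + 1)) x := by
      rw [← integral_sub ((hG i).mul ((hz _).pd _)).int ((hG i).mul ((hz _).pd _)).int]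
      congr 1
      funext x
      unfold crl
      ring
    rw [h3]
    linarith
  have e2 : ∀ i, ∫ x in cube, crl G i x * z i x
      = (∫ x in cube, pd (i + 1) (G (i + 2)) x * z i x) - ∫ x in cube, pd (i + 2) (G (i + 1)) x * z i x := by
    intro i
    rw [← integral_sub (((hG _).pd _).mul (hz i)).int (((hG _).pd _).mul (hz i)).int]
    congr 1
    funext x
    unfold crl
    ring
  simp_rw [e1, e2]
  rw [Fin.sum_univ_three, Fin.sum_univ_three]
  simp only [Fin.isValue, Fin.reduceAdd, zero_add]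
  ring

theorem crl_crs {a b : Fin 3 → V → ℝ} (ha : ∀ i, SP (a i)) (hb : ∀ i, SP (b i)) (i : Fin 3)
    (x : V) : crl (crs a b) i x = (∑ j, b j x * pd j (a i) x) - (∑ j, a j x * pd j (b i) x)
      + a i x * (∑ j, pd j (b j) x) - b i x * ∑ j, pd j (a j) x := by
  have key : ∀ (j l : Fin 3), pd j (crs a b l) x
      = (a (l + 1) x * pd j (b (l + 2)) x + pd j (a (l + 1)) x * b (l + 2) x)
        - (a (l + 2) x * pd j (b (l + 1)) x + pd j (a (l + 2)) x * b (l + 1) x) := by
    intro j l
    have h := pd_sub ((ha (l + 1)).mul (hb (l + 2))) ((ha (l + 2)).mul (hb (l + 1))) j x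
    rw [pd_mul (ha _) (hb _), pd_mul (ha _) (hb _)] at h
    exact h
  unfold crl
  rw [key, key]
  simp only [Fin.sum_univ_three]
  fin_cases i
  all_goals
    simp only [Fin.zero_eta, Fin.mk_one, Fin.reduceFinMk, Fin.isValue, Fin.reduceAdd, zero_add]
    ring

theorem conv_eq {a : Fin 3 → V → ℝ} (ha : ∀ i, SP (a i)) (i : Fin 3) (x : V) :
    crs a (crl a) i x = pd i (fun y => 1 / 2 * ∑ j, a j y * a j y) x - conv a i x := by
  have h1 : pd i (fun y => 1 / 2 * ∑ j, a j y * a j y) x = ∑ j, a j x * pd i (a j) x := by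
    rw [pd_smul (SP.sum fun j _ => (ha j).mul (ha j)), pd_sum (fun j _ => (ha j).mul (ha j)),
      Finset.mul_sum]
    refine Finset.sum_congr rfl fun j _ => ?_
    rw [pd_mul (ha j) (ha j)]
    ring
  rw [h1]
  unfold conv crs crl
  simp only [Fin.sum_univ_three]
  fin_cases i
  all_goals
    simp only [Fin.zero_eta, Fin.mk_one, Fin.reduceFinMk, Fin.isValue, Fin.reduceAdd, zero_add]
    ring

theorem sp_q {a : Fin 3 → V → ℝ} (ha : ∀ i, SP (a i)) : SP (fun y => 1 / 2 * ∑ j, a j y * a j y) :=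
  SP.smul _ (SP.sum fun j _ => (ha j).mul (ha j))

/-- the work of the convection term, in terms of the Lamb vector -/
theorem lamb {a w : Fin 3 → V → ℝ} (ha : ∀ i, SP (a i)) (hw : ∀ i, SP (w i))
    (hdiv : ∀ x, ∑ i, pd i (w i) x = 0) :
    ∑ i, ∫ x in cube, crs a (crl a) i x * w i x = -∑ i, ∫ x in cube, conv a i x * w i x := by
  have h0 := int_press hw hdiv (sp_q ha)
  have e : ∀ i, ∫ x in cube, crs a (crl a) i x * w i x
      = (∫ x in cube, w i x * pd i (fun y => 1 / 2 * ∑ j, a j y * a j y) x)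
        - ∫ x in cube, conv a i x * w i x := by
    intro i
    rw [← integral_sub ((hw i).mul ((sp_q ha).pd i)).int ((sp_conv ha i).mul (hw i)).int]
    congr 1
    funext x
    rw [conv_eq ha]
    ring
  simp_rw [e]
  rw [Finset.sum_sub_distrib, h0]
  ring

/-- the defect of `Λ` in the Leibniz rule -/
noncomputable def Gam (f g : V → ℝ) (x : V) : ℝ :=
  f x * Lam g x + g x * Lam f x - Lam (fun y => f y * g y) x

theorem Gam_sp {f g : V → ℝ} (hf : SP f) (hg : SP g) : SP (Gam f g) :=
  ((hf.mul (Lam_sp hg)).add (hg.mul (Lam_sp hf))).sub (Lam_sp (hf.mul hg))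

section

variable {a z : Fin 3 → V → ℝ} (ha : ∀ i, SP (a i)) (hz : ∀ i, SP (z i)) {s : ℝ} (hs : s * s = 1)
  (hca : ∀ i x, crl a i x = s * Lam (a i) x) (hcz : ∀ i x, crl z i x = -s * Lam (z i) x)
  (hda : ∀ x, ∑ i, pd i (a i) x = 0) (hdz : ∀ x, ∑ i, pd i (z i) x = 0)

theorem Lam_sum {f : Fin 3 → V → ℝ} (hf : ∀ j, SP (f j)) (x : V) :
    Lam (fun y => ∑ j, f j y) x = ∑ j, Lam (f j) x := by
  have h := Mlt_add sym_lam ((hf 0).add (hf 1)) (hf 2)
  have h2 := Mlt_add sym_lam (hf 0) (hf 1)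
  simp only [Fin.sum_univ_three]
  have h3 := congrFun h x
  have h4 := congrFun h2 x
  unfold Lam
  rw [h3, h4]

theorem div_Lam {a : Fin 3 → V → ℝ} (ha : ∀ i, SP (a i)) (hda : ∀ x, ∑ i, pd i (a i) x = 0)
    (x : V) : ∑ i, pd i (Lam (a i)) x = 0 := by
  have h : ∀ i, pd i (Lam (a i)) x = Lam (pd i (a i)) x := fun i => by rw [pd_Lam (ha i)]
  simp_rw [h]
  rw [← Lam_sum (fun i => (ha i).pd i)]
  have e : (fun y => ∑ j, pd j (a j) y) = fun _ => (0 : ℝ) * 0 := by
    funext y
    rw [hda y, mul_zero]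
  rw [e]
  have h2 := Mlt_smul sym_lam 0 (SP.const 0)
  have h3 := congrFun h2 x
  unfold Lam
  rw [h3, zero_mul]

include ha hz hs hcz hda in
theorem F1 : ∑ i, ∫ x in cube, crs a (fun i => Lam (a i)) i x * Lam (z i) x
    = -s * ∑ i, ∫ x in cube, ((∑ j, Lam (a j) x * pd j (a i) x) - ∑ j, a j x * pd j (Lam (a i)) x)
      * z i x := by
  have hL : ∀ i, SP (Lam (a i)) := fun i => Lam_sp (ha i)
  have e1 : ∀ i, ∫ x in cube, crs a (fun i => Lam (a i)) i x * Lam (z i) x
      = -s * ∫ x in cube, crs a (fun i => Lam (a i)) i x * crl z i x := by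
    intro i
    rw [← integral_const_mul]
    congr 1
    funext x
    rw [hcz]
    linear_combination (-(crs a (fun i => Lam (a i)) i x * Lam (z i) x)) * hs
  simp_rw [e1]
  rw [← Finset.mul_sum, ibp_crl (crs_sp ha hL) hz]
  congr 1
  refine Finset.sum_congr rfl fun i _ => ?_
  congr 1
  funext x
  rw [crl_crs ha hL, hda x, div_Lam ha hda x]
  ring

include ha hz hs hca hdz in
theorem F2 : ∑ i, ∫ x in cube, crs a (fun i => Lam (a i)) i x * Lam (z i) x
    = -s * ∑ i, ∫ x in cube, ((∑ j, Lam (a j) x * pd j (a i) x) + (∑ j, a j x * pd j (Lam (a i)) x)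
      - ∑ j, Gam (a j) (pd j (a i)) x) * z i x := by
  have hL : ∀ i, SP (Lam (a i)) := fun i => Lam_sp (ha i)
  have hLz : ∀ i, SP (Lam (z i)) := fun i => Lam_sp (hz i)
  have e1 : ∀ i, ∫ x in cube, crs a (fun i => Lam (a i)) i x * Lam (z i) x
      = s * ∫ x in cube, crs a (crl a) i x * Lam (z i) x := by
    intro i
    rw [← integral_const_mul]
    congr 1
    funext x
    unfold crs
    rw [hca, hca]
    linear_combination (-((a (i + 1) x * Lam (a (i + 2)) x - a (i + 2) x * Lam (a (i + 1)) x)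
      * Lam (z i) x)) * hs
  simp_rw [e1]
  rw [← Finset.mul_sum, lamb ha hLz (div_Lam hz hdz), ← neg_mul_comm]
  congr 1
  refine Finset.sum_congr rfl fun i _ => ?_
  rw [← Lam_self (sp_conv ha i) (hz i)]
  congr 1
  funext x
  congr 1
  have h3 : Lam (conv a i) x = ∑ j, Lam (fun y => a j y * pd j (a i) y) x :=
    Lam_sum (f := fun j y => a j y * pd j (a i) y) (fun j => (ha j).mul ((ha i).pd j)) x
  rw [h3, ← Finset.sum_add_distrib, ← Finset.sum_sub_distrib]
  refine Finset.sum_congr rfl fun j _ => ?_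
  unfold Gam
  rw [pd_Lam (ha i)]
  ring

include ha hz hs hca hcz hda hdz in
/-- the identity -/
theorem ident : -∑ i, ∫ x in cube, conv (fun i x => a i x + z i x) i x
      * Lam (fun x => a i x + z i x) x
    = ∑ i, ∫ x in cube, z i x * ((∑ j, Gam (a j) (pd j (a i)) x)
      - 2 * (∑ j, Lam (a j) x * pd j (a i) x)
      + 2 * s * crs (fun i => Lam (a i)) (fun i => Lam (z i)) i x) := by
  have hL : ∀ i, SP (Lam (a i)) := fun i => Lam_sp (ha i)
  have hLz : ∀ i, SP (Lam (z i)) := fun i => Lam_sp (hz i)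
  have hv : ∀ i, SP (fun x => a i x + z i x) := fun i => (ha i).add (hz i)
  have hdv : ∀ x, ∑ i, pd i (fun x => a i x + z i x) x = 0 := by
    intro x
    have h : ∀ i, pd i (fun x => a i x + z i x) x = pd i (a i) x + pd i (z i) x :=
      fun i => pd_add (ha i) (hz i) i x
    simp_rw [h]
    rw [Finset.sum_add_distrib, hda, hdz, add_zero]
  have hdLv := div_Lam hv hdv
  rw [← lamb hv (fun i => Lam_sp (hv i)) hdLv]
  have eL : ∀ i x, Lam (fun x => a i x + z i x) x = Lam (a i) x + Lam (z i) x := by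
    intro i x
    exact congrFun (Mlt_add sym_lam (ha i) (hz i)) x
  have eC : ∀ i x, crl (fun i x => a i x + z i x) i x = s * (Lam (a i) x - Lam (z i) x) := by
    intro i x
    have h : crl (fun i x => a i x + z i x) i x = crl a i x + crl z i x := by
      unfold crl
      rw [pd_add (ha _) (hz _), pd_add (ha _) (hz _)]
      ring
    rw [h, hca, hcz]
    ring
  have i1 : ∀ i, IntegrableOn (fun x => crs a (fun i => Lam (a i)) i x * Lam (z i) x) cube :=
    fun i => ((crs_sp ha hL i).mul (hLz i)).int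
  have i2 : ∀ i, IntegrableOn (fun x => crs z (fun i => Lam (a i)) i x * Lam (z i) x) cube :=
    fun i => ((crs_sp hz hL i).mul (hLz i)).int
  have i3 : ∀ i, IntegrableOn (fun x => crs (fun i x => a i x + z i x)
      (crl (fun i x => a i x + z i x)) i x * Lam (fun x => a i x + z i x) x) cube :=
    fun i => ((crs_sp hv (crl_sp hv) i).mul (Lam_sp (hv i))).int
  have e3 : ∑ i, ∫ x in cube, crs (fun i x => a i x + z i x)
      (crl (fun i x => a i x + z i x)) i x * Lam (fun x => a i x + z i x) x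
      = 2 * s * (∑ i, ∫ x in cube, crs a (fun i => Lam (a i)) i x * Lam (z i) x)
        + 2 * s * ∑ i, ∫ x in cube, crs z (fun i => Lam (a i)) i x * Lam (z i) x := by
    rw [← integral_finsetSum _ fun i _ => i3 i, ← integral_finsetSum _ fun i _ => i1 i,
      ← integral_finsetSum _ fun i _ => i2 i, ← integral_const_mul, ← integral_const_mul,
      ← integral_add ((integrable_finsetSum _ fun i _ => i1 i).const_mul _)
        ((integrable_finsetSum _ fun i _ => i2 i).const_mul _)]
    congr 1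
    funext x
    unfold crs
    simp only [eC, eL, Fin.sum_univ_three]
    simp only [Fin.isValue, Fin.reduceAdd, zero_add]
    ring
  rw [e3]
  have f1 := F1 ha hz hs hcz hda
  have f2 := F2 ha hz hs hca hdz
  have g1 : ∀ i, IntegrableOn (fun x => (∑ j, Gam (a j) (pd j (a i)) x) * z i x) cube := fun i =>
    ((SP.sum fun j _ => Gam_sp (ha j) ((ha i).pd j)).mul (hz i)).int
  have g2 : ∀ i, IntegrableOn (fun x => (∑ j, Lam (a j) x * pd j (a i) x) * z i x) cube := fun i =>
    ((SP.sum fun j _ => (hL j).mul ((ha i).pd j)).mul (hz i)).int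
  have g3 : ∀ i, IntegrableOn (fun x => (∑ j, a j x * pd j (Lam (a i)) x) * z i x) cube := fun i =>
    ((SP.sum fun j _ => (ha j).mul ((hL i).pd j)).mul (hz i)).int
  have g4 : ∀ i, IntegrableOn (fun x => z i x * crs (fun i => Lam (a i)) (fun i => Lam (z i)) i x)
      cube := fun i => ((hz i).mul (crs_sp hL hLz i)).int
  have f1' : ∑ i, ∫ x in cube, crs a (fun i => Lam (a i)) i x * Lam (z i) x
      = -s * ((∑ i, ∫ x in cube, (∑ j, Lam (a j) x * pd j (a i) x) * z i x)
        - ∑ i, ∫ x in cube, (∑ j, a j x * pd j (Lam (a i)) x) * z i x) := by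
    rw [f1, ← Finset.sum_sub_distrib]
    congr 1
    refine Finset.sum_congr rfl fun i _ => ?_
    rw [← integral_sub (g2 i) (g3 i)]
    congr 1
    funext x
    ring
  have f2' : ∑ i, ∫ x in cube, crs a (fun i => Lam (a i)) i x * Lam (z i) x
      = -s * ((∑ i, ∫ x in cube, (∑ j, Lam (a j) x * pd j (a i) x) * z i x)
        + (∑ i, ∫ x in cube, (∑ j, a j x * pd j (Lam (a i)) x) * z i x)
        - ∑ i, ∫ x in cube, (∑ j, Gam (a j) (pd j (a i)) x) * z i x) := by
    rw [f2, ← Finset.sum_add_distrib, ← Finset.sum_sub_distrib]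
    congr 1
    refine Finset.sum_congr rfl fun i _ => ?_
    have g23 : IntegrableOn (fun x => (∑ j, Lam (a j) x * pd j (a i) x) * z i x
        + (∑ j, a j x * pd j (Lam (a i)) x) * z i x) cube := (g2 i).add (g3 i)
    rw [← integral_add (g2 i) (g3 i), ← integral_sub g23 (g1 i)]
    congr 1
    funext x
    ring
  have e4 : ∑ i, ∫ x in cube, crs z (fun i => Lam (a i)) i x * Lam (z i) x
      = ∑ i, ∫ x in cube, z i x * crs (fun i => Lam (a i)) (fun i => Lam (z i)) i x := by
    rw [← integral_finsetSum _ fun i _ => i2 i, ← integral_finsetSum _ fun i _ => g4 i]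
    congr 1
    funext x
    unfold crs
    simp only [Fin.sum_univ_three]
    simp only [Fin.isValue, Fin.reduceAdd, zero_add]
    ring
  have e5 : ∀ i, ∫ x in cube, z i x * ((∑ j, Gam (a j) (pd j (a i)) x)
      - 2 * (∑ j, Lam (a j) x * pd j (a i) x)
      + 2 * s * crs (fun i => Lam (a i)) (fun i => Lam (z i)) i x)
      = (∫ x in cube, (∑ j, Gam (a j) (pd j (a i)) x) * z i x)
        - 2 * (∫ x in cube, (∑ j, Lam (a j) x * pd j (a i) x) * z i x)
        + 2 * s * ∫ x in cube, z i x * crs (fun i => Lam (a i)) (fun i => Lam (z i)) i x := by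
    intro i
    have g12 : IntegrableOn (fun x => (∑ j, Gam (a j) (pd j (a i)) x) * z i x
        - 2 * ((∑ j, Lam (a j) x * pd j (a i) x) * z i x)) cube := (g1 i).sub ((g2 i).const_mul 2)
    rw [← integral_const_mul, ← integral_const_mul, ← integral_sub (g1 i) ((g2 i).const_mul _),
      ← integral_add g12 ((g4 i).const_mul _)]
    congr 1
    funext x
    ring
  simp_rw [e5]
  rw [Finset.sum_add_distrib, Finset.sum_sub_distrib, ← Finset.mul_sum, ← Finset.mul_sum, e4]
  linear_combination s * f1' + s * f2' + (2 * (∑ i, ∫ x in cube,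
    (∑ j, Lam (a j) x * pd j (a i) x) * z i x) - ∑ i, ∫ x in cube,
    (∑ j, Gam (a j) (pd j (a i)) x) * z i x) * (-hs)

end

end Pool.Agent.U583.HC
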