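import Pool.Agent.U583.HC.Ker
import Pool.Agent.U583.HC.Stat

set_option autoImplicit false

/-!
The Leibniz defect of `√(-Δ)` in terms of difference quotients.
-/

open MeasureTheory Set Filter Topology
open scoped ContDiff ComplexConjugate RealInnerProductSpace ENNReal

namespace Pool.Agent.U583.HC

open H459R3.NS Pool.Agent.Q63.Win

/-- the shift vector -/
noncomputable def sh (h : E3) : V := fun i => h i

theorem sh_cont : Continuous sh := by
  unfold sh
  fun_prop

/-- the frequency as a vector -/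
noncomputable def kE (k : K3) : E3 := WithLp.toLp 2 fun i => (k i : ℝ)

theorem inner_kE (k : K3) (h : E3) : (⟪kE k, h⟫ : ℝ) = ph k (sh h) := by
  unfold kE ph sh
  rw [PiLp.inner_apply]
  refine Finset.sum_congr rfl fun i _ => ?_
  simp [mul_comm]

theorem lam_eq (k : K3) : lam k = 2 * Real.pi * ‖kE k‖ := by
  unfold lam kE
  rw [EuclideanSpace.norm_eq]
  congr 2
  refine Finset.sum_congr rfl fun i _ => ?_
  simp

theorem kE_add (k l : K3) : kE (k + l) = kE k + kE l := by
  unfold kE
  ext i
  simp

theorem kE_neg (k : K3) : kE (-k) = -kE k := by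
  unfold kE
  ext i
  simp

theorem ee_re (k : K3) (h : E3) : (ee k (sh h)).re = Real.cos (2 * Real.pi * ⟪kE k, h⟫) := by
  rw [inner_kE]
  have e : ee k (sh h) = Complex.exp (((2 * Real.pi * ph k (sh h) : ℝ) : ℂ) * Complex.I) := by
    rw [ee]; congr 1; push_cast; ring
  rw [e, Complex.exp_ofReal_mul_I_re]

/-- the kernel -/
noncomputable def wt (h : E3) : ℝ := (‖h‖ ^ 4)⁻¹

theorem wt_nonneg (h : E3) : 0 ≤ wt h := by unfold wt; positivity

theorem wt_meas : Measurable wt := by
  unfold wt
  fun_prop

theorem norm_one_sub_sq (k : K3) (h : E3) :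
    ‖1 - ee k (sh h)‖ ^ 2 = 2 * (1 - Real.cos (2 * Real.pi * ⟪kE k, h⟫)) := by
  rw [← ee_re, ← Complex.normSq_eq_norm_sq, Complex.normSq_sub]
  have h1 : Complex.normSq (ee k (sh h)) = 1 := by
    rw [Complex.normSq_eq_norm_sq, norm_ee]; norm_num
  rw [h1]
  simp
  ring

theorem wt_sq (k : K3) (h : E3) : wt h * ‖1 - ee k (sh h)‖ ^ 2 = 2 * ci (kE k) h := by
  rw [norm_one_sub_sq]
  unfold wt ci
  ring

/-- the double difference -/
noncomputable def dd2 (k l : K3) (h : E3) : ℂ :=
  (wt h : ℂ) * ((1 - ee k (sh h)) * (1 - ee l (sh h)))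

theorem dd2_meas (k l : K3) : Measurable (dd2 k l) := by
  unfold dd2
  have h1 : ∀ k, Continuous fun h : E3 => ee k (sh h) := fun k => (ee_continuous k).comp sh_cont
  exact (Complex.measurable_ofReal.comp wt_meas).mul
    ((continuous_const.sub (h1 k)).mul (continuous_const.sub (h1 l))).measurable

theorem norm_dd2_le (k l : K3) (h : E3) : ‖dd2 k l h‖ ≤ ci (kE k) h + ci (kE l) h := by
  unfold dd2
  rw [norm_mul, norm_mul, Complex.norm_real, Real.norm_eq_abs, abs_of_nonneg (wt_nonneg h)]
  have h1 := wt_sq k h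
  have h2 := wt_sq l h
  have h3 := wt_nonneg h
  nlinarith [mul_nonneg h3 (sq_nonneg (‖1 - ee k (sh h)‖ - ‖1 - ee l (sh h)‖))]

theorem dd2_int (k l : K3) : Integrable (dd2 k l) := by
  refine Integrable.mono' ((ci_int (kE k)).add (ci_int (kE l))) (dd2_meas k l).aestronglyMeasurable
    (ae_of_all _ fun h => norm_dd2_le k l h)

theorem int_norm_dd2_le (k l : K3) :
    ∫ h, ‖dd2 k l h‖ ≤ kap / (2 * Real.pi) * (lam k + lam l) := by
  have h1 : ∫ h, ‖dd2 k l h‖ ≤ ∫ h, (ci (kE k) h + ci (kE l) h) :=
    integral_mono (dd2_int k l).norm ((ci_int (kE k)).add (ci_int (kE l))) (norm_dd2_le k l)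
  rw [integral_add (ci_int _) (ci_int _)] at h1
  have h2 : ∀ k, ∫ h, ci (kE k) h = kap / (2 * Real.pi) * lam k := by
    intro k
    have := CI_eq (kE k)
    unfold CI at this
    rw [this, lam_eq]
    have := Real.pi_pos
    field_simp
  rw [h2, h2] at h1
  linarith

theorem int_dd2 (k l : K3) :
    ∫ h, dd2 k l h = ((kap / (2 * Real.pi) * (lam k + lam l - lam (k + l)) : ℝ) : ℂ) := by
  have hneg : ∫ h, dd2 k l (-h) = ∫ h, dd2 k l h := integral_neg_eq_self _ _
  have hsum : ∫ h, (dd2 k l h + dd2 k l (-h)) = 2 * ∫ h, dd2 k l h := by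
    rw [integral_add (dd2_int k l) (dd2_int k l).comp_neg, hneg]
    ring
  have hpt : ∀ h, dd2 k l h + dd2 k l (-h)
      = ((2 * (ci (kE k) h + ci (kE l) h - ci (kE (k + l)) h) : ℝ) : ℂ) := by
    intro h
    have s1 : sh (-h) = -sh h := by unfold sh; funext i; simp
    have s2 : wt (-h) = wt h := by unfold wt; rw [norm_neg]
    have s3 : ∀ k, ee k (-sh h) = conj (ee k (sh h)) := by
      intro k
      rw [← ee_neg]
      unfold ee ph
      simp
    have r : ∀ z : ℂ, z + conj z = ((2 * z.re : ℝ) : ℂ) := fun z => by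
      rw [Complex.add_conj]
    have h4 : (1 - ee k (sh h)) * (1 - ee l (sh h)) = 1 - ee k (sh h) - ee l (sh h)
        + ee (k + l) (sh h) := by
      rw [ee_add_left]; ring
    unfold dd2
    rw [s1, s2, s3, s3]
    have h5 : (1 - conj (ee k (sh h))) * (1 - conj (ee l (sh h)))
        = conj ((1 - ee k (sh h)) * (1 - ee l (sh h))) := by
      simp only [map_mul, map_sub, map_one]
    rw [h5, ← mul_add, r, h4]
    simp only [Complex.add_re, Complex.sub_re, Complex.one_re, ee_re]
    unfold wt ci
    push_cast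
    ring
  simp_rw [hpt] at hsum
  rw [integral_complex_ofReal, integral_const_mul, integral_sub, integral_add] at hsum
  · have h2 : ∀ k, ∫ h, ci (kE k) h = kap / (2 * Real.pi) * lam k := by
      intro k
      have := CI_eq (kE k)
      unfold CI at this
      rw [this, lam_eq]
      have := Real.pi_pos
      field_simp
    rw [h2, h2, h2] at hsum
    have h3 : (2 : ℂ) * ∫ h, dd2 k l h
        = 2 * ((kap / (2 * Real.pi) * (lam k + lam l - lam (k + l)) : ℝ) : ℂ) := by
      rw [← hsum]
      push_cast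
      ring
    exact mul_left_cancel₀ two_ne_zero h3
  · exact ci_int _
  · exact ci_int _
  · exact (ci_int _).add (ci_int _)
  · exact ci_int _

/-- translates -/
theorem tr_sp {f : V → ℝ} (hf : SP f) (v : V) : SP fun x => f (x + v) where
  smooth := hf.smooth.comp (contDiff_id.add contDiff_const)
  per := fun i x => by
    have h := hf.per i (x + v)
    show f (x + Pi.single i 1 + v) = f (x + v)
    rw [← h]
    congr 1
    abel

theorem fr_tr {f : V → ℝ} (hf : SP f) (v : V) (k : K3) :
    fr (fun x => f (x + v)) k = ee k v * fr f k := by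
  have hR : Rap fun k => ee k v * fr f k := by
    intro n
    refine (rap_fr hf n).congr fun k => ?_
    rw [norm_mul, norm_ee, one_mul]
  have hH : Her fun k => ee k v * fr f k := by
    intro k
    simp only [map_mul, ← ee_neg, her_fr hf k]
  have e : (fun x => f (x + v)) = rf fun k => ee k v * fr f k := by
    funext x
    have h1 : S (fun k => ee k v * fr f k) x = (f (x + v) : ℂ) := by
      rw [← S_fr hf]
      unfold S
      refine tsum_congr fun k => ?_
      rw [ee_add]
      ring
    unfold rf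
    rw [h1, Complex.ofReal_re]
  rw [e, fr_rf hR hH]

/-- differences -/
noncomputable def del (h : E3) (f : V → ℝ) (x : V) : ℝ := f x - f (x + sh h)

theorem del_sp {f : V → ℝ} (hf : SP f) (h : E3) : SP (del h f) := hf.sub (tr_sp hf _)

theorem fr_del {f : V → ℝ} (hf : SP f) (h : E3) (k : K3) :
    fr (del h f) k = (1 - ee k (sh h)) * fr f k := by
  have e := fr_sub hf (tr_sp hf (sh h)) k
  rw [fr_tr hf] at e
  unfold del
  rw [e]
  ring

theorem pd_del {f : V → ℝ} (hf : SP f) (h : E3) (j : Fin 3) : pd j (del h f) = del h (pd j f) := by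
  refine SP.ext ((del_sp hf h).pd j) (del_sp (hf.pd j) h) ?_
  funext k
  rw [fr_pd (del_sp hf h), D, fr_del hf, fr_del (hf.pd j), fr_pd hf, D]
  ring

/-- the representation of the Leibniz defect -/
theorem Gam_rep {f g z : V → ℝ} (hf : SP f) (hg : SP g) (hz : SP z) :
    kap / (2 * Real.pi) * ∫ x in cube, z x * Gam f g x
      = ∫ h, wt h * ∫ x in cube, z x * (del h f x * del h g x) := by
  have rf' := rap_fr hf
  have rg := rap_fr hg
  have rz := rap_fr hz
  have rLf : Rap fun k => (lam k : ℂ) * fr f k := Rap.mul_pol rf' pol_lam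
  have rLg : Rap fun k => (lam k : ℂ) * fr g k := Rap.mul_pol rg pol_lam
  have rLz : Rap fun k => (lam k : ℂ) * fr z k := Rap.mul_pol rz pol_lam
  set c : K3 × K3 → ℂ := fun p => fr f p.1 * fr g p.2 * fr z (-p.1 - p.2) with hc
  -- right side
  have hr : ∀ h, ((∫ x in cube, z x * (del h f x * del h g x) : ℝ) : ℂ)
      = ∑' p : K3 × K3, (1 - ee p.1 (sh h)) * (1 - ee p.2 (sh h)) * c p := by
    intro h
    have h1 := tri_fr (del_sp hf h) (del_sp hg h) hz
    have h2 : ∫ x in cube, z x * (del h f x * del h g x) = ∫ x in cube, del h f x * (del h g x * z x) := by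
      congr 1
      funext x
      ring
    rw [h2, ← h1]
    unfold Tri
    refine tsum_congr fun p => ?_
    rw [fr_del hf, fr_del hg, hc]
    ring
  have hI : ∀ p : K3 × K3, Integrable fun h => dd2 p.1 p.2 h * c p :=
    fun p => (dd2_int p.1 p.2).mul_const _
  have hs1 := summable_norm_tri rLf.summable rg.summable rz.summable
  have hs2 := summable_norm_tri rf'.summable rLg.summable rz.summable
  have hS : Summable fun p : K3 × K3 => ∫ h, ‖dd2 p.1 p.2 h * c p‖ := by
    refine Summable.of_nonneg_of_le (fun p => integral_nonneg fun _ => norm_nonneg _) (fun p => ?_)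
      ((hs1.add hs2).mul_left (kap / (2 * Real.pi)))
    have e1 : ∫ h, ‖dd2 p.1 p.2 h * c p‖ = (∫ h, ‖dd2 p.1 p.2 h‖) * ‖c p‖ := by
      rw [← integral_mul_const]
      congr 1
      funext h
      rw [norm_mul]
    rw [e1]
    calc (∫ h, ‖dd2 p.1 p.2 h‖) * ‖c p‖
        ≤ (kap / (2 * Real.pi) * (lam p.1 + lam p.2)) * ‖c p‖ := by
          gcongr
          exact int_norm_dd2_le _ _
      _ = _ := by
          rw [hc]
          simp only [norm_mul, Complex.norm_real, Real.norm_eq_abs, abs_of_nonneg (lam_nonneg _)]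
          ring
  have hmain := hasSum_integral_of_summable_integral_norm hI hS
  have hr2 : (∫ h, ∑' p : K3 × K3, dd2 p.1 p.2 h * c p)
      = ((∫ h, wt h * ∫ x in cube, z x * (del h f x * del h g x) : ℝ) : ℂ) := by
    rw [← integral_complex_ofReal]
    congr 1
    funext h
    push_cast
    rw [hr h, ← tsum_mul_left]
    refine tsum_congr fun p => ?_
    unfold dd2
    ring
  rw [hr2] at hmain
  -- left side
  have hL : HasSum (fun p : K3 × K3 => ((lam p.1 + lam p.2 - lam (p.1 + p.2) : ℝ) : ℂ) * c p)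
      ((∫ x in cube, z x * Gam f g x : ℝ) : ℂ) := by
    have t1 := (summable_tri rLf.summable rg.summable rz.summable).hasSum
    have t2 := (summable_tri rf'.summable rLg.summable rz.summable).hasSum
    have t3 := (summable_tri rf'.summable rg.summable rLz.summable).hasSum
    have q1 : (fun k => (lam k : ℂ) * fr f k) = fr (Lam f) := funext fun k => (fr_Lam hf k).symm
    have q2 : (fun k => (lam k : ℂ) * fr g k) = fr (Lam g) := funext fun k => (fr_Lam hg k).symm
    have q3 : (fun k => (lam k : ℂ) * fr z k) = fr (Lam z) := funext fun k => (fr_Lam hz k).symm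
    have u1 : (∑' p : K3 × K3, (lam p.1 : ℂ) * fr f p.1 * fr g p.2 * fr z (-p.1 - p.2))
        = ((∫ x in cube, Lam f x * (g x * z x) : ℝ) : ℂ) := by
      rw [← tri_fr (Lam_sp hf) hg hz, ← q1]
      rfl
    have u2 : (∑' p : K3 × K3, fr f p.1 * ((lam p.2 : ℂ) * fr g p.2) * fr z (-p.1 - p.2))
        = ((∫ x in cube, f x * (Lam g x * z x) : ℝ) : ℂ) := by
      rw [← tri_fr hf (Lam_sp hg) hz, ← q2]
      rfl
    have u3 : (∑' p : K3 × K3, fr f p.1 * fr g p.2 *
        ((lam (-p.1 - p.2) : ℂ) * fr z (-p.1 - p.2)))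
        = ((∫ x in cube, f x * (g x * Lam z x) : ℝ) : ℂ) := by
      rw [← tri_fr hf hg (Lam_sp hz), ← q3]
      rfl
    rw [u1] at t1
    rw [u2] at t2
    rw [u3] at t3
    have hval : ∫ x in cube, z x * Gam f g x = (∫ x in cube, Lam f x * (g x * z x))
        + (∫ x in cube, f x * (Lam g x * z x)) - ∫ x in cube, f x * (g x * Lam z x) := by
      have e1 : ∫ x in cube, f x * (g x * Lam z x)
          = ∫ x in cube, Lam (fun y => f y * g y) x * z x := by
        rw [Lam_self (hf.mul hg) hz]
        congr 1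
        funext x
        ring
      have g1 := ((Lam_sp hf).mul (hg.mul hz)).int
      have g2 := (hf.mul ((Lam_sp hg).mul hz)).int
      have g3 := ((Lam_sp (hf.mul hg)).mul hz).int
      have g12 : IntegrableOn (fun x => Lam f x * (g x * z x) + f x * (Lam g x * z x)) cube :=
        g1.add g2
      rw [e1, ← integral_add g1 g2, ← integral_sub g12 g3]
      congr 1
      funext x
      unfold Gam
      ring
    rw [hval, Complex.ofReal_sub, Complex.ofReal_add]
    refine ((t1.add t2).sub t3).congr_fun fun p => ?_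
    have e4 : lam (-p.1 - p.2) = lam (p.1 + p.2) := by
      rw [← lam_neg]
      congr 1
      abel
    simp only [hc, e4]
    push_cast
    ring
  have hL2 := hL.mul_left ((kap / (2 * Real.pi) : ℝ) : ℂ)
  have e : ∀ p : K3 × K3, ((kap / (2 * Real.pi) : ℝ) : ℂ) *
      (((lam p.1 + lam p.2 - lam (p.1 + p.2) : ℝ) : ℂ) * c p) = ∫ h, dd2 p.1 p.2 h * c p := by
    intro p
    rw [integral_mul_const, int_dd2]
    push_cast
    ring
  simp_rw [e] at hL2
  have := hL2.unique hmain
  exact_mod_cast this

end Pool.Agent.U583.HC
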