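import Pool.Agent.U583.HC.Mlt

set_option autoImplicit false

/-!
The square root of the Laplacian, the curl and the helical parts.
-/

open MeasureTheory Set Filter Topology
open scoped ContDiff ComplexConjugate

namespace Pool.Agent.U583.HC

open H459R3.NS Pool.Agent.Q63.Win

/-- the symbol `2 π |k|` -/
noncomputable def lam (k : K3) : ℝ := 2 * Real.pi * Real.sqrt (∑ j, (k j : ℝ) ^ 2)

theorem lam_nonneg (k : K3) : 0 ≤ lam k := by unfold lam; positivity

theorem lam_sq (k : K3) : lam k ^ 2 = 4 * Real.pi ^ 2 * ∑ j, (k j : ℝ) ^ 2 := by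
  unfold lam
  rw [mul_pow, Real.sq_sqrt (Finset.sum_nonneg fun _ _ => sq_nonneg _)]
  ring

theorem lam_neg (k : K3) : lam (-k) = lam k := by
  unfold lam
  simp

theorem N_le_lam (k : K3) : 2 * Real.pi * (N k : ℝ) ≤ lam k := by
  unfold lam
  have h : (N k : ℝ) ≤ Real.sqrt (∑ j, (k j : ℝ) ^ 2) := Real.le_sqrt_of_sq_le (N_sq_le k)
  have := Real.pi_pos
  gcongr

theorem lam_le_N (k : K3) : lam k ≤ 4 * Real.pi * (N k : ℝ) := by
  unfold lam
  have h : Real.sqrt (∑ j, (k j : ℝ) ^ 2) ≤ 2 * N k := by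
    rw [Real.sqrt_le_left (by positivity), Fin.sum_univ_three]
    have h1 : ∀ j, (k j : ℝ) ^ 2 ≤ (N k : ℝ) ^ 2 := by
      intro j
      have := abs_coord_le k j
      rw [← sq_abs]
      gcongr
    have h0 := h1 0
    have h2 := h1 1
    have h3 := h1 2
    nlinarith [sq_nonneg (N k : ℝ)]
  have := Real.pi_pos
  calc 2 * Real.pi * Real.sqrt (∑ j, (k j : ℝ) ^ 2) ≤ 2 * Real.pi * (2 * N k) := by gcongr
    _ = _ := by ring

theorem lam_zero : lam 0 = 0 := by
  have h := lam_le_N 0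
  rw [N_eq_zero.2 rfl] at h
  simp only [Nat.cast_zero, mul_zero] at h
  exact le_antisymm h (lam_nonneg 0)

theorem one_le_N {k : K3} (hk : k ≠ 0) : (1 : ℝ) ≤ N k := by
  have : N k ≠ 0 := fun h => hk (N_eq_zero.1 h)
  exact_mod_cast Nat.one_le_iff_ne_zero.2 this

theorem one_le_lam {k : K3} (hk : k ≠ 0) : 1 ≤ lam k := by
  have h := N_le_lam k
  have h1 := one_le_N hk
  have := Real.pi_gt_three
  nlinarith

theorem lam_pos {k : K3} (hk : k ≠ 0) : 0 < lam k := zero_lt_one.trans_le (one_le_lam hk)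

theorem lam_eq_zero {k : K3} : lam k = 0 ↔ k = 0 :=
  ⟨fun h => by_contra fun hk => (lam_pos hk).ne' h, fun h => by rw [h, lam_zero]⟩

theorem pol_mono {m n : K3 → ℝ} (hn : Pol n) (h : ∀ k, |m k| ≤ |n k|) : Pol m := by
  obtain ⟨C, d, hC, hn⟩ := hn
  exact ⟨C, d, hC, fun k => (h k).trans (hn k)⟩

theorem pol_mul {m n : K3 → ℝ} (hm : Pol m) (hn : Pol n) : Pol fun k => m k * n k := by
  obtain ⟨C, d, hC, hm⟩ := hm
  obtain ⟨C', d', hC', hn⟩ := hn
  refine ⟨C * C', d + d', by positivity, fun k => ?_⟩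
  rw [abs_mul, pow_add]
  calc |m k| * |n k| ≤ (C * (1 + (N k : ℝ)) ^ d) * (C' * (1 + (N k : ℝ)) ^ d') :=
        mul_le_mul (hm k) (hn k) (abs_nonneg _) (by positivity)
    _ = _ := by ring

theorem pol_one : Pol fun _ => 1 := ⟨1, 0, zero_le_one, fun k => by simp⟩

theorem pol_pow {m : K3 → ℝ} (hm : Pol m) (n : ℕ) : Pol fun k => m k ^ n := by
  induction n with
  | zero => simpa using pol_one
  | succ n ih =>
    simp_rw [pow_succ]
    exact pol_mul ih hm

theorem pol_lam : Pol lam := by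
  refine ⟨4 * Real.pi, 1, by positivity, fun k => ?_⟩
  rw [abs_of_nonneg (lam_nonneg k), pow_one]
  have := lam_le_N k
  have := Real.pi_pos
  nlinarith

theorem sym_lam : Sym lam := ⟨lam_neg, pol_lam⟩

/-- the symbol `1 / (2 π |k|)`, zero for `k = 0` -/
noncomputable def il (k : K3) : ℝ := (lam k)⁻¹

theorem sym_il : Sym il := by
  refine ⟨fun k => by unfold il; rw [lam_neg], 1, 0, zero_le_one, fun k => ?_⟩
  unfold il
  rw [pow_zero, mul_one]
  by_cases hk : k = 0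
  · rw [hk, lam_zero]
    simp
  · rw [abs_of_pos (inv_pos.2 (lam_pos hk))]
    exact inv_le_one_of_one_le₀ (one_le_lam hk)

open Classical in
/-- the symbol of the projection to the functions with mean zero -/
noncomputable def nz (k : K3) : ℝ := if k = 0 then 0 else 1

theorem sym_nz : Sym nz := by
  refine ⟨fun k => by unfold nz; simp [neg_eq_zero], 1, 0, zero_le_one, fun k => ?_⟩
  unfold nz
  split_ifs <;> simp

theorem lam_il (k : K3) : lam k * il k = nz k := by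
  unfold il nz
  split_ifs with h
  · rw [h, lam_zero, zero_mul]
  · rw [mul_inv_cancel₀ (lam_pos h).ne']

/-- `√(-Δ)` -/
noncomputable def Lam (f : V → ℝ) : V → ℝ := Mlt lam f

theorem Lam_sp {f : V → ℝ} (hf : SP f) : SP (Lam f) := Mlt_sp sym_lam hf

theorem fr_Lam {f : V → ℝ} (hf : SP f) (k : K3) : fr (Lam f) k = lam k * fr f k :=
  fr_Mlt sym_lam hf k

theorem Lam_self {f g : V → ℝ} (hf : SP f) (hg : SP g) :
    ∫ x in cube, Lam f x * g x = ∫ x in cube, f x * Lam g x := Mlt_self sym_lam hf hg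

theorem pd_Lam {f : V → ℝ} (hf : SP f) (j : Fin 3) : pd j (Lam f) = Lam (pd j f) :=
  pd_Mlt sym_lam hf j

/-- the curl -/
noncomputable def crl (v : Fin 3 → V → ℝ) (i : Fin 3) (x : V) : ℝ :=
  pd (i + 1) (v (i + 2)) x - pd (i + 2) (v (i + 1)) x

theorem crl_sp {v : Fin 3 → V → ℝ} (hv : ∀ i, SP (v i)) (i : Fin 3) : SP (crl v i) :=
  ((hv _).pd _).sub ((hv _).pd _)

theorem fr_crl {v : Fin 3 → V → ℝ} (hv : ∀ i, SP (v i)) (i : Fin 3) (k : K3) :
    fr (crl v i) k = 2 * Real.pi * Complex.I *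
      ((k (i + 1) : ℂ) * fr (v (i + 2)) k - (k (i + 2) : ℂ) * fr (v (i + 1)) k) := by
  have h := fr_sub ((hv (i + 2)).pd (i + 1)) ((hv (i + 1)).pd (i + 2)) k
  rw [fr_pd (hv _), fr_pd (hv _), D, D] at h
  unfold crl
  rw [h]
  ring

/-- the helical parts -/
noncomputable def hp (s : ℝ) (v : Fin 3 → V → ℝ) (i : Fin 3) (x : V) : ℝ :=
  1 / 2 * (Mlt nz (v i) x + s * Mlt il (crl v i) x)

theorem hp_sp (s : ℝ) {v : Fin 3 → V → ℝ} (hv : ∀ i, SP (v i)) (i : Fin 3) : SP (hp s v i) :=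
  SP.smul _ ((Mlt_sp sym_nz (hv i)).add (SP.smul _ (Mlt_sp sym_il (crl_sp hv i))))

theorem fr_hp (s : ℝ) {v : Fin 3 → V → ℝ} (hv : ∀ i, SP (v i)) (i : Fin 3) (k : K3) :
    fr (hp s v i) k = 1 / 2 * (nz k * fr (v i) k + s * (il k * fr (crl v i) k)) := by
  have h1 : SP (Mlt nz (v i)) := Mlt_sp sym_nz (hv i)
  have h2 : SP (Mlt il (crl v i)) := Mlt_sp sym_il (crl_sp hv i)
  have h3 := fr_smul (1 / 2) (fun x => Mlt nz (v i) x + s * Mlt il (crl v i) x) k
  rw [fr_add h1 (SP.smul s h2), fr_smul s (Mlt il (crl v i)) k, fr_Mlt sym_nz (hv i),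
    fr_Mlt sym_il (crl_sp hv i)] at h3
  have e : fr (hp s v i) k = fr (fun x => 1 / 2 * (Mlt nz (v i) x + s * Mlt il (crl v i) x)) k := rfl
  rw [e, h3]
  push_cast
  ring

theorem hp_add {v : Fin 3 → V → ℝ} {s : ℝ} (i : Fin 3) (x : V) :
    Mlt nz (v i) x = hp s v i x + hp (-s) v i x := by
  unfold hp
  ring

theorem alg (p I L Li s k0 k1 k2 v0 v1 v2 : ℂ) (hI : I * I = -1)
    (hd : k0 * v0 + k1 * v1 + k2 * v2 = 0) (hl2 : L * L = 4 * p ^ 2 * (k0 ^ 2 + k1 ^ 2 + k2 ^ 2))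
    (hinv : L * Li = 1) (hs : s * s = 1) :
    2 * p * I * (k1 * (1 / 2 * (1 * v2 + s * (Li * (2 * p * I * (k0 * v1 - k1 * v0)))))
      - k2 * (1 / 2 * (1 * v1 + s * (Li * (2 * p * I * (k2 * v0 - k0 * v2))))))
      = s * (L * (1 / 2 * (1 * v0 + s * (Li * (2 * p * I * (k1 * v2 - k2 * v1)))))) := by
  linear_combination (2 * p ^ 2 * s * Li * (k1 * (k0 * v1 - k1 * v0) - k2 * (k2 * v0 - k0 * v2))) * hI
    - (2 * p ^ 2 * s * Li * k0) * hd - (1 / 2 * s * Li * v0) * hl2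
    + (1 / 2 * s * L * v0 - p * I * (k1 * v2 - k2 * v1) * s * s) * hinv
    - (p * I * (k1 * v2 - k2 * v1)) * hs

section

variable {v : Fin 3 → V → ℝ} (hv : ∀ i, SP (v i)) (hdiv : ∀ x, ∑ i, pd i (v i) x = 0)

include hv hdiv in
theorem crl_hp {s : ℝ} (hs : s * s = 1) (i : Fin 3) :
    crl (hp s v) i = fun x => s * Lam (hp s v i) x := by
  refine SP.ext (crl_sp (hp_sp s hv) i) (SP.smul s (Lam_sp (hp_sp s hv i))) ?_
  funext k
  rw [fr_smul, fr_Lam (hp_sp s hv i), fr_crl (hp_sp s hv), fr_hp s hv, fr_hp s hv, fr_hp s hv]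
  have hd := fr_div hv hdiv k
  rw [Fin.sum_univ_three] at hd
  by_cases hk : k = 0
  · subst hk
    rw [lam_zero]
    simp
  have hn : nz k = 1 := by unfold nz; rw [if_neg hk]
  have hl : (lam k : ℂ) ≠ 0 := by exact_mod_cast (lam_pos hk).ne'
  have hI : Complex.I * Complex.I = -1 := Complex.I_mul_I
  have hl2 : (lam k : ℂ) * lam k = 4 * Real.pi ^ 2 * ((k 0 : ℂ) ^ 2 + (k 1 : ℂ) ^ 2 + (k 2 : ℂ) ^ 2) := by
    have := lam_sq k
    rw [Fin.sum_univ_three] at this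
    rw [← sq]
    exact_mod_cast this
  have hs' : (s : ℂ) * s = 1 := by exact_mod_cast hs
  rw [hn, fr_crl hv, fr_crl hv, fr_crl hv]
  unfold il
  push_cast
  have hinv : (lam k : ℂ) * (lam k : ℂ)⁻¹ = 1 := mul_inv_cancel₀ hl
  fin_cases i
  all_goals
    simp only [Fin.zero_eta, Fin.mk_one, Fin.reduceFinMk, Fin.isValue, Fin.reduceAdd, zero_add]
  · exact alg _ _ _ _ _ _ _ _ _ _ _ hI hd hl2 hinv hs'
  · exact alg _ _ _ _ _ _ _ _ _ _ _ hI (by linear_combination hd) (by rw [hl2]; ring) hinv hs'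
  · exact alg _ _ _ _ _ _ _ _ _ _ _ hI (by linear_combination hd) (by rw [hl2]; ring) hinv hs'

include hv hdiv in
theorem div_hp (s : ℝ) (x : V) : ∑ i, pd i (hp s v i) x = 0 := by
  have h : (fun x => ∑ i, pd i (hp s v i) x) = fun _ => (0 : ℝ) := by
    refine SP.ext (SP.sum fun i _ => (hp_sp s hv i).pd i) (SP.const 0) ?_
    funext k
    rw [fr_sum (fun i _ => (hp_sp s hv i).pd i)]
    simp_rw [fr_pd (hp_sp s hv _), D, fr_hp s hv, fr_crl hv]
    have hd := fr_div hv hdiv k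
    have h0 : fr (fun _ : V => (0 : ℝ)) k = 0 := by
      unfold fr fc
      simp
    rw [h0]
    rw [Fin.sum_univ_three] at hd ⊢
    simp only [Fin.isValue, Fin.reduceAdd, zero_add]
    linear_combination (Real.pi * Complex.I * nz k) * hd
  exact congrFun h x

end

end Pool.Agent.U583.HC
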