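import Pool.Agent.Q63.Win.FromSol
import Pool.Agent.H459R3.NS.Iso

set_option autoImplicit false

/-!
Real functions given by their Fourier coefficients, and Fourier multipliers.
-/

open MeasureTheory Set Filter Topology
open scoped ContDiff ComplexConjugate

namespace Pool.Agent.U583.HC

open H459R3.NS Pool.Agent.Q63.Win

/-- Coefficients of a real function. -/
def Her (a : K3 → ℂ) : Prop := ∀ k, a (-k) = conj (a k)

/-- The real part of the Fourier series. -/
noncomputable def rf (a : K3 → ℂ) (x : V) : ℝ := (S a x).re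

theorem S_eq_rf {a : K3 → ℂ} (hs : Summable a) (ha : Her a) (x : V) : S a x = (rf a x : ℂ) := by
  have h1 : HasSum (fun k => a k * ee k x) (S a x) := (summable_term hs x).hasSum
  have h2 : HasSum (fun k => conj (a k * ee k x)) (conj (S a x)) := by
    rw [Complex.hasSum_conj, Complex.conj_conj]
    exact h1
  have h3 : HasSum (fun k => a k * ee k x) (conj (S a x)) := by
    have h4 := (Equiv.neg K3).hasSum_iff.2 h2
    refine h4.congr_fun fun k => ?_
    simp only [Function.comp_apply, Equiv.neg_apply, map_mul]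
    rw [ha k, Complex.conj_conj, ← ee_neg, neg_neg]
  have h5 := h3.unique h1
  exact (Complex.conj_eq_iff_real.1 h5).elim fun r hr => by
    rw [rf, hr, Complex.ofReal_re]

theorem hasFDerivAt_ee (k : K3) (x : V) : HasFDerivAt (ee k)
    (∑ j, (ContinuousLinearMap.proj (R := ℝ) (φ := fun _ : Fin 3 => ℝ) j).smulRight
      (2 * Real.pi * Complex.I * (k j : ℂ) * ee k x)) x := by
  have h1 : HasFDerivAt (fun y => (ph k y : ℂ))
      (Complex.ofRealCLM.comp (∑ i, (k i : ℝ) • (ContinuousLinearMap.proj i : V →L[ℝ] ℝ))) x :=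
    Complex.ofRealCLM.hasFDerivAt.comp x (hasFDerivAt_ph k x)
  have h2 := (h1.const_mul (2 * Real.pi * Complex.I)).cexp
  have h3 : HasFDerivAt (ee k) _ x := h2
  refine h3.congr_fderiv ?_
  ext v
  simp only [smul_apply, ContinuousLinearMap.comp_apply,
    sum_apply, ContinuousLinearMap.proj_apply, Complex.ofRealCLM_apply,
    ContinuousLinearMap.smulRight_apply, smul_eq_mul, Complex.real_smul]
  rw [show Complex.exp (2 * Real.pi * Complex.I * (ph k x : ℂ)) = ee k x from rfl]
  simp only [Fin.sum_univ_three]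
  push_cast
  ring

theorem norm_fd_ee_le (k : K3) (x : V) (c : ℂ) :
    ‖c • ∑ j, (ContinuousLinearMap.proj (R := ℝ) (φ := fun _ : Fin 3 => ℝ) j).smulRight
      (2 * Real.pi * Complex.I * (k j : ℂ) * ee k x)‖ ≤ 6 * Real.pi * (N k * ‖c‖) := by
  rw [norm_smul]
  have hp := Real.pi_pos
  have h1 : ‖∑ j, (ContinuousLinearMap.proj (R := ℝ) (φ := fun _ : Fin 3 => ℝ) j).smulRight
      (2 * Real.pi * Complex.I * (k j : ℂ) * ee k x)‖ ≤ ∑ _j : Fin 3, 2 * Real.pi * N k := by
    refine (norm_sum_le _ _).trans (Finset.sum_le_sum fun j _ => ?_)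
    rw [ContinuousLinearMap.norm_smulRight_apply]
    have h2 : ‖(ContinuousLinearMap.proj (R := ℝ) (φ := fun _ : Fin 3 => ℝ) j)‖ ≤ 1 := by
      refine ContinuousLinearMap.opNorm_le_bound _ zero_le_one fun v => ?_
      rw [one_mul]
      exact norm_le_pi_norm v j
    rw [norm_mul, norm_ee, mul_one, norm_mul, norm_mul, norm_mul, Complex.norm_I, mul_one,
      Complex.norm_real, Real.norm_eq_abs, abs_of_pos hp, Complex.norm_ofNat]
    have h3 := abs_le_N k j
    calc ‖(ContinuousLinearMap.proj (R := ℝ) (φ := fun _ : Fin 3 => ℝ) j)‖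
          * (2 * Real.pi * ‖(k j : ℂ)‖) ≤ 1 * (2 * Real.pi * N k) := by gcongr
      _ = _ := by ring
  refine (mul_le_mul_of_nonneg_left h1 (norm_nonneg c)).trans (le_of_eq ?_)
  simp
  ring

theorem hasFDerivAt_S {a : K3 → ℂ} (ha : Rap a) (x : V) : HasFDerivAt (S a)
    (∑ j, (ContinuousLinearMap.proj (R := ℝ) (φ := fun _ : Fin 3 => ℝ) j).smulRight
      (S (D j a) x)) x := by
  have key := hasFDerivAt_tsum (𝕜 := ℝ) (f := fun k y => a k * ee k y)
    (f' := fun k y => a k • ∑ j, (ContinuousLinearMap.proj (R := ℝ)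
      (φ := fun _ : Fin 3 => ℝ) j).smulRight (2 * Real.pi * Complex.I * (k j : ℂ) * ee k y))
    (u := fun k => 6 * Real.pi * (N k * ‖a k‖)) (by
      have := (ha 1).mul_left (6 * Real.pi)
      simpa using this)
    (fun k y => (hasFDerivAt_ee k y).const_mul (a k)) (fun k y => norm_fd_ee_le k y (a k))
    (x₀ := 0) (summable_term ha.summable 0) x
  refine key.congr_fderiv ?_
  have hs : ∀ j, HasSum (fun k => (ContinuousLinearMap.proj (R := ℝ)
      (φ := fun _ : Fin 3 => ℝ) j).smulRight (D j a k * ee k x))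
      ((ContinuousLinearMap.proj (R := ℝ) (φ := fun _ : Fin 3 => ℝ) j).smulRight (S (D j a) x)) := by
    intro j
    have h1 : HasSum (fun k => D j a k * ee k x) (S (D j a) x) :=
      (summable_term (ha.D j).summable x).hasSum
    exact h1.mapL (ContinuousLinearMap.smulRightL ℝ V ℂ (ContinuousLinearMap.proj (R := ℝ)
      (φ := fun _ : Fin 3 => ℝ) j))
  have h2 := hasSum_sum fun j (_ : j ∈ (Finset.univ : Finset (Fin 3))) => hs j
  rw [← h2.tsum_eq]
  refine tsum_congr fun k => ?_
  ext v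
  simp only [smul_apply, sum_apply, ContinuousLinearMap.smulRight_apply,
    ContinuousLinearMap.proj_apply, smul_eq_mul, Complex.real_smul]
  simp only [Fin.sum_univ_three, D]
  ring

theorem S_contDiff {a : K3 → ℂ} (ha : Rap a) : ContDiff ℝ ∞ (S a) := by
  rw [contDiff_infty]
  intro n
  induction n generalizing a with
  | zero => exact contDiff_zero.2 (S_continuous ha.summable)
  | succ n ih =>
    have h1 : ContDiff ℝ ((n : WithTop ℕ∞) + 1) (S a) := by
      rw [contDiff_succ_iff_hasFDerivAt]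
      refine ⟨_, ?_, hasFDerivAt_S ha⟩
      exact ContDiff.sum fun j _ => contDiff_const.smulRight (ih (ha.D j))
    exact_mod_cast h1

theorem S_per {a : K3 → ℂ} : Per (S a) := by
  intro i x
  unfold S
  exact tsum_congr fun k => by rw [ee_per k i x]

theorem rf_sp {a : K3 → ℂ} (ha : Rap a) : SP (rf a) where
  smooth := Complex.reCLM.contDiff.comp (S_contDiff ha)
  per := fun i x => by unfold rf; rw [S_per i x]

theorem fr_rf {a : K3 → ℂ} (ha : Rap a) (hh : Her a) : fr (rf a) = a := by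
  funext k
  unfold fr fc
  simp_rw [← S_eq_rf ha.summable hh]
  rw [integral_ee_S _ ha.summable, neg_neg]

theorem her_fr {f : V → ℝ} (hf : SP f) : Her (fr f) := fr_neg hf.cont

theorem SP.ext {f g : V → ℝ} (hf : SP f) (hg : SP g) (h : fr f = fr g) : f = g := by
  funext x
  have h1 := S_fr hf x
  rw [h, S_fr hg x] at h1
  exact_mod_cast h1.symm

/-- Even symbols of polynomial growth. -/
structure Sym (m : K3 → ℝ) : Prop where
  even : ∀ k, m (-k) = m k
  pol : Pol m

theorem Rap.mul_pol {a : K3 → ℂ} (ha : Rap a) {m : K3 → ℝ} (hm : Pol m) :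
    Rap (fun k => (m k : ℂ) * a k) := by
  obtain ⟨C, d, hC, hm⟩ := hm
  intro n
  have h1 : Summable fun k => C * 2 ^ d * ((N k : ℝ) ^ n * ‖a k‖ + (N k : ℝ) ^ (n + d) * ‖a k‖) :=
    ((ha n).add (ha (n + d))).mul_left _
  refine Summable.of_nonneg_of_le (fun k => by positivity) (fun k => ?_) h1
  rw [norm_mul, Complex.norm_real, Real.norm_eq_abs]
  calc (N k : ℝ) ^ n * (|m k| * ‖a k‖)
      ≤ (N k : ℝ) ^ n * ((C * (2 ^ d * (1 + (N k : ℝ) ^ d))) * ‖a k‖) := by
        have h2 := hm k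
        have h3 := one_add_pow_le (N k : ℝ) (Nat.cast_nonneg _) d
        have h4 : |m k| ≤ C * (2 ^ d * (1 + (N k : ℝ) ^ d)) :=
          h2.trans (mul_le_mul_of_nonneg_left h3 hC)
        gcongr
    _ = _ := by rw [pow_add]; ring

/-- The Fourier multiplier with symbol `m`. -/
noncomputable def Mlt (m : K3 → ℝ) (f : V → ℝ) : V → ℝ := rf fun k => (m k : ℂ) * fr f k

theorem her_mul {a : K3 → ℂ} (ha : Her a) {m : K3 → ℝ} (hm : Sym m) :
    Her fun k => (m k : ℂ) * a k := by
  intro k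
  simp only [hm.even, ha k, map_mul, Complex.conj_ofReal]

variable {m n : K3 → ℝ} {f g : V → ℝ}

theorem Mlt_sp (hm : Sym m) (hf : SP f) : SP (Mlt m f) := rf_sp (Rap.mul_pol (rap_fr hf) hm.pol)

theorem fr_Mlt (hm : Sym m) (hf : SP f) (k : K3) : fr (Mlt m f) k = (m k : ℂ) * fr f k := by
  unfold Mlt
  rw [fr_rf (Rap.mul_pol (rap_fr hf) hm.pol) (her_mul (her_fr hf) hm)]

theorem fr_add (hf : SP f) (hg : SP g) (k : K3) :
    fr (fun x => f x + g x) k = fr f k + fr g k := by
  unfold fr fc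
  rw [← integral_add]
  · congr 1
    funext x
    push_cast
    ring
  · exact integrableOn_cube ((ee_continuous _).mul (Complex.continuous_ofReal.comp hf.cont))
  · exact integrableOn_cube ((ee_continuous _).mul (Complex.continuous_ofReal.comp hg.cont))

theorem fr_smul (c : ℝ) (f : V → ℝ) (k : K3) : fr (fun x => c * f x) k = c * fr f k := by
  unfold fr fc
  rw [← integral_const_mul]
  congr 1
  funext x
  push_cast
  ring

theorem SP.smul (c : ℝ) (hf : SP f) : SP (fun x => c * f x) where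
  smooth := contDiff_const.mul hf.smooth
  per := fun i x => by simp only [hf.per i x]

theorem SP.const (c : ℝ) : SP (fun _ => c) where
  smooth := contDiff_const
  per := fun _ _ => rfl

theorem fr_sub (hf : SP f) (hg : SP g) (k : K3) :
    fr (fun x => f x - g x) k = fr f k - fr g k := by
  have h := fr_add hf (SP.smul (-1) hg) k
  rw [fr_smul] at h
  have e : (fun x => f x - g x) = fun x => f x + -1 * g x := by funext x; ring
  rw [e, h]
  push_cast
  ring

theorem Mlt_add (hm : Sym m) (hf : SP f) (hg : SP g) :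
    Mlt m (fun x => f x + g x) = fun x => Mlt m f x + Mlt m g x := by
  refine SP.ext (Mlt_sp hm (hf.add hg)) ((Mlt_sp hm hf).add (Mlt_sp hm hg)) ?_
  funext k
  rw [fr_Mlt hm (hf.add hg), fr_add hf hg, fr_add (Mlt_sp hm hf) (Mlt_sp hm hg), fr_Mlt hm hf,
    fr_Mlt hm hg]
  ring

theorem Mlt_sub (hm : Sym m) (hf : SP f) (hg : SP g) :
    Mlt m (fun x => f x - g x) = fun x => Mlt m f x - Mlt m g x := by
  refine SP.ext (Mlt_sp hm (hf.sub hg)) ((Mlt_sp hm hf).sub (Mlt_sp hm hg)) ?_
  funext k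
  rw [fr_Mlt hm (hf.sub hg), fr_sub hf hg, fr_sub (Mlt_sp hm hf) (Mlt_sp hm hg), fr_Mlt hm hf,
    fr_Mlt hm hg]
  ring

theorem Mlt_smul (hm : Sym m) (c : ℝ) (hf : SP f) :
    Mlt m (fun x => c * f x) = fun x => c * Mlt m f x := by
  refine SP.ext (Mlt_sp hm (SP.smul c hf)) (SP.smul c (Mlt_sp hm hf)) ?_
  funext k
  rw [fr_Mlt hm (SP.smul c hf), fr_smul, fr_smul, fr_Mlt hm hf]
  ring

theorem Mlt_Mlt (hm : Sym m) (hn : Sym n) (hmn : Sym fun k => m k * n k) (hf : SP f) :
    Mlt m (Mlt n f) = Mlt (fun k => m k * n k) f := by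
  refine SP.ext (Mlt_sp hm (Mlt_sp hn hf)) (Mlt_sp hmn hf) ?_
  funext k
  rw [fr_Mlt hm (Mlt_sp hn hf), fr_Mlt hn hf, fr_Mlt hmn hf]
  push_cast
  ring

theorem pd_Mlt (hm : Sym m) (hf : SP f) (j : Fin 3) : pd j (Mlt m f) = Mlt m (pd j f) := by
  refine SP.ext ((Mlt_sp hm hf).pd j) (Mlt_sp hm (hf.pd j)) ?_
  funext k
  rw [fr_pd (Mlt_sp hm hf), D, fr_Mlt hm hf, fr_Mlt hm (hf.pd j), fr_pd hf, D]
  ring

/-- Parseval -/
theorem hasSum_int (hf : SP f) (hg : SP g) :
    HasSum (fun k => fr f k * conj (fr g k)) ((∫ x in cube, f x * g x : ℝ) : ℂ) := by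
  have h := integral_S_mul (rap_fr hf).summable
    (g := fun x => (g x : ℂ)) (Complex.continuous_ofReal.comp hg.cont)
  have e1 : ∀ k, ∫ x in cube, ee k x * (g x : ℂ) = conj (fr g k) := by
    intro k
    rw [← her_fr hg]
    unfold fr fc
    rw [neg_neg]
  simp_rw [e1, S_fr hf] at h
  have e2 : ((∫ x in cube, f x * g x : ℝ) : ℂ) = ∫ x in cube, (f x : ℂ) * (g x : ℂ) := by
    rw [← integral_complex_ofReal]
    congr 1
    funext x
    push_cast
    rfl
  rw [e2]
  exact h

theorem hasSum_sq (hf : SP f) : HasSum (fun k => ‖fr f k‖ ^ 2) (∫ x in cube, f x ^ 2) := by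
  have h := Complex.hasSum_re (hasSum_int hf hf)
  simp only [Complex.ofReal_re] at h
  have e : ∀ k, (fr f k * conj (fr f k)).re = ‖fr f k‖ ^ 2 := by
    intro k
    rw [Complex.mul_conj, Complex.ofReal_re, Complex.normSq_eq_norm_sq]
  simp_rw [e] at h
  convert h using 2
  funext x
  ring

theorem Mlt_self (hm : Sym m) (hf : SP f) (hg : SP g) :
    ∫ x in cube, Mlt m f x * g x = ∫ x in cube, f x * Mlt m g x := by
  have h1 := hasSum_int (Mlt_sp hm hf) hg
  have h2 := hasSum_int hf (Mlt_sp hm hg)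
  have e : ∀ k, fr (Mlt m f) k * conj (fr g k) = fr f k * conj (fr (Mlt m g) k) := by
    intro k
    rw [fr_Mlt hm hf, fr_Mlt hm hg, map_mul, Complex.conj_ofReal]
    ring
  simp_rw [e] at h1
  exact_mod_cast h1.unique h2

end Pool.Agent.U583.HC
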