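import Pool.Agent.U583.HC.Ker2

set_option autoImplicit false

/-!
Weighted sums of the squares of Fourier coefficients.
-/

open MeasureTheory Set Filter Topology
open scoped ContDiff ComplexConjugate RealInnerProductSpace ENNReal

namespace Pool.Agent.U583.HC

open H459R3.NS Pool.Agent.Q63.Win

/-- `∑ φ(k) |f̂(k)|²` -/
noncomputable def WS (φ : K3 → ℝ) (f : V → ℝ) : ℝ := ∑' k, φ k * ‖fr f k‖ ^ 2

theorem WS_summable {φ : K3 → ℝ} (hφ : Pol φ) {f : V → ℝ} (hf : SP f) :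
    Summable fun k => φ k * ‖fr f k‖ ^ 2 := by
  have h1 : Rap fun k => (φ k : ℂ) * fr f k := Rap.mul_pol (rap_fr hf) hφ
  have h2 := h1.summable.norm
  obtain ⟨C, hC⟩ := norm_fr_le hf
  refine Summable.of_norm_bounded (h2.mul_right C) fun k => ?_
  rw [norm_mul, norm_mul, Complex.norm_real, norm_pow, norm_norm, sq, ← mul_assoc]
  exact mul_le_mul_of_nonneg_left (hC k) (by positivity)

theorem WS_nonneg {φ : K3 → ℝ} (hφ : ∀ k, 0 ≤ φ k) (f : V → ℝ) : 0 ≤ WS φ f :=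
  tsum_nonneg fun k => mul_nonneg (hφ k) (sq_nonneg _)

theorem WS_mono {φ ψ : K3 → ℝ} (hφ : Pol φ) (hψ : Pol ψ) {f : V → ℝ} (hf : SP f)
    (h : ∀ k, φ k ≤ ψ k) : WS φ f ≤ WS ψ f :=
  (WS_summable hφ hf).tsum_le_tsum (fun k => mul_le_mul_of_nonneg_right (h k) (sq_nonneg _))
    (WS_summable hψ hf)

theorem nrm_WS {f : V → ℝ} (hf : SP f) : nrm f ^ 2 = WS (fun _ => 1) f := by
  rw [nrm_sq, ← (hasSum_sq hf).tsum_eq]
  unfold WS
  simp

theorem fr_mean {f : V → ℝ} (h : ∫ x in cube, f x = 0) : fr f 0 = 0 := by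
  unfold fr fc
  simp_rw [neg_zero, ee_zero, one_mul]
  rw [integral_complex_ofReal, h]
  simp

theorem mean_fr {f : V → ℝ} (h : fr f 0 = 0) : ∫ x in cube, f x = 0 := by
  unfold fr fc at h
  simp_rw [neg_zero, ee_zero, one_mul] at h
  rw [integral_complex_ofReal] at h
  exact_mod_cast h

theorem norm_pd_coef (j : Fin 3) {f : V → ℝ} (hf : SP f) (k : K3) :
    ‖fr (pd j f) k‖ ^ 2 = 4 * Real.pi ^ 2 * (k j : ℝ) ^ 2 * ‖fr f k‖ ^ 2 := by
  rw [fr_pd hf, D, norm_mul, norm_mul, norm_mul, norm_mul, Complex.norm_I, Complex.norm_real,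
    Real.norm_eq_abs, abs_of_pos Real.pi_pos, Complex.norm_ofNat, Complex.norm_intCast]
  rw [mul_pow, mul_pow, mul_pow, sq_abs]
  ring

theorem sum_norm_pd {f : V → ℝ} (hf : SP f) (k : K3) :
    ∑ j, ‖fr (pd j f) k‖ ^ 2 = lam k ^ 2 * ‖fr f k‖ ^ 2 := by
  simp_rw [norm_pd_coef _ hf]
  rw [lam_sq, ← Finset.sum_mul, ← Finset.mul_sum]

theorem WS_pd_sum {φ : K3 → ℝ} (hφ : Pol φ) {f : V → ℝ} (hf : SP f) :
    ∑ j, WS φ (pd j f) = WS (fun k => φ k * lam k ^ 2) f := by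
  unfold WS
  rw [← Summable.tsum_finsetSum fun j _ => WS_summable hφ (hf.pd j)]
  refine tsum_congr fun k => ?_
  rw [← Finset.mul_sum, sum_norm_pd hf]
  ring

theorem WS_pd_le {φ : K3 → ℝ} (hφ0 : ∀ k, 0 ≤ φ k) (hφ : Pol φ) {f : V → ℝ} (hf : SP f)
    (j : Fin 3) : WS φ (pd j f) ≤ WS (fun k => φ k * lam k ^ 2) f := by
  rw [← WS_pd_sum hφ hf]
  exact Finset.single_le_sum (f := fun j => WS φ (pd j f)) (fun i _ => WS_nonneg hφ0 _)
    (Finset.mem_univ j)

theorem grd_WS {f : V → ℝ} (hf : SP f) : grd f ^ 2 = WS (fun k => lam k ^ 2) f := by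
  have h := WS_pd_sum pol_one hf
  simp only [one_mul] at h
  rw [← h, grd_sq]
  exact Finset.sum_congr rfl fun j _ => by rw [← nrm_sq, nrm_WS (hf.pd j)]

theorem WS_Mlt {φ m : K3 → ℝ} (hm : Sym m) {f : V → ℝ} (hf : SP f) :
    WS φ (Mlt m f) = WS (fun k => φ k * m k ^ 2) f := by
  unfold WS
  refine tsum_congr fun k => ?_
  rw [fr_Mlt hm hf, norm_mul, Complex.norm_real, Real.norm_eq_abs, mul_pow, sq_abs]
  ring

/-! ### integration of the differences -/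

theorem tsum_int {ψ : K3 → E3 → ℝ} (h0 : ∀ k h, 0 ≤ ψ k h) (hm : ∀ k, Measurable (ψ k))
    (hi : ∀ k, Integrable (ψ k)) (hs : Summable fun k => ∫ h, ψ k h) :
    Integrable (fun h => ∑' k, ψ k h) ∧ ∫ h, ∑' k, ψ k h = ∑' k, ∫ h, ψ k h := by
  have hn : ∀ k, (∫ h, ‖ψ k h‖) = ∫ h, ψ k h := by
    intro k
    congr 1
    funext h
    rw [Real.norm_eq_abs, abs_of_nonneg (h0 k h)]
  have hv := hasSum_integral_of_summable_integral_norm hi (by simp_rw [hn]; exact hs)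
  refine ⟨?_, hv.tsum_eq.symm⟩
  set G : E3 → ℝ≥0∞ := fun h => ∑' k, ENNReal.ofReal (ψ k h) with hG
  have hGm : Measurable G := Measurable.ennreal_tsum fun k => (hm k).ennreal_ofReal
  have e : (fun h => ∑' k, ψ k h) = fun h => (G h).toReal := by
    funext h
    rw [hG, ENNReal.tsum_toReal_eq fun k => ENNReal.ofReal_ne_top]
    exact tsum_congr fun k => (ENNReal.toReal_ofReal (h0 k h)).symm
  rw [e]
  refine integrable_toReal_of_lintegral_ne_top hGm.aemeasurable ?_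
  rw [hG, lintegral_tsum fun k => (hm k).ennreal_ofReal.aemeasurable]
  have e2 : ∀ k, ∫⁻ h, ENNReal.ofReal (ψ k h) = ENNReal.ofReal (∫ h, ψ k h) := fun k =>
    (ofReal_integral_eq_lintegral_ofReal (hi k) (ae_of_all _ (h0 k))).symm
  simp_rw [e2]
  rw [← ENNReal.ofReal_tsum_of_nonneg (fun k => integral_nonneg (h0 k)) hs]
  exact ENNReal.ofReal_ne_top

theorem wt_nrm_del {f : V → ℝ} (hf : SP f) (h : E3) :
    wt h * nrm (del h f) ^ 2 = ∑' k, 2 * ci (kE k) h * ‖fr f k‖ ^ 2 := by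
  rw [nrm_WS (del_sp hf h)]
  unfold WS
  rw [← tsum_mul_left]
  refine tsum_congr fun k => ?_
  rw [fr_del hf, norm_mul, mul_pow, one_mul, ← wt_sq]
  ring

theorem int_nrm_del {f : V → ℝ} (hf : SP f) :
    Integrable (fun h => wt h * nrm (del h f) ^ 2) ∧
      ∫ h, wt h * nrm (del h f) ^ 2 = kap / Real.pi * WS lam f := by
  simp_rw [wt_nrm_del hf]
  have hpi := Real.pi_pos
  have hci : ∀ k, ∫ h, 2 * ci (kE k) h * ‖fr f k‖ ^ 2 = kap / Real.pi * (lam k * ‖fr f k‖ ^ 2) := by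
    intro k
    rw [integral_mul_const, integral_const_mul]
    have := CI_eq (kE k)
    unfold CI at this
    rw [this, lam_eq]
    field_simp
  have hint : ∀ k, Integrable fun h => 2 * ci (kE k) h * ‖fr f k‖ ^ 2 := fun k =>
    ((ci_int (kE k)).const_mul 2).mul_const _
  have hs : Summable fun k => ∫ h, 2 * ci (kE k) h * ‖fr f k‖ ^ 2 := by
    simp_rw [hci]
    exact (WS_summable pol_lam hf).mul_left _
  obtain ⟨h1, h2⟩ := tsum_int (ψ := fun k h => 2 * ci (kE k) h * ‖fr f k‖ ^ 2)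
    (fun k h => by have := ci_nonneg (kE k) h; positivity)
    (fun k => ((ci_meas (kE k)).const_mul 2).mul_const _) hint hs
  refine ⟨h1, ?_⟩
  rw [h2]
  simp_rw [hci]
  rw [tsum_mul_left]
  rfl

theorem grd_del {f : V → ℝ} (hf : SP f) (h : E3) :
    grd (del h f) ^ 2 = ∑ j, nrm (del h (pd j f)) ^ 2 := by
  rw [grd_sq]
  exact Finset.sum_congr rfl fun j _ => by rw [← nrm_sq, pd_del hf]

theorem int_grd_del {f : V → ℝ} (hf : SP f) :
    Integrable (fun h => wt h * grd (del h f) ^ 2) ∧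
      ∫ h, wt h * grd (del h f) ^ 2 = kap / Real.pi * WS (fun k => lam k ^ 3) f := by
  simp_rw [grd_del hf, Finset.mul_sum]
  have hi := fun j => (int_nrm_del (hf.pd j)).1
  refine ⟨integrable_finsetSum _ fun j _ => hi j, ?_⟩
  rw [integral_finsetSum _ fun j _ => hi j]
  simp_rw [fun j => (int_nrm_del (hf.pd j)).2]
  rw [← Finset.mul_sum, WS_pd_sum pol_lam hf]
  congr 2
  funext k
  ring

end Pool.Agent.U583.HC
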